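import Mathlib

/-!
The adjoint representation of a Lie group and its derivative at the identity.
-/

open Filter Topology Set
open scoped Manifold

noncomputable section

namespace Pool.Agent.P.MP_d483fb_an.Z.Br

section Calc

variable {E : Type} [NormedAddCommGroup E] [NormedSpace ℝ E]

/-- The two mixed second derivatives of a map of two variables agree. -/
theorem mixed_symm {μ : E × E → E} {e : E} (h : ContDiffAt ℝ 2 μ (e, e)) :
    ∃ B : E →L[ℝ] E →L[ℝ] E,
      HasStrictFDerivAt (fun x => fderiv ℝ (fun y => μ (x, y)) e) B e ∧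
      HasStrictFDerivAt (fun x => fderiv ℝ (fun y => μ (y, x)) e) B.flip e := by
  have h1 : ContDiffAt ℝ 1 (fderiv ℝ μ) (e, e) := h.fderiv_right (by norm_num)
  have h2 := h1.hasStrictFDerivAt one_ne_zero
  set D2 := fderiv ℝ (fderiv ℝ μ) (e, e) with hD2
  have hs : ∀ a b, D2 a b = D2 b a := h.isSymmSndFDerivAt (by simp)
  have hev : ∀ᶠ p in 𝓝 (e, e), DifferentiableAt ℝ μ p :=
    (h.eventually (by simp)).mono fun p hp => hp.differentiableAt (by norm_num)
  let R : (E × E →L[ℝ] E) →L[ℝ] E →L[ℝ] E :=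
    (ContinuousLinearMap.compL ℝ E (E × E) E).flip (ContinuousLinearMap.inr ℝ E E)
  let L : (E × E →L[ℝ] E) →L[ℝ] E →L[ℝ] E :=
    (ContinuousLinearMap.compL ℝ E (E × E) E).flip (ContinuousLinearMap.inl ℝ E E)
  have hl : HasStrictFDerivAt (fun x : E => (x, e)) (ContinuousLinearMap.inl ℝ E E) e :=
    (hasStrictFDerivAt_id e).prodMk (hasStrictFDerivAt_const e e)
  have hr : HasStrictFDerivAt (fun x : E => (e, x)) (ContinuousLinearMap.inr ℝ E E) e :=
    (hasStrictFDerivAt_const e e).prodMk (hasStrictFDerivAt_id e)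
  refine ⟨R.comp (D2.comp (ContinuousLinearMap.inl ℝ E E)), ?_, ?_⟩
  · have h3 := R.hasStrictFDerivAt.comp e (HasStrictFDerivAt.comp e (f := fun x : E => (x, e)) h2 hl)
    refine h3.congr_of_eventuallyEq ?_
    filter_upwards [hl.continuousAt.eventually hev] with x hx
    have h4 : HasFDerivAt (fun y : E => (x, y)) (ContinuousLinearMap.inr ℝ E E) e :=
      (hasFDerivAt_const x e).prodMk (hasFDerivAt_id e)
    exact (HasFDerivAt.comp e (f := fun y : E => (x, y)) hx.hasFDerivAt h4).fderiv.symm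
  · have h3 := L.hasStrictFDerivAt.comp e (HasStrictFDerivAt.comp e (f := fun x : E => (e, x)) h2 hr)
    have h5 : (R.comp (D2.comp (ContinuousLinearMap.inl ℝ E E))).flip =
        L.comp (D2.comp (ContinuousLinearMap.inr ℝ E E)) := by
      ext v w
      simp [R, L, hs (w, 0)]
    rw [h5]
    refine h3.congr_of_eventuallyEq ?_
    filter_upwards [hr.continuousAt.eventually hev] with x hx
    have h4 : HasFDerivAt (fun y : E => (y, x)) (ContinuousLinearMap.inl ℝ E E) e :=
      (hasFDerivAt_id e).prodMk (hasFDerivAt_const x e)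
    exact (HasFDerivAt.comp e (f := fun y : E => (y, x)) hx.hasFDerivAt h4).fderiv.symm

/-- The derivative of a quotient in a Banach algebra. -/
theorem quot_deriv {A : Type} [NormedRing A] [NormedAlgebra ℝ A] [CompleteSpace A]
    {P Q R : E → A} {e : E} {P' Q' : E →L[ℝ] A} (hP : HasStrictFDerivAt P P' e)
    (hQ : HasStrictFDerivAt Q Q' e) (hP1 : P e = 1) (hQ1 : Q e = 1)
    (h : ∀ᶠ x in 𝓝 e, P x = Q x * R x) : HasStrictFDerivAt R (P' - Q') e := by
  have hun : ∀ᶠ x in 𝓝 e, IsUnit (Q x) := by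
    refine hQ.continuousAt.eventually (Units.isOpen.mem_nhds ?_)
    rw [hQ1]
    exact isUnit_one
  have hi : HasStrictFDerivAt (Ring.inverse : A → A)
      (-ContinuousLinearMap.mulLeftRight ℝ A 1 1) (Q e) := by
    rw [hQ1]
    simpa using hasStrictFDerivAt_ringInverse (𝕜 := ℝ) (1 : Aˣ)
  have h1 := (hi.comp e hQ).mul' hP
  have h2 : Ring.inverse (Q e) • P' + MulOpposite.op (P e) •
      (-ContinuousLinearMap.mulLeftRight ℝ A 1 1).comp Q' = P' - Q' := by
    ext v
    simp [hP1, hQ1, sub_eq_add_neg]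
  rw [← h2]
  refine h1.congr_of_eventuallyEq ?_
  filter_upwards [h, hun] with x h2 h3
  simp only [Pi.mul_apply]
  rw [h2, ← mul_assoc, Ring.inverse_mul_cancel _ h3, one_mul]

end Calc

variable (E : Type) [NormedAddCommGroup E] [NormedSpace ℝ E]
  {G : Type} [Group G] [TopologicalSpace G] [ChartedSpace E G]

/-- The derivative of a self-map, as an endomorphism of the model space. -/
def mdf (f : G → G) (x : G) : E →L[ℝ] E := mfderiv 𝓘(ℝ, E) 𝓘(ℝ, E) f x

variable (G) in
/-- The chart at the identity. -/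
abbrev ch : PartialEquiv G E := extChartAt 𝓘(ℝ, E) (1 : G)

/-- The derivative of the chart at the identity. -/
def mdc (x : G) : E →L[ℝ] E := mfderiv 𝓘(ℝ, E) 𝓘(ℝ, E) (ch E G) x

variable (G) in
/-- The product read in the chart at the identity. -/
def mu (p : E × E) : E := ch E G ((ch E G).symm p.1 * (ch E G).symm p.2)

variable (G) in
/-- The Lie algebra is the model space. -/
def toE : GroupLieAlgebra 𝓘(ℝ, E) G ≃ₗ[ℝ] E := LinearEquiv.refl ℝ E

variable {E}

theorem mu_left_base : fderiv ℝ (fun y => mu E G (ch E G 1, y)) (ch E G 1) = 1 := by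
  have : (fun y => mu E G (ch E G 1, y)) =ᶠ[𝓝 (ch E G 1)] id := by
    filter_upwards [extChartAt_target_mem_nhds (I := 𝓘(ℝ, E)) (1 : G)] with y hy
    simp only [mu, extChartAt_to_inv, one_mul]
    exact (ch E G).right_inv hy
  rw [this.fderiv_eq, fderiv_id]
  rfl

theorem mu_right_base : fderiv ℝ (fun y => mu E G (y, ch E G 1)) (ch E G 1) = 1 := by
  have : (fun y => mu E G (y, ch E G 1)) =ᶠ[𝓝 (ch E G 1)] id := by
    filter_upwards [extChartAt_target_mem_nhds (I := 𝓘(ℝ, E)) (1 : G)] with y hy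
    simp only [mu, extChartAt_to_inv, mul_one]
    exact (ch E G).right_inv hy
  rw [this.fderiv_eq, fderiv_id]
  rfl

variable [LieGroup 𝓘(ℝ, E) (minSmoothness ℝ 3) G]

theorem three_ne : minSmoothness ℝ 3 ≠ 0 := lt_of_lt_of_le (by simp) le_minSmoothness |>.ne'

theorem one_le_three : (1 : WithTop ℕ∞) ≤ minSmoothness ℝ 3 :=
  le_trans (by norm_num) le_minSmoothness

theorem two_le_three : (2 : WithTop ℕ∞) ≤ minSmoothness ℝ 3 :=
  le_trans (by norm_num) le_minSmoothness

theorem md_left (g h : G) : MDifferentiableAt 𝓘(ℝ, E) 𝓘(ℝ, E) (fun x : G => g * x) h :=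
  contMDiff_mul_left.contMDiffAt.mdifferentiableAt three_ne

theorem md_right (g h : G) : MDifferentiableAt 𝓘(ℝ, E) 𝓘(ℝ, E) (fun x : G => x * g) h :=
  contMDiff_mul_right.contMDiffAt.mdifferentiableAt three_ne

theorem md_conj (g h : G) : MDifferentiableAt 𝓘(ℝ, E) 𝓘(ℝ, E) (fun x : G => g * x * g⁻¹) h :=
  (md_right g⁻¹ (g * h)).comp h (md_left g h)

set_option backward.isDefEq.respectTransparency false in
omit [Group G] [LieGroup 𝓘(ℝ, E) (minSmoothness ℝ 3) G] in
theorem mdf_comp {f k : G → G} {x : G} (hf : MDifferentiableAt 𝓘(ℝ, E) 𝓘(ℝ, E) f (k x))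
    (hk : MDifferentiableAt 𝓘(ℝ, E) 𝓘(ℝ, E) k x) :
    mdf E (f ∘ k) x = mdf E f (k x) * mdf E k x := mfderiv_comp x hf hk

set_option backward.isDefEq.respectTransparency false in
omit [Group G] [LieGroup 𝓘(ℝ, E) (minSmoothness ℝ 3) G] in
theorem mdf_id (x : G) : mdf E id x = 1 := mfderiv_id

variable (E G) in
/-- The adjoint representation. -/
def adj : G →* (E →L[ℝ] E) where
  toFun g := mdf E (fun h : G => g * h * g⁻¹) 1
  map_one' := by
    have : (fun h : G => (1 : G) * h * (1 : G)⁻¹) = id := by ext h; simp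
    rw [this, mdf_id]
  map_mul' g h := by
    have : (fun x : G => g * h * x * (g * h)⁻¹) =
        (fun x : G => g * x * g⁻¹) ∘ fun x : G => h * x * h⁻¹ := by
      ext x
      simp [mul_assoc]
    rw [this, mdf_comp (md_conj g _) (md_conj h 1)]
    simp

theorem adj_apply (g : G) : adj E G g = mdf E (fun h : G => g * h * g⁻¹) 1 := rfl

theorem ch_symm_smooth :
    ContMDiffAt 𝓘(ℝ, E) 𝓘(ℝ, E) (minSmoothness ℝ 3) (ch E G).symm (ch E G 1) := by
  have := contMDiffWithinAt_extChartAt_symm_range (I := 𝓘(ℝ, E)) (n := minSmoothness ℝ 3) (1 : G)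
    (mem_extChartAt_target (1 : G))
  simpa [contMDiffWithinAt_univ] using this

theorem mu_smooth : ContDiffAt ℝ 2 (mu E G) (ch E G 1, ch E G 1) := by
  have h1 : ContMDiffAt 𝓘(ℝ, E × E) 𝓘(ℝ, E) (minSmoothness ℝ 3)
      (fun p : E × E => (ch E G).symm p.1) (ch E G 1, ch E G 1) :=
    ContMDiffAt.comp (ch E G 1, ch E G 1) (f := Prod.fst) ch_symm_smooth
      contDiff_fst.contMDiff.contMDiffAt
  have h2 : ContMDiffAt 𝓘(ℝ, E × E) 𝓘(ℝ, E) (minSmoothness ℝ 3)
      (fun p : E × E => (ch E G).symm p.2) (ch E G 1, ch E G 1) :=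
    ContMDiffAt.comp (ch E G 1, ch E G 1) (f := Prod.snd) ch_symm_smooth
      contDiff_snd.contMDiff.contMDiffAt
  have h3 : ContMDiffAt 𝓘(ℝ, E) 𝓘(ℝ, E) (minSmoothness ℝ 3) (ch E G)
      ((ch E G).symm (ch E G 1) * (ch E G).symm (ch E G 1)) := by
    rw [extChartAt_to_inv, one_mul]
    exact contMDiffAt_extChartAt
  have h4 := ContMDiffAt.comp (ch E G 1, ch E G 1) h3 (h1.mul h2)
  exact (contMDiffAt_iff_contDiffAt.1 h4).of_le two_le_three

set_option backward.isDefEq.respectTransparency false in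
/-- The derivative at the base point of a map read in the chart. -/
theorem fderiv_chart {f : G → G} (hf : MDifferentiableAt 𝓘(ℝ, E) 𝓘(ℝ, E) f 1)
    (hs : f 1 ∈ (ch E G).source) :
    HasFDerivAt (fun y => ch E G (f ((ch E G).symm y))) (mdc E (f 1) * mdf E f 1) (ch E G 1) := by
  have : IsManifold 𝓘(ℝ, E) 1 G := IsManifold.of_le one_le_three
  have h0 : (ch E G).symm (ch E G 1) = 1 := extChartAt_to_inv _
  have h1 : HasMFDerivAt 𝓘(ℝ, E) 𝓘(ℝ, E) (ch E G).symm (ch E G 1)
      (ContinuousLinearMap.id ℝ E) := by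
    have h := (ch_symm_smooth (E := E) (G := G)).mdifferentiableAt three_ne
    have h' := mfderivWithin_range_extChartAt_symm (I := 𝓘(ℝ, E)) (x := (1 : G))
    rw [modelWithCornersSelf_coe, range_id, mfderivWithin_univ] at h'
    exact h.hasMFDerivAt.congr_mfderiv h'
  have h2 : HasMFDerivAt 𝓘(ℝ, E) 𝓘(ℝ, E) f ((ch E G).symm (ch E G 1)) (mdf E f 1) := by
    rw [h0]
    exact hf.hasMFDerivAt
  have h3 : HasMFDerivAt 𝓘(ℝ, E) 𝓘(ℝ, E) (ch E G) (f ((ch E G).symm (ch E G 1)))
      (mdc E (f 1)) := by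
    rw [h0]
    exact (mdifferentiableAt_extChartAt (by simpa using hs)).hasMFDerivAt
  have h4 := h3.comp (ch E G 1) (h2.comp (ch E G 1) h1)
  exact hasMFDerivAt_iff_hasFDerivAt.1 h4

theorem mdc_one : mdc E (1 : G) = 1 := by
  have : IsManifold 𝓘(ℝ, E) 1 G := IsManifold.of_le one_le_three
  exact mfderiv_extChartAt_self

theorem fderiv_mu_left {x : E} (hx : x ∈ (ch E G).target) :
    fderiv ℝ (fun y => mu E G (x, y)) (ch E G 1) =
      mdc E ((ch E G).symm x) * mdf E (fun h : G => (ch E G).symm x * h) 1 := by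
  have h := (fderiv_chart (f := fun h : G => (ch E G).symm x * h) (md_left _ _)
    (by simpa only [mul_one] using (ch E G).map_target hx)).fderiv
  simp only [mul_one] at h
  exact h

theorem fderiv_mu_right {x : E} (hx : x ∈ (ch E G).target) :
    fderiv ℝ (fun y => mu E G (y, x)) (ch E G 1) =
      mdc E ((ch E G).symm x) * mdf E (fun h : G => h * (ch E G).symm x) 1 := by
  have h := (fderiv_chart (f := fun h : G => h * (ch E G).symm x) (md_right _ _)
    (by simpa only [one_mul] using (ch E G).map_target hx)).fderiv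
  simp only [one_mul] at h
  exact h

theorem left_eq_right_adj (g : G) :
    mdf E (fun h : G => g * h) 1 = mdf E (fun h : G => h * g) 1 * adj E G g := by
  have : (fun h : G => g * h) = (fun h : G => h * g) ∘ fun h : G => g * h * g⁻¹ := by
    ext h
    simp
  rw [this, mdf_comp (md_right g _) (md_conj g 1), adj_apply]
  simp

variable (E) in
/-- An invariant vector field read in the chart at the identity. -/
def fld (w : GroupLieAlgebra 𝓘(ℝ, E) G) : E → E :=
  VectorField.mpullbackWithin 𝓘(ℝ, E) 𝓘(ℝ, E) (ch E G).symm (mulInvariantVectorField w)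
    (range 𝓘(ℝ, E))

set_option backward.isDefEq.respectTransparency false in
theorem field_chart (w : GroupLieAlgebra 𝓘(ℝ, E) G) :
    fld E w =ᶠ[𝓝 (ch E G 1)] fun x => fderiv ℝ (fun y => mu E G (x, y)) (ch E G 1) (toE E G w) := by
  have : IsManifold 𝓘(ℝ, E) 1 G := IsManifold.of_le one_le_three
  filter_upwards [extChartAt_target_mem_nhds (I := 𝓘(ℝ, E)) (1 : G)] with x hx
  rw [fderiv_mu_left hx, fld, VectorField.mpullbackWithin_apply,
    ContinuousLinearMap.inverse_eq (mfderivWithin_extChartAt_symm_comp_mfderiv_extChartAt hx)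
      (mfderiv_extChartAt_comp_mfderivWithin_extChartAt_symm hx)]
  rfl

set_option backward.isDefEq.respectTransparency false in
theorem bracket_fld (v w : GroupLieAlgebra 𝓘(ℝ, E) G) :
    toE E G ⁅v, w⁆ = VectorField.lieBracket ℝ (fld E v) (fld E w) (ch E G 1) := by
  have : IsManifold 𝓘(ℝ, E) 1 G := IsManifold.of_le one_le_three
  rw [GroupLieAlgebra.bracket_def, VectorField.mlieBracket, VectorField.mlieBracketWithin_apply,
    mfderiv_extChartAt_self, ContinuousLinearMap.inverse_id]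
  have hu : (extChartAt 𝓘(ℝ, E) (1 : G)).symm ⁻¹' univ ∩ range 𝓘(ℝ, E) = univ := by simp
  rw [hu, VectorField.lieBracketWithin_univ]
  rfl

theorem bracket_eq {B : E →L[ℝ] E →L[ℝ] E}
    (hB : HasFDerivAt (fun x => fderiv ℝ (fun y => mu E G (x, y)) (ch E G 1)) B (ch E G 1))
    (v w : GroupLieAlgebra 𝓘(ℝ, E) G) :
    toE E G ⁅v, w⁆ = B (toE E G v) (toE E G w) - B (toE E G w) (toE E G v) := by
  have key : ∀ a b : GroupLieAlgebra 𝓘(ℝ, E) G,
      fderiv ℝ (fld E b) (ch E G 1) (fld E a (ch E G 1)) = B (toE E G a) (toE E G b) := by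
    intro a b
    rw [(field_chart b).fderiv_eq, (field_chart a).self_of_nhds]
    have h := (ContinuousLinearMap.apply ℝ E (toE E G b)).hasFDerivAt.comp (ch E G 1) hB
    have h' : fderiv ℝ (fun x => fderiv ℝ (fun y => mu E G (x, y)) (ch E G 1) (toE E G b))
      (ch E G 1) = _ := h.fderiv
    rw [h']
    beta_reduce
    rw [mu_left_base, one_apply_eq_self, ContinuousLinearMap.comp_apply,
      ContinuousLinearMap.apply_apply]
  rw [bracket_fld, VectorField.lieBracket, key, key]

/-- The derivative of the adjoint representation at the identity is the bracket. -/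
theorem adj_deriv [CompleteSpace E] : ∃ D : E →L[ℝ] E →L[ℝ] E,
    HasStrictFDerivAt (fun x => adj E G ((ch E G).symm x)) D (ch E G 1) ∧
      ∀ v w : GroupLieAlgebra 𝓘(ℝ, E) G, D (toE E G v) (toE E G w) = toE E G ⁅v, w⁆ := by
  obtain ⟨B, hP, hQ⟩ := mixed_symm (mu_smooth (E := E) (G := G))
  refine ⟨B - B.flip, quot_deriv hP hQ mu_left_base mu_right_base ?_, fun v w => ?_⟩
  · filter_upwards [extChartAt_target_mem_nhds (I := 𝓘(ℝ, E)) (1 : G)] with x hx
    rw [fderiv_mu_left hx, fderiv_mu_right hx, left_eq_right_adj, mul_assoc]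
  · rw [bracket_eq hP.hasFDerivAt]
    rfl

end Pool.Agent.P.MP_d483fb_an.Z.Br
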