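import Pool.Agent.P.MP_d483fb_an.Z.Stmt

/-!
The automorphism group of a Lie algebra with nondegenerate Killing form, as a closed group of
matrices whose Lie algebra is the algebra of inner derivations.
-/

open scoped Matrix Matrix.Norms.Operator Topology
open NormedSpace Filter Set Module

attribute [local instance 100] LieRing.ofAssociativeRing

noncomputable section

namespace Pool.Agent.P.MP_d483fb_an.Z

variable {L : Type*} [LieRing L] [LieAlgebra ℝ L] {n : ℕ}

/-- The matrix of `ad X` in the basis `b`. -/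
def adM (b : Basis (Fin n) ℝ L) : L →ₗ[ℝ] Mat n :=
  (LinearMap.toMatrix b b).toLinearMap ∘ₗ (LieAlgebra.ad ℝ L).toLinearMap

theorem adM_apply (b : Basis (Fin n) ℝ L) (X : L) :
    adM b X = LinearMap.toMatrix b b (LieAlgebra.ad ℝ L X) := rfl

/-- The matrices of the automorphisms of `L` in the basis `b`. -/
def Aut (b : Basis (Fin n) ℝ L) : Set (Mat n) :=
  {A | ∃ φ : L ≃ₗ⁅ℝ⁆ L, A = LinearMap.toMatrix b b φ.toLinearEquiv.toLinearMap}

variable (b : Basis (Fin n) ℝ L)

theorem toLin_adM (X Y : L) : Matrix.toLin b b (adM b X) Y = ⁅X, Y⁆ := by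
  rw [adM_apply, Matrix.toLin_toMatrix, LieAlgebra.ad_apply]

theorem toLin_mul_app (A B : Mat n) (X : L) :
    Matrix.toLin b b (A * B) X = Matrix.toLin b b A (Matrix.toLin b b B X) :=
  Matrix.toLin_mul_apply b b b A B X

theorem mat_ext {A B : Mat n} (h : ∀ X, Matrix.toLin b b A X = Matrix.toLin b b B X) : A = B :=
  (Matrix.toLin b b).injective (LinearMap.ext h)

theorem adM_lie (X Y : L) : adM b ⁅X, Y⁆ = adM b X * adM b Y - adM b Y * adM b X := by
  refine mat_ext b fun Z => ?_
  rw [map_sub, LinearMap.sub_apply, toLin_mul_app, toLin_mul_app]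
  simp only [toLin_adM, lie_lie]

theorem killingForm_eq_trace (X Y : L) : killingForm ℝ L X Y = (adM b X * adM b Y).trace := by
  rw [LieModule.traceForm_apply_apply, LinearMap.trace_eq_matrix_trace ℝ b,
    LinearMap.toMatrix_comp b b b]
  rfl

theorem adM_injective [LieAlgebra.IsKilling ℝ L] : Function.Injective (adM b) := by
  rw [injective_iff_map_eq_zero]
  intro X hX
  rw [← Submodule.mem_bot (R := ℝ), ← LieAlgebra.IsKilling.ker_killingForm_eq_bot,
    LinearMap.mem_ker]
  ext Y
  rw [killingForm_eq_trace b, hX, zero_mul, Matrix.trace_zero, LinearMap.zero_apply]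

theorem mem_Aut_iff {A : Mat n} : A ∈ Aut b ↔
    IsUnit A ∧ ∀ X, A * adM b X = adM b (Matrix.toLin b b A X) * A := by
  constructor
  · rintro ⟨φ, rfl⟩
    refine ⟨?_, fun X => mat_ext b fun Y => ?_⟩
    · refine IsUnit.of_mul_eq_one (LinearMap.toMatrix b b φ.symm.toLinearEquiv.toLinearMap) ?_
      refine mat_ext b fun Y => ?_
      rw [toLin_mul_app, Matrix.toLin_toMatrix, Matrix.toLin_toMatrix, Matrix.toLin_one]
      exact φ.apply_symm_apply Y
    · rw [toLin_mul_app, toLin_mul_app, toLin_adM, toLin_adM, Matrix.toLin_toMatrix]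
      exact φ.map_lie X Y
  · rintro ⟨⟨u, rfl⟩, h⟩
    refine ⟨{ toFun := Matrix.toLin b b u.val
              map_add' := map_add _
              map_smul' := map_smul _
              map_lie' := ?_
              invFun := Matrix.toLin b b u.inv
              left_inv := ?_
              right_inv := ?_ }, ?_⟩
    · intro X Y
      have := congrArg (fun B => Matrix.toLin b b B Y) (h X)
      simpa only [toLin_mul_app, toLin_adM] using this
    · intro X
      rw [← toLin_mul_app, u.inv_val, Matrix.toLin_one, LinearMap.id_apply]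
    · intro X
      rw [← toLin_mul_app, u.val_inv, Matrix.toLin_one, LinearMap.id_apply]
    · refine mat_ext b fun Y => ?_
      rw [Matrix.toLin_toMatrix]
      rfl

theorem one_mem_Aut : (1 : Mat n) ∈ Aut b :=
  (mem_Aut_iff b).2 ⟨isUnit_one, fun X => by
    rw [Matrix.toLin_one, LinearMap.id_apply, one_mul, mul_one]⟩

theorem mul_mem_Aut {A B : Mat n} (hA : A ∈ Aut b) (hB : B ∈ Aut b) : A * B ∈ Aut b := by
  rw [mem_Aut_iff] at hA hB ⊢
  refine ⟨hA.1.mul hB.1, fun X => ?_⟩
  rw [mul_assoc, hB.2, ← mul_assoc, hA.2, toLin_mul_app, mul_assoc]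

theorem continuous_adM_toLin (X : L) : Continuous fun A : Mat n => adM b (Matrix.toLin b b A X) :=
  (adM b ∘ₗ LinearMap.applyₗ X ∘ₗ (Matrix.toLin b b).toLinearMap).continuous_of_finiteDimensional

theorem mem_Aut_iff' [LieAlgebra.IsKilling ℝ L] {A : Mat n} : A ∈ Aut b ↔
    (∀ X, A * adM b X = adM b (Matrix.toLin b b A X) * A) ∧
      ∀ X Y, (adM b (Matrix.toLin b b A X) * adM b (Matrix.toLin b b A Y)).trace =
        (adM b X * adM b Y).trace := by
  rw [mem_Aut_iff]
  constructor
  · rintro ⟨⟨u, rfl⟩, h⟩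
    refine ⟨h, fun X Y => ?_⟩
    have h1 : adM b (Matrix.toLin b b u.val X) * adM b (Matrix.toLin b b u.val Y) =
        u.val * (adM b X * adM b Y) * u.inv := by
      rw [← mul_assoc, h X, mul_assoc _ u.val, h Y, mul_assoc, mul_assoc, u.val_inv, mul_one]
    rw [h1, Matrix.trace_mul_cycle, u.inv_val, one_mul]
  · rintro ⟨h, hK⟩
    refine ⟨?_, h⟩
    haveI := Module.Finite.of_basis b
    have hinj : LinearMap.ker (Matrix.toLin b b A) = ⊥ := by
      rw [LinearMap.ker_eq_bot']
      intro X hX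
      rw [← Submodule.mem_bot (R := ℝ), ← LieAlgebra.IsKilling.ker_killingForm_eq_bot,
        LinearMap.mem_ker]
      ext Y
      rw [killingForm_eq_trace b, ← hK, hX, map_zero, zero_mul, Matrix.trace_zero,
        LinearMap.zero_apply]
    have hu := (LinearMap.isUnit_iff_ker_eq_bot _).2 hinj
    have := hu.map (LinearMap.toMatrixAlgEquiv b)
    rwa [show LinearMap.toMatrixAlgEquiv b (Matrix.toLin b b A) = A from
      LinearMap.toMatrix_toLin b b A] at this

/-- (AUT1) The automorphism group is closed in the space of all matrices. -/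
theorem isClosed_Aut [LieAlgebra.IsKilling ℝ L] : IsClosed (Aut b) := by
  have : Aut b = (⋂ X, {A | A * adM b X = adM b (Matrix.toLin b b A X) * A}) ∩
      ⋂ X, ⋂ Y, {A | (adM b (Matrix.toLin b b A X) * adM b (Matrix.toLin b b A Y)).trace =
        (adM b X * adM b Y).trace} := by
    ext A
    simp only [mem_Aut_iff', mem_inter_iff, mem_iInter, mem_ofPred_eq]
  rw [this]
  refine (isClosed_iInter fun X => isClosed_eq ?_ ?_).inter
    (isClosed_iInter fun X => isClosed_iInter fun Y => isClosed_eq ?_ continuous_const)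
  · exact continuous_id.mul continuous_const
  · exact (continuous_adM_toLin b X).mul continuous_id
  · exact ((continuous_adM_toLin b X).mul (continuous_adM_toLin b Y)).matrix_trace

theorem exp_smul_mul_exp_neg (Z : Mat n) (t : ℝ) : exp (t • Z) * exp (t • (-Z)) = 1 := by
  rw [← Matrix.exp_add_of_commute _ _ (((Commute.refl Z).neg_right.smul_left t).smul_right t),
    ← smul_add, add_neg_cancel, smul_zero, exp_zero]

theorem exp_neg_mul_exp_smul (Z : Mat n) (t : ℝ) : exp (t • (-Z)) * exp (t • Z) = 1 := by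
  have := exp_smul_mul_exp_neg (-Z) t
  rwa [neg_neg] at this

/-- The bracket transported by `exp (t Z)`. -/
def uC (Z : Mat n) (X : L) (t : ℝ) : Mat n :=
  exp (t • (-Z)) * adM b (Matrix.toLin b b (exp (t • Z)) X) * exp (t • Z)

theorem uC_zero (Z : Mat n) (X : L) : uC b Z X 0 = adM b X := by
  simp only [uC, zero_smul, exp_zero, Matrix.toLin_one, LinearMap.id_apply, one_mul, mul_one]

theorem uC_eq_iff (Z : Mat n) (t : ℝ) : (∀ X, uC b Z X t = adM b X) ↔ exp (t • Z) ∈ Aut b := by
  rw [mem_Aut_iff]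
  constructor
  · intro h
    refine ⟨Matrix.isUnit_exp _, fun X => ?_⟩
    rw [← h X, uC, ← mul_assoc, ← mul_assoc, exp_smul_mul_exp_neg, one_mul]
  · rintro ⟨-, h⟩ X
    rw [uC, mul_assoc, ← h X, ← mul_assoc, exp_neg_mul_exp_smul, one_mul]

theorem hasDerivAt_uC (Z : Mat n) (X : L) (t : ℝ) : HasDerivAt (uC b Z X)
    (uC b Z (Matrix.toLin b b Z X) t + uC b Z X t * Z - Z * uC b Z X t) t := by
  let T : Mat n →L[ℝ] Mat n :=
    (adM b ∘ₗ LinearMap.applyₗ X ∘ₗ (Matrix.toLin b b).toLinearMap).toContinuousLinearMap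
  have h1 := hasDerivAt_exp_smul_const' (𝕂 := ℝ) (-Z) t
  have h2 := hasDerivAt_exp_smul_const (𝕂 := ℝ) Z t
  have h3 := T.hasFDerivAt.comp_hasDerivAt t h2
  have h4 := (h1.mul h3).mul h2
  refine HasDerivAt.congr_deriv (f := uC b Z X) h4 ?_
  change (-Z * exp (t • -Z) * adM b (Matrix.toLin b b (exp (t • Z)) X) +
    exp (t • -Z) * adM b (Matrix.toLin b b (exp (t • Z) * Z) X)) * exp (t • Z) +
    exp (t • -Z) * adM b (Matrix.toLin b b (exp (t • Z)) X) * (exp (t • Z) * Z) = _
  simp only [uC, toLin_mul_app]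
  noncomm_ring

/-- `Z` is the matrix of a derivation. -/
def IsDer (Z : Mat n) : Prop :=
  ∀ X, adM b (Matrix.toLin b b Z X) + adM b X * Z - Z * adM b X = 0

theorem isDer_adM (Y : L) : IsDer b (adM b Y) := by
  intro X
  rw [toLin_adM, adM_lie]
  abel

theorem IsDer.exists_eq [LieAlgebra.IsKilling ℝ L] {Z : Mat n} (h : IsDer b Z) :
    ∃ Y, adM b Y = Z := by
  haveI := Module.Finite.of_basis b
  let D : LieDerivation ℝ L L :=
    { toLinearMap := Matrix.toLin b b Z
      leibniz' := fun X Y => by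
        have := congrArg (fun B => Matrix.toLin b b B Y) (h X)
        simp only [map_sub, map_add, LinearMap.sub_apply, LinearMap.add_apply, toLin_mul_app,
          toLin_adM, map_zero, LinearMap.zero_apply] at this
        rw [← lie_skew (Matrix.toLin b b Z X) Y] at this
        rw [← sub_eq_zero, ← neg_eq_zero, ← this]
        abel }
  obtain ⟨Y, hY⟩ := LieDerivation.IsKilling.exists_eq_ad D
  refine ⟨Y, mat_ext b fun X => ?_⟩
  rw [toLin_adM, ← LieDerivation.ad_apply_apply (R := ℝ), hY]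
  rfl

theorem IsDer.exp_smul_mem {Z : Mat n} (h : IsDer b Z) (t : ℝ) : exp (t • Z) ∈ Aut b := by
  rw [← uC_eq_iff]
  intro X
  have h0 : ∀ s, HasDerivAt (uC b Z X) 0 s := fun s => by
    convert hasDerivAt_uC b Z X s using 1
    have c1 : Commute Z (exp (s • Z)) := ((Commute.refl Z).smul_right s).exp_right
    have c2 : Commute Z (exp (s • (-Z))) := ((Commute.refl Z).neg_right.smul_right s).exp_right
    have := congrArg (fun B => exp (s • (-Z)) * B * exp (s • Z))
      (h (Matrix.toLin b b (exp (s • Z)) X))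
    simp only [mul_zero, zero_mul] at this
    rw [← this, uC, uC, ← toLin_mul_app, ← toLin_mul_app, c1.eq, mul_assoc _ (exp (s • Z)) Z,
      ← c1.eq, ← mul_assoc Z, ← mul_assoc Z, c2.eq]
    noncomm_ring
  rw [← uC_zero b Z X]
  exact is_const_of_deriv_eq_zero (fun s => (h0 s).differentiableAt) (fun s => (h0 s).deriv) t 0

theorem exp_smul_adM_mem (X : L) (t : ℝ) : exp (t • adM b X) ∈ Aut b :=
  (isDer_adM b X).exp_smul_mem b t

/-- (AUT2) The exponential of an inner derivation is an automorphism. -/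
theorem exp_adM_mem (X : L) : exp (adM b X) ∈ Aut b := by
  have := exp_smul_adM_mem b X 1
  rwa [one_smul] at this

theorem isDer_of_mem_lieSet {Z : Mat n} (h : Z ∈ lieSet (Aut b)) : IsDer b Z := by
  intro X
  have h1 := hasDerivAt_uC b Z X 0
  simp only [uC_zero] at h1
  have h2 : uC b Z X = fun _ => adM b X := funext fun t => (uC_eq_iff b Z t).2 (h t) X
  rw [h2] at h1
  exact h1.unique (hasDerivAt_const _ _)

/-- (AUT4) The Lie algebra of a group between the inner and all automorphisms. -/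
theorem lieSet_eq_range [LieAlgebra.IsKilling ℝ L] {S : Set (Mat n)} (hS : S ⊆ Aut b)
    (h : ∀ X, exp (adM b X) ∈ S) : lieSet S = range (adM b) := by
  ext Z
  constructor
  · intro hZ
    exact (isDer_of_mem_lieSet b fun t => hS (hZ t)).exists_eq b
  · rintro ⟨X, rfl⟩ t
    rw [← map_smul]
    exact h _

theorem lieSet_Aut [LieAlgebra.IsKilling ℝ L] : lieSet (Aut b) = range (adM b) :=
  lieSet_eq_range b Subset.rfl (exp_adM_mem b)

/-- A periodic solution of a slow linear equation is stationary. -/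
theorem stationary_of_periodic {F : Type*} [NormedAddCommGroup F] [NormedSpace ℝ F]
    (Φ : F →L[ℝ] F) (hΦ : ‖Φ‖ < 1) (u : ℝ → F) (hu : ∀ t, HasDerivAt u (Φ (u t)) t)
    (h : u 1 = u 0) : Φ (u 0) = 0 := by
  have hw : ∀ t, HasDerivAt (fun t => Φ (u t)) (Φ (Φ (u t))) t := fun t =>
    Φ.hasFDerivAt.comp_hasDerivAt t (hu t)
  have hc : Continuous fun t => ‖Φ (u t)‖ :=
    (continuous_iff_continuousAt.2 fun t => (hw t).continuousAt).norm
  obtain ⟨s, hs, hmax⟩ := isCompact_Icc.exists_isMaxOn (nonempty_Icc.2 zero_le_one)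
    hc.continuousOn
  have h1 : ∀ t ∈ Icc (0 : ℝ) 1, ‖Φ (u t) - Φ (u s)‖ ≤ ‖Φ‖ * ‖Φ (u s)‖ := by
    intro t ht
    have := (convex_Icc (0 : ℝ) 1).norm_image_sub_le_of_norm_hasDerivWithin_le
      (C := ‖Φ‖ * ‖Φ (u s)‖) (fun x _ => (hw x).hasDerivWithinAt)
      (fun x hx => (Φ.le_opNorm _).trans (mul_le_mul_of_nonneg_left (hmax hx) (norm_nonneg _)))
      hs ht
    refine this.trans (mul_le_of_le_one_right (by positivity) ?_)
    rw [Real.norm_eq_abs, abs_le]
    constructor <;> linarith [hs.1, hs.2, ht.1, ht.2]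
  have h2 := (convex_Icc (0 : ℝ) 1).norm_image_sub_le_of_norm_hasDerivWithin_le
    (f := fun t => u t - t • Φ (u s)) (f' := fun t => Φ (u t) - Φ (u s))
    (C := ‖Φ‖ * ‖Φ (u s)‖)
    (fun x _ => by
      have := (hu x).sub ((hasDerivAt_id x).smul_const (Φ (u s)))
      rw [one_smul] at this
      exact this.hasDerivWithinAt)
    h1 (left_mem_Icc.2 zero_le_one) (right_mem_Icc.2 zero_le_one)
  simp only [h, one_smul, zero_smul, sub_zero, sub_sub_cancel_left, norm_neg, norm_one,
    mul_one] at h2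
  have h3 : ‖Φ (u s)‖ ≤ 0 := by nlinarith [norm_nonneg (Φ (u s))]
  exact norm_le_zero_iff.1 ((hmax (left_mem_Icc.2 zero_le_one)).trans h3)

theorem eventually_stationary {A F : Type*} [NormedAddCommGroup A] [NormedSpace ℝ A]
    [FiniteDimensional ℝ A] [NormedAddCommGroup F] [NormedSpace ℝ F] [FiniteDimensional ℝ F]
    (Φ : A →ₗ[ℝ] F →ₗ[ℝ] F) : ∀ᶠ Z in 𝓝 (0 : A), ∀ u : ℝ → F,
      (∀ t, HasDerivAt u (Φ Z (u t)) t) → u 1 = u 0 → Φ Z (u 0) = 0 := by
  let Ψ : A →ₗ[ℝ] F →L[ℝ] F := (LinearMap.toContinuousLinearMap).toLinearMap ∘ₗ Φ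
  have hc : Continuous fun Z => ‖Ψ Z‖ := Ψ.continuous_of_finiteDimensional.norm
  have h0 : ‖Ψ 0‖ < 1 := by rw [map_zero, norm_zero]; exact one_pos
  filter_upwards [hc.continuousAt.eventually_lt continuousAt_const h0] with Z hZ u hu h
  exact stationary_of_periodic (Ψ Z) hZ u hu h

/-- The infinitesimal action of `Z` on brackets. -/
def dAct : Mat n →ₗ[ℝ] (Fin n → Mat n) →ₗ[ℝ] (Fin n → Mat n) :=
  LinearMap.mk₂ ℝ (fun Z u i => ∑ j, Z j i • u j + u i * Z - Z * u i)
    (fun Z Z' u => by
      funext i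
      simp only [Matrix.add_apply, add_smul, Finset.sum_add_distrib, mul_add, add_mul, Pi.add_apply]
      abel)
    (fun c Z u => by
      funext i
      simp only [Matrix.smul_apply, smul_eq_mul, mul_smul, ← Finset.smul_sum, Pi.smul_apply,
        smul_sub, smul_add, Matrix.mul_smul, Matrix.smul_mul])
    (fun Z u u' => by
      funext i
      simp only [smul_add, Finset.sum_add_distrib, mul_add, add_mul, Pi.add_apply]
      abel)
    (fun c Z u => by
      funext i
      simp only [smul_comm _ c, ← Finset.smul_sum, Pi.smul_apply, smul_sub, smul_add,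
        Matrix.mul_smul, Matrix.smul_mul])

theorem uC_toLin (Z W : Mat n) (i : Fin n) (t : ℝ) :
    uC b Z (Matrix.toLin b b W (b i)) t = ∑ j, W j i • uC b Z (b j) t := by
  simp only [uC, Matrix.toLin_self, map_sum, map_smul, Finset.mul_sum, Finset.sum_mul,
    Matrix.mul_smul, Matrix.smul_mul]

/-- A small logarithm of an automorphism is a derivation. -/
theorem eventually_isDer : ∀ᶠ Z in 𝓝 (0 : Mat n), exp Z ∈ Aut b → IsDer b Z := by
  filter_upwards [eventually_stationary (dAct (n := n))] with Z hZ hA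
  have hu : ∀ t, HasDerivAt (fun t i => uC b Z (b i) t) (dAct Z fun i => uC b Z (b i) t) t := by
    intro t
    refine (hasDerivAt_pi (E' := fun _ : Fin n => Mat n)).2 fun i => ?_
    have := hasDerivAt_uC b Z (b i) t
    rwa [uC_toLin] at this
  have h1 := hZ _ hu (by
    funext i
    rw [uC_zero]
    exact (uC_eq_iff b Z 1).2 (by rwa [one_smul]) _)
  have h2 : ∀ i, adM b (Matrix.toLin b b Z (b i)) + adM b (b i) * Z - Z * adM b (b i) = 0 := by
    intro i
    rw [← uC_zero b Z, ← uC_zero b Z, uC_toLin]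
    exact congrFun h1 i
  intro X
  let T : L →ₗ[ℝ] Mat n := adM b ∘ₗ Matrix.toLin b b Z + LinearMap.mulRight ℝ Z ∘ₗ adM b -
    LinearMap.mulLeft ℝ Z ∘ₗ adM b
  have : T = 0 := b.ext h2
  exact LinearMap.congr_fun this X

/-- (AUT3), without a topology on `L`. -/
theorem nhdsWithin_Aut_le [LieAlgebra.IsKilling ℝ L] :
    𝓝[Aut b] 1 ≤ Filter.map exp (𝓝[range (adM b)] (0 : Mat n)) := by
  have h0 : Filter.map exp (𝓝 (0 : Mat n)) = 𝓝 1 := by
    have := (hasStrictFDerivAt_exp_zero (𝕂 := ℝ) (𝔸 := Mat n)).map_nhds_eq_of_equiv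
      (f' := ContinuousLinearEquiv.refl ℝ (Mat n))
    rwa [exp_zero] at this
  intro W hW
  rw [Filter.mem_map, mem_nhdsWithin_iff_eventually] at hW
  rw [mem_nhdsWithin_iff_eventually, ← h0, eventually_map]
  filter_upwards [hW, eventually_isDer b] with Z h1 h2 h3
  exact h1 ((h2 h3).exists_eq b)

/-- (AUT3) The exponentials of small inner derivations form a neighbourhood of `1`. -/
theorem exp_adM_mem_nhdsWithin [LieAlgebra.IsKilling ℝ L] [TopologicalSpace L]
    [IsTopologicalAddGroup L] [ContinuousSMul ℝ L] [T2Space L] {V : Set L} (hV : V ∈ 𝓝 (0 : L)) :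
    (fun X => exp (adM b X)) '' V ∈ 𝓝[Aut b] 1 := by
  haveI := Module.Finite.of_basis b
  refine nhdsWithin_Aut_le b ?_
  have he := (LinearMap.isClosedEmbedding_of_injective
    (LinearMap.ker_eq_bot.2 (adM_injective b))).isEmbedding.map_nhds_eq 0
  rw [map_zero] at he
  rw [← he, Filter.map_map]
  exact image_mem_map hV

theorem map_exp_adM_nhds [LieAlgebra.IsKilling ℝ L] [TopologicalSpace L]
    [IsTopologicalAddGroup L] [ContinuousSMul ℝ L] [T2Space L] :
    Filter.map (fun X => exp (adM b X)) (𝓝 (0 : L)) = 𝓝[Aut b] 1 := by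
  haveI := Module.Finite.of_basis b
  refine le_antisymm ?_ fun W hW => mem_of_superset (exp_adM_mem_nhdsWithin b hW)
    (image_preimage_subset _ _)
  refine tendsto_nhdsWithin_iff.2 ⟨?_, Eventually.of_forall (exp_adM_mem b)⟩
  have : Continuous fun X => exp (adM b X) :=
    exp_continuous.comp (adM b).continuous_of_finiteDimensional
  have h := this.tendsto 0
  rwa [map_zero, exp_zero] at h

end Pool.Agent.P.MP_d483fb_an.Z
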