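import Pool.Agent.P.MP_d483fb_an.Z.Br.Ad1
import Pool.Agent.P.MP_d483fb_an.Z.Br.Aut

/-!
One parameter subgroups of a Lie group, and the adjoint representation in matrix form.
-/

open Filter Topology Set Bundle Module NormedSpace
open scoped Manifold Matrix Matrix.Norms.Operator

noncomputable section

namespace Pool.Agent.P.MP_d483fb_an.Z.Br

section Inst

variable (E G : Type) [NormedAddCommGroup E] [NormedSpace ℝ E] [Group G] [TopologicalSpace G]
  [ChartedSpace E G] [LieGroup 𝓘(ℝ, E) (minSmoothness ℝ 3) G]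

include E

theorem lie_topGroup : IsTopologicalGroup G :=
  topologicalGroup_of_lieGroup 𝓘(ℝ, E) (minSmoothness ℝ 3)

theorem lie_t2 : T2Space G := by
  have := lie_topGroup E G
  have := ChartedSpace.t1Space E G
  infer_instance

omit [Group G] [LieGroup 𝓘(ℝ, E) (minSmoothness ℝ 3) G] in
theorem lie_locallyCompact [FiniteDimensional ℝ E] : LocallyCompactSpace G := by
  have := FiniteDimensional.proper_real E
  exact ChartedSpace.locallyCompactSpace E G

open scoped Pointwise in
theorem lie_secondCountable [FiniteDimensional ℝ E] [ConnectedSpace G] :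
    SecondCountableTopology G := by
  have := lie_topGroup E G
  have := lie_t2 E G
  have := FiniteDimensional.proper_real E
  have := lie_locallyCompact E G
  obtain ⟨K, hK, hK1⟩ := exists_compact_mem_nhds (1 : G)
  have hS : IsCompact (K ∪ K⁻¹) := hK.union hK.inv
  have hc : ∀ m : ℕ, IsCompact ((K ∪ K⁻¹) ^ m) := by
    intro m
    induction m with
    | zero => simp
    | succ m ih => rw [pow_succ]; exact ih.mul hS
  have htop : Subgroup.closure K = ⊤ := by
    have ho : IsOpen (Subgroup.closure K : Set G) :=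
      Subgroup.isOpen_of_mem_nhds _ (mem_of_superset hK1 Subgroup.subset_closure)
    have hcl := IsClopen.eq_univ ⟨Subgroup.isClosed_of_isOpen _ ho, ho⟩ ⟨1, one_mem _⟩
    exact Subgroup.coe_eq_univ.1 hcl
  have : SigmaCompactSpace G := by
    refine SigmaCompactSpace.of_countable (range fun m : ℕ => (K ∪ K⁻¹) ^ m) (countable_range _)
      (by rintro _ ⟨m, rfl⟩; exact hc m) ?_
    rw [sUnion_range, eq_univ_iff_forall]
    intro g
    have hg : g ∈ Subgroup.closure K := htop ▸ Subgroup.mem_top g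
    induction hg using Subgroup.closure_induction_left with
    | one => exact mem_iUnion.2 ⟨0, by simp⟩
    | mul_left x hx y _ ih =>
      obtain ⟨m, hm⟩ := mem_iUnion.1 ih
      exact mem_iUnion.2 ⟨m + 1, by rw [pow_succ']; exact mul_mem_mul (Or.inl hx) hm⟩
    | inv_mul_cancel x hx y _ ih =>
      obtain ⟨m, hm⟩ := mem_iUnion.1 ih
      exact mem_iUnion.2 ⟨m + 1, by
        rw [pow_succ']; exact mul_mem_mul (Or.inr (inv_mem_inv.2 hx)) hm⟩
  exact ChartedSpace.secondCountable_of_sigmaCompact E G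

end Inst

variable {E : Type} [NormedAddCommGroup E] [NormedSpace ℝ E]
  {G : Type} [Group G] [TopologicalSpace G] [ChartedSpace E G]

set_option backward.isDefEq.respectTransparency false in
theorem field_one (v : GroupLieAlgebra 𝓘(ℝ, E) G) : mulInvariantVectorField v (1 : G) = v := by
  have D : (fun x : G => (1 : G) * x) = id := by ext x; simp
  simp only [mulInvariantVectorField]
  rw [D, mfderiv_id]
  rfl


variable [LieGroup 𝓘(ℝ, E) (minSmoothness ℝ 3) G]

set_option backward.isDefEq.respectTransparency false in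
theorem field_mul (v : GroupLieAlgebra 𝓘(ℝ, E) G) (g h : G) :
    mfderiv 𝓘(ℝ, E) 𝓘(ℝ, E) (fun x => g * x) h (mulInvariantVectorField v h) =
      mulInvariantVectorField v (g * h) := by
  have D : (fun x => g * h * x) = (fun b => g * b) ∘ (fun x => h * x) := by
    ext x; simp only [Function.comp_apply, mul_assoc]
  have := mdf_comp (E := E) (f := fun b => g * b) (k := fun x => h * x) (x := 1) (md_left _ _)
    (md_left _ _)
  rw [← D] at this
  simp only [mul_one] at this
  exact (DFunLike.congr_fun this (toE E G v)).symm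

set_option backward.isDefEq.respectTransparency false in
theorem curve_translate (v : GroupLieAlgebra 𝓘(ℝ, E) G) (g : G) (γ : ℝ → G) (t : ℝ)
    (h : HasMFDerivAt 𝓘(ℝ, ℝ) 𝓘(ℝ, E) γ t
      ((1 : ℝ →L[ℝ] ℝ).smulRight (mulInvariantVectorField v (γ t)))) :
    HasMFDerivAt 𝓘(ℝ, ℝ) 𝓘(ℝ, E) (fun s => g * γ s) t
      ((1 : ℝ →L[ℝ] ℝ).smulRight (mulInvariantVectorField v (g * γ t))) := by
  have h2 := HasMFDerivAt.comp t (md_left g (γ t)).hasMFDerivAt h
  refine h2.congr_mfderiv ?_
  rw [ContinuousLinearMap.ext_iff]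
  intro a
  rw [ContinuousLinearMap.comp_apply, ContinuousLinearMap.smulRight_apply, map_smul, field_mul]
  rfl

theorem field_smooth (v : GroupLieAlgebra 𝓘(ℝ, E) G) :
    letI : IsManifold 𝓘(ℝ, E) 1 G := IsManifold.of_le one_le_three
    ContMDiff 𝓘(ℝ, E) 𝓘(ℝ, E).tangent 1
      (fun x : G => (⟨x, mulInvariantVectorField v x⟩ : TangentBundle 𝓘(ℝ, E) G)) :=
  (contMDiff_mulInvariantVectorField v).of_le (le_trans (by norm_num) le_minSmoothness)

theorem curve_unique {v : GroupLieAlgebra 𝓘(ℝ, E) G} {γ γ' : ℝ → G}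
    (h : IsMIntegralCurve γ (mulInvariantVectorField v))
    (h' : IsMIntegralCurve γ' (mulInvariantVectorField v)) (h0 : γ 0 = γ' 0) : γ = γ' := by
  have : IsManifold 𝓘(ℝ, E) 1 G := IsManifold.of_le one_le_three
  have := lie_t2 E G
  exact isMIntegralCurve_Ioo_eq_of_contMDiff_boundaryless (t₀ := 0) (field_smooth v) h h' h0

theorem exists_curve [CompleteSpace E] (v : GroupLieAlgebra 𝓘(ℝ, E) G) :
    ∃ φ : ℝ → G, φ 0 = 1 ∧ IsMIntegralCurve φ (mulInvariantVectorField v) := by
  have : IsManifold 𝓘(ℝ, E) 1 G := IsManifold.of_le one_le_three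
  have := lie_t2 E G
  have hv := field_smooth v
  obtain ⟨γ, hγ0, hγ⟩ := exists_isMIntegralCurveAt_of_contMDiffAt_boundaryless (0 : ℝ)
    (hv.contMDiffAt (x := 1))
  obtain ⟨ε, hε, hγε⟩ := isMIntegralCurveAt_iff'.1 hγ
  rw [Real.ball_eq_Ioo, zero_sub, zero_add] at hγε
  have hall : ∀ x : G, ∃ γ' : ℝ → G, γ' 0 = x ∧
      IsMIntegralCurveOn γ' (mulInvariantVectorField v) (Ioo (-ε) ε) := by
    intro x
    refine ⟨fun s => x * γ s, by simp [hγ0], fun t ht => ?_⟩
    exact (curve_translate v x γ t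
      ((hγε t ht).hasMFDerivAt (Ioo_mem_nhds ht.1 ht.2))).hasMFDerivWithinAt
  exact exists_isMIntegralCurve_of_isMIntegralCurveOn hv hε hall 1

section OneParam

variable [CompleteSpace E] (v : GroupLieAlgebra 𝓘(ℝ, E) G)

/-- The one parameter subgroup generated by `v`. -/
def ex : ℝ → G := (exists_curve v).choose

theorem ex_zero : ex v 0 = 1 := (exists_curve v).choose_spec.1

theorem ex_curve : IsMIntegralCurve (ex v) (mulInvariantVectorField v) :=
  (exists_curve v).choose_spec.2

theorem ex_cont : Continuous (ex v) := (ex_curve v).continuous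

theorem ex_add (s t : ℝ) : ex v (s + t) = ex v s * ex v t := by
  have h1 : IsMIntegralCurve (ex v ∘ (· + s)) (mulInvariantVectorField v) := (ex_curve v).comp_add s
  have h2 : IsMIntegralCurve (fun r => ex v s * ex v r) (mulInvariantVectorField v) := fun r =>
    curve_translate v _ _ r (ex_curve v r)
  have := congrFun (curve_unique h1 h2 (by simp [ex_zero])) t
  simpa [add_comm] using this

set_option backward.isDefEq.respectTransparency false in
theorem ex_deriv : HasDerivAt (ch E G ∘ ex v) (toE E G v) 0 := by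
  have : IsManifold 𝓘(ℝ, E) 1 G := IsManifold.of_le one_le_three
  have h := ((ex_curve v).isMIntegralCurveAt 0).eventually_hasDerivAt.self_of_nhds
  rw [tangentCoordChange_self (mem_extChartAt_source _), ex_zero, field_one] at h
  exact h

end OneParam

/-- A one parameter group of matrices is the exponential of its derivative. -/
theorem eq_exp_of_add {n : ℕ} {A : ℝ → Mat n} {Z : Mat n} (h0 : A 0 = 1)
    (hA : ∀ s t, A (s + t) = A s * A t) (hZ : HasDerivAt A Z 0) (t : ℝ) : A t = exp (t • Z) := by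
  have h1 : ∀ s, HasDerivAt A (A s * Z) s := by
    intro s
    have h2 : HasDerivAt (fun r => A (r - s)) Z s := by
      have h3 : HasDerivAt A Z (s - s) := by rwa [sub_self]
      exact h3.comp_sub_const s s
    have h4 := h2.const_mul (A s)
    refine h4.congr_of_eventuallyEq (Eventually.of_forall fun r => ?_)
    beta_reduce
    rw [← hA, add_sub_cancel]
  have h5 : ∀ s, HasDerivAt (fun r => A r * exp (r • (-Z))) 0 s := by
    intro s
    have h6 := (h1 s).mul (hasDerivAt_exp_smul_const' (𝕂 := ℝ) (-Z) s)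
    rw [neg_mul, mul_neg, mul_assoc, add_neg_cancel] at h6
    exact h6
  have h7 := is_const_of_deriv_eq_zero (fun s => (h5 s).differentiableAt) (fun s => (h5 s).deriv) t 0
  simp only [zero_smul, exp_zero, h0, mul_one] at h7
  rw [← mul_one (A t), ← exp_neg_mul_exp_smul Z t, ← mul_assoc, h7, one_mul]

variable [FiniteDimensional ℝ E] {n : ℕ}
  (b : Basis (Fin n) ℝ (GroupLieAlgebra 𝓘(ℝ, E) G))

/-- The matrix of an endomorphism of the model space. -/
def mat : (E →L[ℝ] E) ≃ₐ[ℝ] Mat n :=
  (Module.End.toContinuousLinearMap E).symm.trans (LinearMap.toMatrixAlgEquiv (b.map (toE E G)))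

set_option backward.isDefEq.respectTransparency false in
omit [LieGroup 𝓘(ℝ, E) (minSmoothness ℝ 3) G] in
theorem toE_toLin_mat (φ : E →L[ℝ] E) (X : GroupLieAlgebra 𝓘(ℝ, E) G) :
    toE E G (Matrix.toLin b b (mat b φ) X) = φ (toE E G X) := by
  have h : mat b φ = LinearMap.toMatrix b b
      ((toE E G).symm.toLinearMap ∘ₗ φ.toLinearMap ∘ₗ (toE E G).toLinearMap) := by
    ext i j
    simp [mat, LinearMap.toMatrixAlgEquiv_apply, LinearMap.toMatrix_apply]
    rfl
  rw [h, Matrix.toLin_toMatrix]
  rfl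

/-- The adjoint representation in matrix form. -/
def rho : G →* Mat n := (mat b : (E →L[ℝ] E) →* Mat n).comp (adj E G)

theorem rho_apply (g : G) : rho b g = mat b (adj E G g) := rfl

theorem rho_chart : ∀ᶠ g in 𝓝 (1 : G), rho b ((ch E G).symm (ch E G g)) = rho b g := by
  filter_upwards [extChartAt_source_mem_nhds (I := 𝓘(ℝ, E)) (1 : G)] with g hg
  rw [(ch E G).left_inv hg]

variable [CompleteSpace E]

theorem rho_deriv : ∃ D : E →L[ℝ] Mat n,
    HasStrictFDerivAt (fun x => rho b ((ch E G).symm x)) D (ch E G 1) ∧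
      ∀ v, D (toE E G v) = adM b v := by
  obtain ⟨D, hD, hD'⟩ := adj_deriv (E := E) (G := G)
  let T : (E →L[ℝ] E) →L[ℝ] Mat n := (mat b).toLinearMap.toContinuousLinearMap
  refine ⟨T.comp D, T.hasStrictFDerivAt.comp _ hD, fun v => mat_ext b fun w => ?_⟩
  refine (toE E G).injective ?_
  rw [toLin_adM, ← hD']
  exact toE_toLin_mat b _ w

theorem rho_cont : Continuous (rho b) := by
  have := lie_topGroup E G
  obtain ⟨D, hD, -⟩ := rho_deriv b
  refine continuous_of_continuousAt_one _ ?_
  exact (ContinuousAt.comp (f := ch E G) hD.continuousAt (continuousAt_extChartAt 1)).congr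
    (rho_chart b)

theorem rho_ex (v : GroupLieAlgebra 𝓘(ℝ, E) G) (t : ℝ) : rho b (ex v t) = exp (t • adM b v) := by
  obtain ⟨D, hD, hD'⟩ := rho_deriv b
  refine eq_exp_of_add (A := fun t => rho b (ex v t)) (by rw [ex_zero, map_one])
    (fun s t => by rw [ex_add, map_mul]) ?_ t
  have h1 := HasFDerivAt.comp_hasDerivAt_of_eq (0 : ℝ) hD.hasFDerivAt (ex_deriv v)
    (by rw [Function.comp_apply, ex_zero])
  rw [← hD']
  refine h1.congr_of_eventuallyEq ?_
  have h2 : Tendsto (ex v) (𝓝 0) (𝓝 1) := by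
    simpa only [ContinuousAt, ex_zero] using (ex_cont v).continuousAt (x := 0)
  exact (h2.eventually (rho_chart b)).mono fun t ht => ht.symm

theorem rho_mem_Aut (g : G) : rho b g ∈ Aut b := by
  have := lie_topGroup E G
  obtain ⟨D, hD, hD'⟩ := rho_deriv b
  refine (mem_Aut_iff b).2 ⟨(Group.isUnit g).map (rho b), fun X => ?_⟩
  have hc : g * 1 * g⁻¹ = 1 := by simp
  have h1 := fderiv_chart (f := fun h : G => g * h * g⁻¹) (md_conj (E := E) g 1)
    (by rw [hc]; exact mem_extChartAt_source _)
  rw [hc, mdc_one, one_mul, ← adj_apply] at h1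
  have h0 : HasFDerivAt (fun x => rho b ((ch E G).symm x)) D
      (ch E G (g * (ch E G).symm (ch E G 1) * g⁻¹)) := by
    rw [extChartAt_to_inv, hc]
    exact hD.hasFDerivAt
  have h2 := HasFDerivAt.comp (ch E G 1) h0 h1
  have h3 := (hD.hasFDerivAt.const_mul (rho b g)).mul_const' (rho b g⁻¹)
  have h4 : (fun x => rho b ((ch E G).symm x)) ∘
      (fun y => ch E G (g * (ch E G).symm y * g⁻¹)) =ᶠ[𝓝 (ch E G 1)]
      fun x => rho b g * rho b ((ch E G).symm x) * rho b g⁻¹ := by
    have h5 : Tendsto (fun y => g * (ch E G).symm y * g⁻¹) (𝓝 (ch E G 1)) (𝓝 1) := by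
      have h6 := ((continuousAt_extChartAt_symm (I := 𝓘(ℝ, E)) (1 : G)).const_mul g).mul_const g⁻¹
      simpa only [ContinuousAt, extChartAt_to_inv, hc] using h6
    filter_upwards [h5.eventually (rho_chart b)] with y hy
    rw [Function.comp_apply, hy, map_mul, map_mul]
  have h7 := DFunLike.congr_fun ((h2.congr_of_eventuallyEq h4.symm).unique h3) (toE E G X)
  have h8 : D (adj E G g (toE E G X)) = rho b g * D (toE E G X) * rho b g⁻¹ := h7
  rw [← toE_toLin_mat b, hD', hD', ← rho_apply] at h8
  rw [h8, mul_assoc, ← map_mul, inv_mul_cancel, map_one, mul_one]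

end Pool.Agent.P.MP_d483fb_an.Z.Br
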