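import Pool.Agent.P.MP_d483fb_an.Z.Br.CartanC
import Pool.Agent.P.MP_d483fb_an.Z.Br.Aut

/-!
Existence of Cartan involutions: a real Lie algebra with nondegenerate Killing form has a basis in
which the matrices of the adjoint representation are stable under transposition.
-/

set_option linter.unusedSectionVars false
set_option linter.unusedVariables false
set_option linter.deprecated false

open scoped Matrix
open Module

attribute [local instance 100] LieRing.ofAssociativeRing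

noncomputable section

namespace Pool.Agent.P.MP_d483fb_an.Z

variable {L : Type*} [LieRing L] [LieAlgebra ℝ L] {n : ℕ}

/-- Version relative to a family of elements that are diagonal in a given basis. -/
theorem exists_cartan_basis_of_diag [LieAlgebra.IsKilling ℝ L] (b₀ : Basis (Fin n) ℝ L)
    (𝒜 : Set L) (hd : ∀ X ∈ 𝒜, ∀ i, ∃ c : ℝ, ⁅X, b₀ i⁆ = c • b₀ i) :
    ∃ b : Basis (Fin n) ℝ L, (∀ X, ∃ Y, (adM b X)ᵀ = adM b Y) ∧ ∀ X ∈ 𝒜, (adM b X).IsSymm := by
  classical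
  have : FiniteDimensional ℝ L := b₀.finiteDimensional_of_finite
  let V := EuclideanSpace ℝ (Fin n)
  let e : OrthonormalBasis (Fin n) ℝ V := EuclideanSpace.basisFun (Fin n) ℝ
  let φ : L ≃ₗ[ℝ] V := b₀.equiv e.toBasis (Equiv.refl _)
  have hφ : ∀ i, φ (b₀ i) = e i := fun i => by simp [φ]
  let μ : Car.Bil V := LinearMap.toContinuousLinearMap
    ((LinearMap.toContinuousLinearMap (𝕜 := ℝ) (E := V) (F' := V)).toLinearMap ∘ₗ
      (φ.conj.toLinearMap ∘ₗ (LieAlgebra.ad ℝ L).toLinearMap ∘ₗ φ.symm.toLinearMap))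
  have hμ : ∀ x y, μ x y = φ ⁅φ.symm x, φ.symm y⁆ := fun x y => rfl
  have hL : Car.IsLie μ := by
    refine ⟨fun x y => ?_, fun x y z => ?_⟩
    · rw [hμ, hμ, ← map_neg, lie_skew]
    · simp only [hμ, LinearEquiv.symm_apply_apply]
      rw [← map_add, ← map_add, ← lie_skew _ (φ.symm z), ← lie_skew _ (φ.symm x),
        ← lie_skew ⁅φ.symm z, φ.symm x⁆ (φ.symm y), ← neg_add, ← neg_add,
        add_comm ⁅φ.symm z, _⁆, add_assoc, add_comm ⁅φ.symm z, _⁆, ← add_assoc, lie_jacobi,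
        neg_zero, map_zero]
  have hk : ∀ x y, Car.kil μ x y = killingForm ℝ L (φ.symm x) (φ.symm y) := fun x y => by
    rw [Car.kil_apply, Car.tr_apply, LieModule.traceForm_apply_apply,
      ← LinearMap.trace_conj' _ φ]
    congr 1
    refine LinearMap.ext fun z => ?_
    change μ x (μ y z) = φ ⁅φ.symm x, ⁅φ.symm y, φ.symm z⁆⁆
    rw [hμ, hμ, LinearEquiv.symm_apply_apply]
  have hl : ∀ x, (∀ y, Car.kil μ x y = 0) → x = 0 := fun x hx => by
    have h1 : φ.symm x ∈ LinearMap.ker (killingForm ℝ L) := by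
      rw [LinearMap.mem_ker]
      ext Y
      have := hx (φ Y)
      rwa [hk, LinearEquiv.symm_apply_apply] at this
    rw [LieAlgebra.IsKilling.ker_killingForm_eq_bot, Submodule.mem_bot] at h1
    simpa using h1
  have hn : (Car.kil μ).Nondegenerate :=
    ⟨hl, fun y hy => hl y fun x => by rw [Car.kil_symm]; exact hy x⟩
  obtain ⟨g, h, h1, h2, h3, h4, h5⟩ := Car.exists_min e hL hn ((fun X => μ (φ X)) '' 𝒜)
    (by rintro _ ⟨X, _, rfl⟩; exact hL.inf_ad _)
    (by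
      rintro _ ⟨X, hX, rfl⟩ i
      obtain ⟨c, hc⟩ := hd X hX i
      refine ⟨c, ?_⟩
      rw [hμ, ← hφ, LinearEquiv.symm_apply_apply, LinearEquiv.symm_apply_apply, hc, map_smul])
  have e1 : ∀ z, g (h z) = z := fun z => congrArg (fun T : V →L[ℝ] V => T z) h1
  have e2 : ∀ z, h (g z) = z := fun z => congrArg (fun T : V →L[ℝ] V => T z) h2
  let G : V ≃ₗ[ℝ] V := LinearEquiv.ofLinear (g : V →ₗ[ℝ] V) (h : V →ₗ[ℝ] V)
    (LinearMap.ext e1) (LinearMap.ext e2)
  let ψ : L ≃ₗ[ℝ] V := φ.trans G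
  have hM : ∀ X, adM (e.toBasis.map ψ.symm) X = LinearMap.toMatrix e.toBasis e.toBasis
      (Car.act g h μ (ψ X) : V →ₗ[ℝ] V) := fun X => by
    ext i j
    rw [adM_apply, LinearMap.toMatrix_apply, LinearMap.toMatrix_apply, Basis.map_repr,
      LinearEquiv.trans_apply, LinearEquiv.symm_symm, Basis.map_apply]
    congr 2
    change g (φ ⁅X, φ.symm (h (e j))⁆) = g (μ (h (g (φ X))) (h (e j)))
    rw [hμ, e2, LinearEquiv.symm_apply_apply]
  have hT : ∀ T : V →L[ℝ] V, (LinearMap.toMatrix e.toBasis e.toBasis (T : V →ₗ[ℝ] V))ᵀ =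
      LinearMap.toMatrix e.toBasis e.toBasis
        ((ContinuousLinearMap.adjoint T : V →L[ℝ] V) : V →ₗ[ℝ] V) := fun T => by
    ext i j
    simp only [Matrix.transpose_apply, LinearMap.toMatrix_apply, OrthonormalBasis.coe_toBasis,
      OrthonormalBasis.coe_toBasis_repr_apply, OrthonormalBasis.repr_apply_apply,
      ContinuousLinearMap.coe_coe, ContinuousLinearMap.adjoint_inner_right]
    exact real_inner_comm _ _
  refine ⟨e.toBasis.map ψ.symm, fun X => ?_, fun X hX => ?_⟩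
  · obtain ⟨y, hy⟩ := h5 (ψ X)
    refine ⟨ψ.symm y, ?_⟩
    rw [hM, hM, hT, hy, LinearEquiv.apply_symm_apply]
  · have h6 : Car.act g h μ (ψ X) = μ (φ X) := by
      ext1 z
      change g (μ (h (g (φ X))) (h z)) = _
      have := congrArg (fun T : V →L[ℝ] V => T (h z)) (h3 _ ⟨X, hX, rfl⟩)
      simp only [ContinuousLinearMap.mul_apply, e1] at this
      rw [e2, ← this]
    rw [Matrix.IsSymm, hM, hT, h6, h4 _ ⟨X, hX, rfl⟩]

/-- A basis in which `ad L` is stable under transposition. -/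
theorem exists_cartan_basis [LieAlgebra.IsKilling ℝ L] [FiniteDimensional ℝ L]
    (hn : finrank ℝ L = n) : ∃ b : Basis (Fin n) ℝ L, ∀ X, ∃ Y, (adM b X)ᵀ = adM b Y :=
  let ⟨b, hb, _⟩ := exists_cartan_basis_of_diag (Module.finBasisOfFinrankEq ℝ L hn) ∅
    (fun X hX => hX.elim)
  ⟨b, hb⟩

/-- A commuting family of elements with diagonalisable adjoint action is diagonal in a basis. -/
theorem exists_basis_diag [FiniteDimensional ℝ L] (hn : finrank ℝ L = n) (𝒜 : Set L)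
    (hc : ∀ X ∈ 𝒜, ∀ Y ∈ 𝒜, ⁅X, Y⁆ = 0)
    (hd : ∀ X ∈ 𝒜, ⨆ c : ℝ, (LieAlgebra.ad ℝ L X).eigenspace c = ⊤) :
    ∃ b : Basis (Fin n) ℝ L, ∀ X ∈ 𝒜, ∀ i, ∃ c : ℝ, ⁅X, b i⁆ = c • b i := by
  classical
  let T : 𝒜 → End ℝ L := fun X => LieAlgebra.ad ℝ L X
  have hT : Pairwise (Function.onFun Commute T) := fun X Y _ => by
    change T X * T Y = T Y * T X
    rw [← sub_eq_zero]
    have := (LieAlgebra.ad ℝ L).map_lie (X : L) (Y : L)
    rw [hc _ X.2 _ Y.2, map_zero] at this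
    exact this.symm
  have h1 := Module.End.iSup_iInf_maxGenEigenspace_eq_top_of_iSup_maxGenEigenspace_eq_top_of_commute
    T hT fun X => by
      rw [eq_top_iff, ← hd X X.2]
      exact iSup_mono fun c => ((T X).genEigenspace c).monotone le_top
  have h2 : ∀ (X : 𝒜) (c : ℝ), (T X).maxGenEigenspace c = (T X).eigenspace c := fun X c =>
    (congrFun (((T X).independent_maxGenEigenspace.le_iff_eq_of_iSup_eq_top (hd X X.2)).1
      fun c => ((T X).genEigenspace c).monotone le_top) c).symm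
  simp only [h2] at h1
  let s : Set L := ⋃ χ : 𝒜 → ℝ, ((⨅ X, (T X).eigenspace (χ X) : Submodule ℝ L) : Set L)
  have hs : ⊤ ≤ Submodule.span ℝ s := by
    rw [← h1]
    exact iSup_le fun χ x hx => Submodule.subset_span (Set.mem_iUnion.2 ⟨χ, hx⟩)
  let b := Basis.ofSpan hs
  have hb : ∀ i, b i ∈ s := fun i => Basis.ofSpan_subset hs ⟨i, rfl⟩
  have := FiniteDimensional.fintypeBasisIndex b
  let σ := Fintype.equivFinOfCardEq ((Module.finrank_eq_card_basis b).symm.trans hn)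
  refine ⟨b.reindex σ, fun X hX i => ?_⟩
  obtain ⟨χ, hχ⟩ := Set.mem_iUnion.1 (hb (σ.symm i))
  refine ⟨χ ⟨X, hX⟩, ?_⟩
  rw [Basis.reindex_apply]
  exact Module.End.mem_eigenspace_iff.1 ((Submodule.mem_iInf _).1 hχ ⟨X, hX⟩)

/-- A basis in which `ad L` is stable under transposition and a given commuting family of
elements with diagonalisable adjoint action acts by symmetric matrices. -/
theorem exists_cartan_basis_symm [LieAlgebra.IsKilling ℝ L] [FiniteDimensional ℝ L]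
    (hn : finrank ℝ L = n) (𝒜 : Set L) (hc : ∀ X ∈ 𝒜, ∀ Y ∈ 𝒜, ⁅X, Y⁆ = 0)
    (hd : ∀ X ∈ 𝒜, ⨆ c : ℝ, (LieAlgebra.ad ℝ L X).eigenspace c = ⊤) :
    ∃ b : Basis (Fin n) ℝ L, (∀ X, ∃ Y, (adM b X)ᵀ = adM b Y) ∧ ∀ X ∈ 𝒜, (adM b X).IsSymm :=
  let ⟨b₀, hb₀⟩ := exists_basis_diag hn 𝒜 hc hd
  exists_cartan_basis_of_diag b₀ 𝒜 hb₀

/-- The Cartan involution attached to such a basis. -/
theorem exists_theta [LieAlgebra.IsKilling ℝ L] (b : Basis (Fin n) ℝ L)
    (hb : ∀ X, ∃ Y, (adM b X)ᵀ = adM b Y) :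
    ∃ θ : L ≃ₗ⁅ℝ⁆ L, (∀ X, adM b (θ X) = -(adM b X)ᵀ) ∧ (∀ X, θ (θ X) = X) ∧
      ∀ X, X ≠ 0 → killingForm ℝ L X (θ X) < 0 := by
  choose f hf using hb
  have inj := adM_injective b
  have hθ : ∀ X, adM b (-f X) = -(adM b X)ᵀ := fun X => by rw [map_neg, hf]
  let θ₀ : L →ₗ⁅ℝ⁆ L :=
    { toFun := fun X => -f X
      map_add' := fun X Y => inj (by
        rw [map_add, hθ, hθ, hθ, map_add, Matrix.transpose_add, neg_add])
      map_smul' := fun c X => inj (by
        rw [map_smul, hθ, hθ, map_smul, Matrix.transpose_smul, RingHom.id_apply, smul_neg])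
      map_lie' := fun {X Y} => inj (by
        rw [adM_lie, hθ, hθ, hθ, adM_lie, Matrix.transpose_sub, Matrix.transpose_mul,
          Matrix.transpose_mul, neg_mul_neg, neg_mul_neg, neg_sub]) }
  have hθ₀ : ∀ X, adM b (θ₀ X) = -(adM b X)ᵀ := hθ
  have hi : ∀ X, θ₀ (θ₀ X) = X := fun X => inj (by
    rw [hθ₀, hθ₀, Matrix.transpose_neg, Matrix.transpose_transpose, neg_neg])
  refine ⟨LieEquiv.ofBijective θ₀ (Function.Involutive.bijective hi), hθ₀, hi, fun X hX => ?_⟩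
  change killingForm ℝ L X (θ₀ X) < 0
  rw [killingForm_eq_trace b, hθ₀, mul_neg, Matrix.trace_neg, neg_lt_zero]
  have h1 : 0 ≤ (adM b X * (adM b X)ᵀ).trace := by
    simpa using (Matrix.posSemidef_self_mul_conjTranspose (adM b X)).trace_nonneg
  refine lt_of_le_of_ne h1 fun h => hX (inj ?_)
  rw [map_zero, ← Matrix.trace_mul_conjTranspose_self_eq_zero_iff]
  simpa using h.symm

end Pool.Agent.P.MP_d483fb_an.Z
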