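import Pool.Agent.P.MP_d483fb_an.Z.Br.Aut

/-!
A continuous homomorphism with discrete kernel onto an open group of automorphisms is a covering
map onto a closed set of matrices; one parameter groups in the image of a closed subgroup.
-/

open scoped Matrix Matrix.Norms.Operator Topology
open NormedSpace Set Module Filter

noncomputable section

namespace Pool.Agent.P.MP_d483fb_an.Z

variable {G : Type} [Group G] [TopologicalSpace G] [IsTopologicalGroup G]
  {L : Type*} [LieRing L] [LieAlgebra ℝ L] {n : ℕ}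

theorem exists_inv_mem_Aut (b : Basis (Fin n) ℝ L) {A : Mat n} (hA : A ∈ Aut b) :
    ∃ B ∈ Aut b, B * A = 1 := by
  obtain ⟨φ, rfl⟩ := hA
  refine ⟨_, ⟨φ.symm, rfl⟩, ?_⟩
  rw [← LinearMap.toMatrix_comp b b b, ← LinearMap.toMatrix_id b]
  congr 1
  ext x
  exact φ.symm_apply_apply x

omit [TopologicalSpace G] [IsTopologicalGroup G] in
theorem isClosed_range_of_Aut [LieAlgebra.IsKilling ℝ L] (b : Basis (Fin n) ℝ L)
    (ρ : G →* Mat n) (hA : range ρ ⊆ Aut b) (hexp : ∀ X, exp (adM b X) ∈ range ρ) :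
    IsClosed (range ρ) := by
  refine isClosed_of_closure_subset fun A hcl => ?_
  have hAA : A ∈ Aut b := (isClosed_Aut b).closure_subset (closure_mono hA hcl)
  obtain ⟨B, hB, hBA⟩ := exists_inv_mem_Aut b hAA
  have h1 : range ρ ∈ 𝓝[Aut b] (1 : Mat n) := by
    refine mem_of_superset (nhdsWithin_Aut_le b (image_mem_map self_mem_nhdsWithin)) ?_
    rintro _ ⟨_, ⟨X, rfl⟩, rfl⟩
    exact hexp X
  have h2 : Tendsto (fun C => B * C) (𝓝[range ρ] A) (𝓝[Aut b] 1) := by
    refine tendsto_nhdsWithin_iff.2 ⟨?_, ?_⟩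
    · rw [← hBA]
      exact ((continuous_const.mul continuous_id).tendsto A).mono_left nhdsWithin_le_nhds
    · filter_upwards [self_mem_nhdsWithin] with C hC
      exact mul_mem_Aut b hB (hA hC)
  have : (𝓝[range ρ] A).NeBot := mem_closure_iff_nhdsWithin_neBot.1 hcl
  obtain ⟨C, ⟨g, hg⟩, g', rfl⟩ := ((h2.eventually h1).and self_mem_nhdsWithin).exists
  refine ⟨g' * g⁻¹, ?_⟩
  have h3 : B * ρ (g' * g⁻¹) = 1 := by
    rw [map_mul, ← mul_assoc, ← hg, ← map_mul, mul_inv_cancel, map_one]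
  rw [← one_mul (ρ (g' * g⁻¹)), ← mul_eq_one_comm.1 hBA, mul_assoc, h3, mul_one]

theorem discreteTopology_ker (ρ : G →* Mat n) (hd : ∀ᶠ x in 𝓝 (1 : G), ρ x = 1 → x = 1) :
    DiscreteTopology ρ.ker := by
  refine discreteTopology_of_isOpen_singleton_one (isOpen_iff_mem_nhds.2 ?_)
  rintro _ rfl
  have h : Tendsto (Subtype.val : ρ.ker → G) (𝓝 1) (𝓝 1) := continuous_subtype_val.tendsto 1
  filter_upwards [h.eventually hd] with x hx
  exact Subtype.ext (hx x.2)

theorem isCoveringMap_of_isClosed [SigmaCompactSpace G] (ρ : G →* Mat n) (hρ : Continuous ρ)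
    (hc : IsClosed (range ρ)) (hd : ∀ᶠ x in 𝓝 (1 : G), ρ x = 1 → x = 1) :
    IsCoveringMap (rangeFactorization ρ) := by
  let _ : MulAction G (range ρ) :=
    { smul := fun g x => ⟨ρ g * x.1, by
        obtain ⟨g', hg'⟩ := x.2
        exact ⟨g * g', by rw [map_mul, hg']⟩⟩
      one_smul := fun x => Subtype.ext (by
        change ρ 1 * x.1 = x.1
        rw [map_one, one_mul])
      mul_smul := fun g h x => Subtype.ext (by
        change ρ (g * h) * x.1 = ρ g * (ρ h * x.1)
        rw [map_mul, mul_assoc]) }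
  have : ContinuousSMul G (range ρ) :=
    ⟨((hρ.comp continuous_fst).mul (continuous_subtype_val.comp continuous_snd)).subtype_mk _⟩
  have : MulAction.IsPretransitive G (range ρ) := ⟨by
    rintro ⟨_, g, rfl⟩ ⟨_, g', rfl⟩
    refine ⟨g' * g⁻¹, Subtype.ext ?_⟩
    change ρ (g' * g⁻¹) * ρ g = ρ g'
    rw [← map_mul, inv_mul_cancel_right]⟩
  have : LocallyCompactSpace (Mat n) := inferInstanceAs (LocallyCompactSpace (Fin n → Fin n → ℝ))
  have : LocallyCompactSpace (range ρ) := hc.locallyCompactSpace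
  have h1 := isOpenMap_smul_of_sigmaCompact (G := G) (⟨1, 1, map_one ρ⟩ : range ρ)
  have h2 : (fun g : G => g • (⟨1, 1, map_one ρ⟩ : range ρ)) = rangeFactorization ρ := by
    funext g
    exact Subtype.ext (mul_one (ρ g))
  rw [h2] at h1
  have h3 := h1.isQuotientMap hρ.rangeFactorization rangeFactorization_surjective
  have h4 := discreteTopology_ker ρ hd
  refine (h3.isQuotientCoveringMap_of_subgroup ρ.ker ⟨h4⟩ fun {x y} => ?_).isCoveringMap
  rw [Subtype.ext_iff, MonoidHom.mem_ker]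
  change ρ x = ρ y ↔ _
  refine ⟨fun h => by rw [map_mul, ← h, ← map_mul, mul_inv_cancel, map_one], fun h => ?_⟩
  rw [← one_mul (ρ x), ← h, ← map_mul, inv_mul_cancel_right]

theorem mem_of_mem_image [SecondCountableTopology G] (ρ : G →* Mat n)
    (hd : ∀ᶠ x in 𝓝 (1 : G), ρ x = 1 → x = 1) (H : Subgroup G) (hH : IsClosed (H : Set G))
    (γ : ℝ → G) (hγ : Continuous γ) (hadd : ∀ s t, γ (s + t) = γ s * γ t)
    (h : ∀ t, ρ (γ t) ∈ ρ '' H) (t : ℝ) : γ t ∈ H := by
  have := discreteTopology_ker ρ hd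
  have : Countable ρ.ker := TopologicalSpace.separableSpace_iff_countable.1 inferInstance
  have h0 : γ 0 = 1 := by
    have h1 := hadd 0 0
    rw [add_zero] at h1
    exact mul_eq_left.1 h1.symm
  let S : AddSubgroup ℝ :=
    { carrier := {t | γ t ∈ H}
      zero_mem' := by
        change γ 0 ∈ H
        rw [h0]
        exact H.one_mem
      add_mem' := fun {s t} hs ht => by
        change γ (s + t) ∈ H
        rw [hadd]
        exact H.mul_mem hs ht
      neg_mem' := fun {s} hs => by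
        change γ (-s) ∈ H
        have h1 : γ (-s) = (γ s)⁻¹ := by
          rw [eq_inv_iff_mul_eq_one, ← hadd, neg_add_cancel, h0]
        rw [h1]
        exact H.inv_mem hs }
  obtain ⟨z, s, hs⟩ := nonempty_interior_of_iUnion_of_closed
    (f := fun z : ρ.ker => {t | z.1 * γ t ∈ H})
    (fun z => hH.preimage (continuous_const.mul hγ)) (by
      rw [eq_univ_iff_forall]
      intro t
      obtain ⟨x, hx, hxt⟩ := h t
      refine mem_iUnion.2 ⟨⟨x * (γ t)⁻¹, ?_⟩, ?_⟩
      · rw [MonoidHom.mem_ker, map_mul, hxt, ← map_mul, mul_inv_cancel, map_one]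
      · change x * (γ t)⁻¹ * γ t ∈ H
        rwa [inv_mul_cancel_right])
  have h2 : (S : Set ℝ) ∈ 𝓝 (0 : ℝ) := by
    have h3 : Tendsto (fun u => s + u) (𝓝 0) (𝓝 s) := by
      simpa using (continuous_const.add continuous_id).tendsto (0 : ℝ) (f := fun u => s + u)
    filter_upwards [h3 (mem_interior_iff_mem_nhds.1 hs)] with u hu
    have h4 : z.1 * γ s ∈ H := interior_subset (s := {t | z.1 * γ t ∈ H}) hs
    have h5 : z.1 * γ (s + u) ∈ H := hu
    rw [hadd, ← mul_assoc] at h5
    exact (H.mul_mem_cancel_left h4).1 h5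
  have ho : IsOpen (S : Set ℝ) := AddSubgroup.isOpen_of_mem_nhds _ h2
  have hc : IsClopen (S : Set ℝ) := ⟨AddSubgroup.isClosed_of_isOpen _ ho, ho⟩
  have h6 : t ∈ (S : Set ℝ) := by
    rw [hc.eq_univ ⟨0, S.zero_mem⟩]
    exact mem_univ t
  exact h6

end Pool.Agent.P.MP_d483fb_an.Z
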