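import Pool.Agent.P.MP_d483fb_an.Z.Br.Build
import Pool.Agent.P.MP_d483fb_an.Z.Br.Top
import Pool.Agent.P.MP_d483fb_an.Z.Br.Cartan

/-!
A connected semisimple Lie group of higher rank carries the structure `HigherRank`, given its
adjoint representation.
-/

open scoped Matrix Matrix.Norms.Operator Manifold ContDiff Topology
open NormedSpace Set Module Filter

noncomputable section

namespace Pool.Agent.P.MP_d483fb_an.Z

variable (E : Type) [NormedAddCommGroup E] [NormedSpace ℝ E] [FiniteDimensional ℝ E]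
  [CompleteSpace E] (G : Type) [Group G] [TopologicalSpace G] [ChartedSpace E G]
  [LieGroup 𝓘(ℝ, E) (minSmoothness ℝ 3) G]

omit [FiniteDimensional ℝ E] [CompleteSpace E] in
include E in
theorem lie_isTopologicalGroup : IsTopologicalGroup G :=
  topologicalGroup_of_lieGroup 𝓘(ℝ, E) (minSmoothness ℝ 3)

omit [Group G] [LieGroup 𝓘(ℝ, E) (minSmoothness ℝ 3) G] [CompleteSpace E] in
include E in
theorem lie_locallyCompactSpace : LocallyCompactSpace G :=
  have := FiniteDimensional.proper_real E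
  ChartedSpace.locallyCompactSpace E G

omit [CompleteSpace E] in
include E in
theorem lie_secondCountable [ConnectedSpace G] : SecondCountableTopology G :=
  have := FiniteDimensional.proper_real E
  have := lie_isTopologicalGroup E G
  have := lie_locallyCompactSpace E G
  have := sigmaCompact_of_connected G
  ChartedSpace.secondCountable_of_sigmaCompact E G

omit [LieGroup 𝓘(ℝ, E) (minSmoothness ℝ 3) G] [CompleteSpace E] in
theorem lie_finite : Module.Finite ℝ (GroupLieAlgebra 𝓘(ℝ, E) G) :=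
  inferInstanceAs (Module.Finite ℝ E)

/-- The adjoint representation in a basis, with the one parameter subgroups. -/
structure AdRep {n : ℕ} (b : Basis (Fin n) ℝ (GroupLieAlgebra 𝓘(ℝ, E) G)) where
  ρ : G →* Mat n
  cont : Continuous ρ
  aut : range ρ ⊆ Aut b
  curve : ∀ X : GroupLieAlgebra 𝓘(ℝ, E) G,
    ∃ γ : ℝ → G, γ 0 = 1 ∧ IsMIntegralCurve γ (mulInvariantVectorField X)
  add : ∀ (X : GroupLieAlgebra 𝓘(ℝ, E) G) (γ : ℝ → G), γ 0 = 1 →
    IsMIntegralCurve γ (mulInvariantVectorField X) → ∀ s t, γ (s + t) = γ s * γ t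
  eq_exp : ∀ (X : GroupLieAlgebra 𝓘(ℝ, E) G) (γ : ℝ → G), γ 0 = 1 →
    IsMIntegralCurve γ (mulInvariantVectorField X) → ∀ t, ρ (γ t) = exp (t • adM b X)
  disc : ∀ᶠ x in 𝓝 (1 : G), ρ x = 1 → x = 1

theorem exists_higherRank_of_adRep [T2Space G] [ConnectedSpace G]
    (hs : LieAlgebra.IsSemisimple ℝ (GroupLieAlgebra 𝓘(ℝ, E) G))
    (hr : ∀ I : LieIdeal ℝ (GroupLieAlgebra 𝓘(ℝ, E) G), IsAtom I → 2 ≤ realRank I)
    (hA : ∀ b : Basis (Fin (finrank ℝ E)) ℝ (GroupLieAlgebra 𝓘(ℝ, E) G),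
      Nonempty (AdRep E G b)) :
    ∃ D : HigherRank G (finrank ℝ E), ∀ m : ℕ, ((m : ℕ∞) < vNum E G → D.ltV m) ∧
      ((m : ℕ∞) < dNum (GroupLieAlgebra 𝓘(ℝ, E) G) → D.ltD m) := by
  have := lie_isTopologicalGroup E G
  have := lie_locallyCompactSpace E G
  have := lie_secondCountable E G
  have := lie_finite E G
  have : LieAlgebra.IsKilling ℝ (GroupLieAlgebra 𝓘(ℝ, E) G) := inferInstance
  obtain ⟨b, hb⟩ := exists_cartan_basis (L := GroupLieAlgebra 𝓘(ℝ, E) G)
    (n := finrank ℝ E) rfl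
  obtain ⟨A⟩ := hA b
  have hexp : ∀ X, exp (adM b X) ∈ range A.ρ := by
    intro X
    obtain ⟨γ, h0, hγ⟩ := A.curve X
    exact ⟨γ 1, by rw [A.eq_exp X γ h0 hγ, one_smul]⟩
  have hc := isClosed_range_of_Aut b A.ρ A.aut hexp
  obtain ⟨D, hD, hdim, hd⟩ := exists_higherRank_of b hr hb A.ρ hc
    (isCoveringMap_of_isClosed A.ρ A.cont hc A.disc) A.aut hexp
  refine ⟨D, fun m => ⟨fun hm H hH hne => ?_, hd m⟩⟩
  have h1 : lieSet (A.ρ '' H) = adM b '' {X | ∃ γ : ℝ → G, γ 0 = 1 ∧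
      IsMIntegralCurve γ (mulInvariantVectorField X) ∧ ∀ t, γ t ∈ H} := by
    ext Z
    constructor
    · intro hZ
      have h2 : Z ∈ lieSet (range A.ρ) := fun t => image_subset_range _ _ (hZ t)
      rw [lieSet_eq_range b A.aut hexp] at h2
      obtain ⟨X, rfl⟩ := h2
      obtain ⟨γ, h0, hγ⟩ := A.curve X
      refine ⟨X, ⟨γ, h0, hγ, mem_of_mem_image A.ρ A.disc H hH γ hγ.continuous
        (A.add X γ h0 hγ) fun t => ?_⟩, rfl⟩
      rw [A.eq_exp X γ h0 hγ]
      exact hZ t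
    · rintro ⟨X, ⟨γ, h0, hγ, hγH⟩, rfl⟩ t
      exact ⟨γ t, hγH t, A.eq_exp X γ h0 hγ t⟩
  have h3 : D.dim H = dimSub E H := by
    rw [HigherRank.dim, hD]
    exact finrank_lieAlg b h1
  have h4 : vNum E G ≤ ((finrank ℝ E - dimSub E H : ℕ) : ℕ∞) :=
    iInf_le_of_le H (iInf_le_of_le hH (iInf_le_of_le hne le_rfl))
  rw [hdim, h3]
  exact ENat.natCast_lt_natCast.1 (hm.trans_le h4)

end Pool.Agent.P.MP_d483fb_an.Z
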