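import Pool.Agent.P.MP_d483fb_an.Z.Br.Ad2
import Pool.Agent.P.MP_d483fb_an.Z.Br.Asm

/-!
The adjoint representation of a Lie group with nondegenerate Killing form is locally injective;
the structure `HigherRank` of a connected semisimple Lie group of higher rank.
-/

open Filter Topology Set Module NormedSpace
open scoped Manifold Matrix Matrix.Norms.Operator

attribute [local instance 100] LieRing.ofAssociativeRing

noncomputable section

namespace Pool.Agent.P.MP_d483fb_an.Z.Br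

theorem exists_log (n : ℕ) : ∃ lg : Mat n → Mat n,
    HasStrictFDerivAt lg (ContinuousLinearMap.id ℝ (Mat n)) 1 ∧ ∀ᶠ Z in 𝓝 0, lg (exp Z) = Z := by
  have h : HasStrictFDerivAt (exp : Mat n → Mat n)
      (ContinuousLinearEquiv.refl ℝ (Mat n) : Mat n →L[ℝ] Mat n) 0 :=
    hasStrictFDerivAt_exp_zero (𝕂 := ℝ) (𝔸 := Mat n)
  refine ⟨h.localInverse _ _ _, ?_, h.eventually_left_inverse⟩
  have h1 := h.to_localInverse
  rwa [exp_zero] at h1

variable {E : Type} [NormedAddCommGroup E] [NormedSpace ℝ E] [FiniteDimensional ℝ E]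
  [CompleteSpace E] {G : Type} [Group G] [TopologicalSpace G] [ChartedSpace E G]
  [LieGroup 𝓘(ℝ, E) (minSmoothness ℝ 3) G] {n : ℕ}
  (b : Basis (Fin n) ℝ (GroupLieAlgebra 𝓘(ℝ, E) G))

theorem rho_tendsto : Tendsto (rho b) (𝓝 1) (𝓝[Aut b] 1) :=
  tendsto_nhdsWithin_iff.2 ⟨by simpa using (rho_cont b).tendsto 1,
    Eventually.of_forall (rho_mem_Aut b)⟩

theorem exp_adM_mem_range (X : GroupLieAlgebra 𝓘(ℝ, E) G) : exp (adM b X) ∈ range (rho b) :=
  ⟨ex X 1, by rw [rho_ex, one_smul]⟩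

variable [LieAlgebra.IsKilling ℝ (GroupLieAlgebra 𝓘(ℝ, E) G)]

theorem rho_local : (∀ᶠ g in 𝓝 (1 : G), rho b g = 1 → g = 1) ∧
    (∀ᶠ g in 𝓝 (1 : G), ∃ X, rho b g = exp (adM b X)) ∧ 𝓝[Aut b] 1 ≤ map (rho b) (𝓝 1) := by
  obtain ⟨D, hD, hD'⟩ := rho_deriv b
  obtain ⟨lg, hlg, hlg'⟩ := exists_log n
  have hinj : LinearMap.ker D.toLinearMap = ⊥ := by
    rw [LinearMap.ker_eq_bot]
    intro x y hxy
    obtain ⟨x, rfl⟩ := (toE E G).surjective x
    obtain ⟨y, rfl⟩ := (toE E G).surjective y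
    have h : D (toE E G x) = D (toE E G y) := hxy
    rw [hD', hD'] at h
    rw [adM_injective b h]
  obtain ⟨Λ₀, hΛ₀⟩ := LinearMap.exists_leftInverse_of_injective _ hinj
  let Λ : Mat n →L[ℝ] E := Λ₀.toContinuousLinearMap
  have hΛ : ∀ x, Λ (D x) = x := fun x => DFunLike.congr_fun hΛ₀ x
  have hlg1 : lg 1 = 0 := by simpa using hlg'.self_of_nhds
  have he : rho b ((ch E G).symm (ch E G 1)) = 1 := by rw [extChartAt_to_inv, map_one]
  have hF : HasStrictFDerivAt (fun x => Λ (lg (rho b ((ch E G).symm x))))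
      (ContinuousLinearEquiv.refl ℝ E : E →L[ℝ] E) (ch E G 1) := by
    have h1 : HasStrictFDerivAt lg (ContinuousLinearMap.id ℝ (Mat n))
      (rho b ((ch E G).symm (ch E G 1))) := by rwa [he]
    have h2 := Λ.hasStrictFDerivAt.comp (ch E G 1) (h1.comp (ch E G 1) hD)
    exact h2.congr_fderiv (ContinuousLinearMap.ext hΛ)
  have hch : Tendsto (ch E G) (𝓝 1) (𝓝 (ch E G 1)) := continuousAt_extChartAt 1
  have hW : ∀ᶠ g in 𝓝 (1 : G), exp (D (Λ (lg (rho b g)))) = rho b g := by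
    refine ((rho_tendsto b).mono_right (nhdsWithin_Aut_le b)).eventually
      (p := fun A => exp (D (Λ (lg A))) = A) ?_
    rw [eventually_map]
    filter_upwards [nhdsWithin_le_nhds hlg', self_mem_nhdsWithin] with Z hZ hZ'
    obtain ⟨X, rfl⟩ := hZ'
    rw [hZ, ← hD', hΛ]
  refine ⟨?_, ?_, ?_⟩
  · filter_upwards [hch.eventually hF.eventually_left_inverse, rho_chart b,
      extChartAt_source_mem_nhds (I := 𝓘(ℝ, E)) (1 : G)] with g h1 h2 h3 h4
    have h5 := hF.eventually_left_inverse.self_of_nhds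
    rw [he] at h5
    rw [h2, h4, h5] at h1
    exact (ch E G).injOn h3 (mem_extChartAt_source _) h1.symm
  · filter_upwards [hW] with g hg
    exact ⟨(toE E G).symm (Λ (lg (rho b g))), by rw [← hD', LinearEquiv.apply_symm_apply, hg]⟩
  · have h1 : map (fun g => Λ (lg (rho b g))) (𝓝 (1 : G)) = 𝓝 0 := by
      have h2 := hF.map_nhds_eq_of_equiv
      rw [he, hlg1, map_zero, ← map_extChartAt_nhds_of_boundaryless, map_map] at h2
      rw [← h2]
      refine map_congr ((rho_chart b).mono fun g hg => ?_)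
      exact congrArg (fun A => Λ (lg A)) hg.symm
    have h3 : 𝓝[range (adM b)] (0 : Mat n) ≤ map D (𝓝 0) := by
      intro U hU
      have h4 : Tendsto Λ (𝓝 0) (𝓝 0) := by simpa using Λ.continuous.tendsto 0
      filter_upwards [nhdsWithin_le_nhds (h4 hU), self_mem_nhdsWithin] with Z hZ hZ'
      obtain ⟨X, rfl⟩ := hZ'
      rw [← hD'] at hZ ⊢
      simpa only [mem_preimage, hΛ] using hZ
    refine (nhdsWithin_Aut_le b).trans ((map_mono h3).trans (le_of_eq ?_))
    rw [← h1, map_map, map_map]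
    exact map_congr hW

theorem map_rho_nhds : map (rho b) (𝓝 1) = 𝓝[Aut b] 1 :=
  le_antisymm (rho_tendsto b) (rho_local b).2.2

end Pool.Agent.P.MP_d483fb_an.Z.Br

namespace Pool.Agent.P.MP_d483fb_an.Z

variable (E : Type) [NormedAddCommGroup E] [NormedSpace ℝ E] [FiniteDimensional ℝ E]
  [CompleteSpace E] (G : Type) [Group G] [TopologicalSpace G] [ChartedSpace E G]
  [LieGroup 𝓘(ℝ, E) (minSmoothness ℝ 3) G]

/-- The adjoint representation exists. -/
theorem exists_adRep [LieAlgebra.IsKilling ℝ (GroupLieAlgebra 𝓘(ℝ, E) G)]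
    {n : ℕ} (b : Basis (Fin n) ℝ (GroupLieAlgebra 𝓘(ℝ, E) G)) : Nonempty (AdRep E G b) := by
  have h : ∀ (X : GroupLieAlgebra 𝓘(ℝ, E) G) (γ : ℝ → G), γ 0 = 1 →
      IsMIntegralCurve γ (mulInvariantVectorField X) → γ = Br.ex X := fun X γ h0 hγ =>
    Br.curve_unique hγ (Br.ex_curve X) (by rw [h0, Br.ex_zero])
  exact ⟨{ ρ := Br.rho b
           cont := Br.rho_cont b
           aut := range_subset_iff.2 (Br.rho_mem_Aut b)
           curve := Br.exists_curve
           add := fun X γ h0 hγ => h X γ h0 hγ ▸ Br.ex_add X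
           eq_exp := fun X γ h0 hγ => h X γ h0 hγ ▸ Br.rho_ex b X
           disc := (Br.rho_local b).1 }⟩

/-- A connected semisimple Lie group of higher rank carries the structure `HigherRank`. -/
theorem exists_higherRank [T2Space G] [ConnectedSpace G]
    (hs : LieAlgebra.IsSemisimple ℝ (GroupLieAlgebra 𝓘(ℝ, E) G))
    (hr : ∀ I : LieIdeal ℝ (GroupLieAlgebra 𝓘(ℝ, E) G), IsAtom I → 2 ≤ realRank I) :
    ∃ D : HigherRank G (finrank ℝ E), ∀ m : ℕ, ((m : ℕ∞) < vNum E G → D.ltV m) ∧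
      ((m : ℕ∞) < dNum (GroupLieAlgebra 𝓘(ℝ, E) G) → D.ltD m) := by
  have := lie_finite E G
  have : LieAlgebra.IsKilling ℝ (GroupLieAlgebra 𝓘(ℝ, E) G) := inferInstance
  exact exists_higherRank_of_adRep E G hs hr (exists_adRep E G)

end Pool.Agent.P.MP_d483fb_an.Z
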