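import Pool.Agent.P.MP_d483fb_an.Z.Br.Aut

/-!
Two independent commuting split elements of an ideal can be replaced by symmetric ones.
-/

open scoped Matrix Matrix.Norms.Operator Topology
open NormedSpace Filter Set Module Polynomial

attribute [local instance 100] LieRing.ofAssociativeRing

noncomputable section

namespace Pool.Agent.P.MP_d483fb_an.Z

variable {n : ℕ}

theorem trace_mul_transpose_eq (M : Mat n) : (M * Mᵀ).trace = ∑ i, ∑ j, M i j ^ 2 := by
  simp only [Matrix.trace, Matrix.diag_apply, Matrix.mul_apply, Matrix.transpose_apply, sq]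

theorem trace_mul_transpose_nonneg (M : Mat n) : 0 ≤ (M * Mᵀ).trace := by
  rw [trace_mul_transpose_eq]
  positivity

theorem sq_le_trace_mul_transpose (M : Mat n) (i j : Fin n) : M i j ^ 2 ≤ (M * Mᵀ).trace := by
  rw [trace_mul_transpose_eq]
  refine le_trans ?_ (Finset.single_le_sum (f := fun i => ∑ j, M i j ^ 2)
    (fun i _ => by positivity) (Finset.mem_univ i))
  exact Finset.single_le_sum (f := fun j => M i j ^ 2) (fun j _ => by positivity)
    (Finset.mem_univ j)

theorem eq_zero_of_trace_mul_transpose {M : Mat n} (h : (M * Mᵀ).trace ≤ 0) : M = 0 := by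
  ext i j
  exact pow_eq_zero_iff (two_ne_zero) |>.1
    (le_antisymm ((sq_le_trace_mul_transpose M i j).trans h) (sq_nonneg _))

theorem eq_zero_of_transpose_mul {M : Mat n} (h : Mᵀ * M = 0) : M = 0 :=
  eq_zero_of_trace_mul_transpose (by rw [Matrix.trace_mul_comm, h, Matrix.trace_zero])

/-- A normal matrix killed by a real split polynomial is symmetric. -/
theorem isSymm_of_normal {A : Mat n} (hA : A * Aᵀ = Aᵀ * A) (s : Finset ℝ)
    (h : aeval A (∏ μ ∈ s, (X - C μ)) = 0) : A.IsSymm := by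
  have key : ∀ W : Mat n, aeval A (∏ μ ∈ s, (X - C μ)) * W = 0 → (A - Aᵀ) * W = 0 := by
    clear h
    induction s using Finset.induction_on with
    | empty =>
      intro W hW
      rw [Finset.prod_empty, map_one, one_mul] at hW
      rw [hW, mul_zero]
    | insert μ s hμ ih =>
      intro W hW
      rw [Finset.prod_insert hμ, map_mul, map_sub, aeval_X, aeval_C, mul_assoc,
        Algebra.algebraMap_eq_smul_one] at hW
      set P := aeval A (∏ μ ∈ s, (X - C μ)) with hP
      have hN : (A - μ • 1) * (Aᵀ - μ • 1) = (Aᵀ - μ • 1) * (A - μ • 1) := by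
        simp only [sub_mul, mul_sub, Matrix.mul_smul, Matrix.smul_mul, one_mul, mul_one, hA]
        abel
      have h1 : (Aᵀ - μ • 1) * (P * W) = 0 := by
        refine eq_zero_of_transpose_mul ?_
        rw [Matrix.transpose_mul, Matrix.transpose_sub, Matrix.transpose_transpose,
          Matrix.transpose_smul, Matrix.transpose_one, mul_assoc, ← mul_assoc (A - _), hN,
          mul_assoc, hW, mul_zero, mul_zero]
      have h2 : (A - Aᵀ) * (P * W) = 0 := by
        rw [← sub_sub_sub_cancel_right A Aᵀ (μ • 1), sub_mul, hW, h1, sub_zero]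
      have hc : Commute (A - Aᵀ) P := by
        have : Commute (A - Aᵀ) A := (Commute.refl A).sub_left hA.symm
        rw [hP, aeval_eq_sum_range]
        exact Commute.sum_right _ _ _ fun i _ => (this.pow_right i).smul_right _
      have h3 := ih ((A - Aᵀ) * W) (by rw [← mul_assoc, ← hc.eq, mul_assoc, h2])
      refine eq_zero_of_transpose_mul ?_
      rw [Matrix.transpose_mul, Matrix.transpose_sub, Matrix.transpose_transpose, mul_assoc,
        ← neg_sub A, neg_mul, h3, neg_zero, mul_zero]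
  have := key 1 (by rw [h, zero_mul])
  rw [mul_one, sub_eq_zero] at this
  exact this.symm

theorem normal_of_critical {A B : Mat n} (hAB : A * B = B * A)
    (h : A * Aᵀ - Aᵀ * A + (B * Bᵀ - Bᵀ * B) = 0) : A * Aᵀ = Aᵀ * A := by
  have e1 : (Aᵀ * B * (Bᵀ * A)).trace = (A * Aᵀ * (B * Bᵀ)).trace := by
    rw [← mul_assoc, Matrix.trace_mul_comm]
    simp only [mul_assoc]
  have e2 : (Aᵀ * B * (A * Bᵀ)).trace = (Aᵀ * A * (B * Bᵀ)).trace := by
    rw [mul_assoc, ← mul_assoc B, ← hAB]
    simp only [mul_assoc]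
  have e3 : (B * Aᵀ * (Bᵀ * A)).trace = (A * Aᵀ * (Bᵀ * B)).trace := by
    rw [mul_assoc, Matrix.trace_mul_comm, mul_assoc, mul_assoc, hAB, ← mul_assoc, ← mul_assoc,
      Matrix.trace_mul_comm]
    simp only [mul_assoc]
  have e4 : (B * Aᵀ * (A * Bᵀ)).trace = (Aᵀ * A * (Bᵀ * B)).trace := by
    rw [mul_assoc, Matrix.trace_mul_comm]
    simp only [mul_assoc]
  have h1 : ((A * Aᵀ - Aᵀ * A) * (B * Bᵀ - Bᵀ * B)).trace =
      ((Aᵀ * B - B * Aᵀ) * (Aᵀ * B - B * Aᵀ)ᵀ).trace := by
    simp only [Matrix.transpose_sub, Matrix.transpose_mul, Matrix.transpose_transpose, sub_mul,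
      mul_sub, Matrix.trace_sub, e1, e2, e3, e4]
    ring
  have h2 : (A * Aᵀ - Aᵀ * A)ᵀ = A * Aᵀ - Aᵀ * A := by
    simp only [Matrix.transpose_sub, Matrix.transpose_mul, Matrix.transpose_transpose]
  have h3 := congrArg (fun N => ((A * Aᵀ - Aᵀ * A) * N).trace) h
  simp only [mul_add, Matrix.trace_add, mul_zero, Matrix.trace_zero, h1] at h3
  rw [← sub_eq_zero]
  refine eq_zero_of_trace_mul_transpose ?_
  rw [h2]
  linarith [trace_mul_transpose_nonneg (Aᵀ * B - B * Aᵀ)]

theorem hasDerivAt_lin {F : Type*} [NormedAddCommGroup F] [NormedSpace ℝ F] (T : Mat n →ₗ[ℝ] F)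
    {c : ℝ → Mat n} {c' : Mat n} {t : ℝ} (h : HasDerivAt c c' t) :
    HasDerivAt (fun t => T (c t)) (T c') t :=
  T.toContinuousLinearMap.hasFDerivAt.comp_hasDerivAt t h

theorem hasDerivAt_conj_sq (Z A : Mat n) :
    HasDerivAt (fun t : ℝ => (exp (t • Z) * A * exp (t • (-Z)) *
      (exp (t • Z) * A * exp (t • (-Z)))ᵀ).trace) (2 * (Z * (A * Aᵀ - Aᵀ * A)).trace) 0 := by
  have h1 := ((hasDerivAt_exp_smul_const (𝕂 := ℝ) Z 0).mul_const A).mul
    (hasDerivAt_exp_smul_const (𝕂 := ℝ) (-Z) 0)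
  have h2 : HasDerivAt (fun t : ℝ => exp (t • Z) * A * exp (t • (-Z))) (Z * A - A * Z) 0 := by
    refine HasDerivAt.congr_deriv h1 ?_
    simp only [zero_smul, exp_zero, one_mul, mul_one, mul_neg, sub_eq_add_neg]
  have h3 := hasDerivAt_lin (Matrix.traceLinearMap (Fin n) ℝ ℝ)
    (h2.mul (hasDerivAt_lin (Matrix.transposeLinearEquiv (Fin n) (Fin n) ℝ ℝ).toLinearMap h2))
  refine HasDerivAt.congr_deriv h3 ?_
  change ((Z * A - A * Z) * (exp ((0 : ℝ) • Z) * A * exp ((0 : ℝ) • (-Z)))ᵀ +
    exp ((0 : ℝ) • Z) * A * exp ((0 : ℝ) • (-Z)) * (Z * A - A * Z)ᵀ).trace = _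
  simp only [zero_smul, exp_zero, one_mul, mul_one]
  rw [Matrix.trace_add, ← Matrix.trace_transpose (A * _), Matrix.transpose_mul,
    Matrix.transpose_transpose, ← two_mul, sub_mul, mul_sub, Matrix.trace_sub, Matrix.trace_sub,
    Matrix.trace_mul_cycle A Z Aᵀ, Matrix.trace_mul_comm (Aᵀ * A) Z, mul_assoc]

/-- Conjugation as an algebra homomorphism. -/
def conjAlg {g g' : Mat n} (h : g * g' = 1) (h' : g' * g = 1) : Mat n →ₐ[ℝ] Mat n :=
  AlgHom.ofLinearMap (LinearMap.mulLeftRight ℝ (g, g'))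
    (by rw [LinearMap.mulLeftRight_apply, mul_one, h])
    (fun A B => by
      simp only [LinearMap.mulLeftRight_apply, mul_assoc]
      rw [← mul_assoc g' g, h', one_mul])

theorem conjAlg_apply {g g' : Mat n} (h : g * g' = 1) (h' : g' * g = 1) (A : Mat n) :
    conjAlg h h' A = g * A * g' := LinearMap.mulLeftRight_apply _ _ _

theorem det_conjAlg {g g' : Mat n} (h : g * g' = 1) (h' : g' * g = 1) (A : Mat n) :
    (conjAlg h h' A).det = A.det := by
  rw [conjAlg_apply, Matrix.det_mul, Matrix.det_mul, mul_right_comm, ← Matrix.det_mul, h,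
    Matrix.det_one, one_mul]

theorem isCompact_trace_le (R : ℝ) : IsCompact {M : Mat n | (M * Mᵀ).trace ≤ R} := by
  have hK : IsCompact (Set.pi univ fun _ : Fin n => Set.pi univ fun _ : Fin n =>
      Icc (-(R + 1)) (R + 1)) :=
    isCompact_univ_pi fun _ => isCompact_univ_pi fun _ => isCompact_Icc
  refine hK.of_isClosed_subset (isClosed_le ?_ continuous_const) fun M hM i _ j _ => ?_
  · exact (continuous_id.mul continuous_id.matrix_transpose).matrix_trace
  · have := (sq_le_trace_mul_transpose M i j).trans hM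
    constructor <;> nlinarith [sq_nonneg (M i j - 1), sq_nonneg (M i j + 1)]

theorem exists_finset_aeval {V : Type*} [AddCommGroup V] [Module ℝ V] [Module.Finite ℝ V]
    {f : End ℝ V} (h : ⨆ μ, f.eigenspace μ = ⊤) :
    ∃ s : Finset ℝ, aeval f (∏ μ ∈ s, (X - C μ)) = 0 := by
  refine ⟨(minpoly ℝ f).roots.toFinset, ?_⟩
  rw [← LinearMap.ker_eq_top, eq_top_iff, ← h]
  refine iSup_le fun μ v hv => ?_
  rcases eq_or_ne v 0 with rfl | hv0
  · exact zero_mem _
  have hv' : f.HasEigenvector μ v := ⟨hv, hv0⟩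
  have hμ : μ ∈ (minpoly ℝ f).roots.toFinset := by
    rw [Multiset.mem_toFinset, mem_roots (minpoly.ne_zero (Algebra.IsIntegral.isIntegral f))]
    exact End.hasEigenvalue_iff_isRoot.1 (End.hasEigenvalue_of_hasEigenvector hv')
  rw [LinearMap.mem_ker, End.aeval_apply_of_hasEigenvector hv', eval_prod,
    Finset.prod_eq_zero hμ (by simp), zero_smul]

variable {L : Type*} [LieRing L] [LieAlgebra ℝ L] (b : Basis (Fin n) ℝ L)

theorem toLin_exp_adM_mem (I : LieIdeal ℝ L) (Z : L) {X : L} (hX : X ∈ I) :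
    Matrix.toLin b b (exp (adM b Z)) X ∈ I := by
  let S : Subalgebra ℝ (Mat n) :=
    { carrier := {M | ∀ X ∈ I, Matrix.toLin b b M X ∈ I}
      mul_mem' := fun {M M'} hM hM' X hX => by
        rw [toLin_mul_app]
        exact hM _ (hM' X hX)
      add_mem' := fun {M M'} hM hM' X hX => by
        rw [map_add, LinearMap.add_apply]
        exact add_mem (hM X hX) (hM' X hX)
      algebraMap_mem' := fun r X hX => by
        rw [Algebra.algebraMap_eq_smul_one, map_smul, Matrix.toLin_one, LinearMap.smul_apply]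
        exact I.smul_mem r hX }
  have hS : IsClosed (S : Set (Mat n)) := S.toSubmodule.closed_of_finiteDimensional
  refine exp_mem (R := ℝ) hS (x := adM b Z) (fun X hX => ?_) X hX
  rw [toLin_adM]
  exact I.lie_mem hX

theorem conj_exp_adM_mem (I : LieIdeal ℝ L) (Z : L) (t : ℝ) {A : Mat n}
    (hA : A ∈ I.toSubmodule.map (adM b)) :
    exp (t • adM b Z) * A * exp (t • (-adM b Z)) ∈ I.toSubmodule.map (adM b) := by
  obtain ⟨X, hX, rfl⟩ := hA
  rw [((mem_Aut_iff b).1 (exp_smul_adM_mem b Z t)).2, mul_assoc, exp_smul_mul_exp_neg, mul_one,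
    ← map_smul]
  exact Submodule.mem_map_of_mem (toLin_exp_adM_mem b I _ hX)

theorem aeval_adM (X : L) (P : ℝ[X]) :
    aeval (adM b X) P = LinearMap.toMatrixAlgEquiv b (aeval (LieAlgebra.ad ℝ L X) P) :=
  aeval_algHom_apply (LinearMap.toMatrixAlgEquiv b) _ P

/-- (RANK) -/
theorem exists_symm_pair [LieAlgebra.IsKilling ℝ L] (htr : ∀ X, ∃ Y, (adM b X)ᵀ = adM b Y)
    (I : LieIdeal ℝ L) {X Y : L} (hX : X ∈ I) (hY : Y ∈ I) (hXY : ⁅X, Y⁆ = 0)
    (hli : LinearIndependent ℝ ![X, Y])
    (dX : ⨆ μ, End.eigenspace (LieAlgebra.ad ℝ L X) μ = ⊤)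
    (dY : ⨆ μ, End.eigenspace (LieAlgebra.ad ℝ L Y) μ = ⊤) :
    ∃ X' ∈ I, ∃ Y' ∈ I, (adM b X').IsSymm ∧ (adM b Y').IsSymm ∧ ⁅X', Y'⁆ = 0 ∧
      LinearIndependent ℝ ![X', Y'] := by
  haveI := Module.Finite.of_basis b
  obtain ⟨s, hs⟩ := exists_finset_aeval dX
  obtain ⟨s', hs'⟩ := exists_finset_aeval dY
  set P : ℝ[X] := ∏ μ ∈ s, (Polynomial.X - C μ) with hP
  set Q : ℝ[X] := ∏ μ ∈ s', (Polynomial.X - C μ) with hQ
  set J := I.toSubmodule.map (adM b) with hJ
  let S : Set (Mat n × Mat n) := {p | p.1 ∈ J ∧ p.2 ∈ J ∧ p.1 * p.2 = p.2 * p.1 ∧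
    aeval p.1 P = 0 ∧ aeval p.2 Q = 0 ∧ ∀ a c r : ℝ,
      (algebraMap ℝ (Mat n) r - (a • p.1 + c • p.2)).det =
        (algebraMap ℝ (Mat n) r - (a • adM b X + c • adM b Y)).det}
  let f : Mat n × Mat n → ℝ := fun p => (p.1 * p.1ᵀ).trace + (p.2 * p.2ᵀ).trace
  have hf : Continuous f :=
    (continuous_fst.mul continuous_fst.matrix_transpose).matrix_trace.add
      (continuous_snd.mul continuous_snd.matrix_transpose).matrix_trace
  have hJc : IsClosed (J : Set (Mat n)) := J.closed_of_finiteDimensional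
  have hS : IsClosed S := by
    simp only [S, ofPred_and, ofPred_forall]
    refine (hJc.preimage continuous_fst).inter ((hJc.preimage continuous_snd).inter
      ((isClosed_eq (continuous_fst.mul continuous_snd) (continuous_snd.mul continuous_fst)).inter
      ((isClosed_eq (P.continuous_aeval.comp continuous_fst) continuous_const).inter
      ((isClosed_eq (Q.continuous_aeval.comp continuous_snd) continuous_const).inter
      (isClosed_iInter fun a => isClosed_iInter fun c => isClosed_iInter fun r =>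
        isClosed_eq ?_ continuous_const)))))
    exact (continuous_const.sub ((continuous_fst.const_smul a).add
      (continuous_snd.const_smul c))).matrix_det
  have h0 : (adM b X, adM b Y) ∈ S := by
    refine ⟨Submodule.mem_map_of_mem hX, Submodule.mem_map_of_mem hY, ?_, ?_, ?_,
      fun _ _ _ => rfl⟩
    · rw [← sub_eq_zero, ← adM_lie, hXY, map_zero]
    · rw [aeval_adM, hs, map_zero]
    · rw [aeval_adM, hs', map_zero]
  set R := f (adM b X, adM b Y) with hR
  have hK : IsCompact (S ∩ {p | f p ≤ R}) := by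
    refine ((isCompact_trace_le R).prod (isCompact_trace_le R)).of_isClosed_subset
      (hS.inter (isClosed_le hf continuous_const)) fun p hp => ?_
    have h1 : (p.1 * p.1ᵀ).trace + (p.2 * p.2ᵀ).trace ≤ R := hp.2
    have h2 := trace_mul_transpose_nonneg p.1
    have h3 := trace_mul_transpose_nonneg p.2
    exact ⟨show _ ≤ R by linarith, show _ ≤ R by linarith⟩
  obtain ⟨⟨A, B⟩, ⟨hp, hpR⟩, hmin⟩ := hK.exists_isMinOn ⟨_, h0, le_refl R⟩ hf.continuousOn
  have hmin' : ∀ q ∈ S, f (A, B) ≤ f q := fun q hq => by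
    rcases le_total (f q) R with h | h
    · exact hmin ⟨hq, h⟩
    · exact le_trans hpR h
  obtain ⟨hA, hB, hAB, hAP, hBQ, hdet⟩ := hp
  simp only at hA hB hAB hAP hBQ hdet
  have hcrit : ∀ Z : L, (adM b Z * (A * Aᵀ - Aᵀ * A + (B * Bᵀ - Bᵀ * B))).trace = 0 := by
    intro Z
    have hd := (hasDerivAt_conj_sq (adM b Z) A).add (hasDerivAt_conj_sq (adM b Z) B)
    have hm := IsLocalMin.hasDerivAt_eq_zero (Eventually.of_forall fun t => ?_) hd
    · rw [mul_add, Matrix.trace_add]
      linarith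
    · simp only [Pi.add_apply, zero_smul, exp_zero, one_mul, mul_one]
      have e := exp_smul_mul_exp_neg (adM b Z) t
      have e' := exp_neg_mul_exp_smul (adM b Z) t
      refine hmin' (_, _) ⟨conj_exp_adM_mem b I Z t hA, conj_exp_adM_mem b I Z t hB, ?_, ?_, ?_,
        fun a c r => ?_⟩
      · simp only [← conjAlg_apply e e', ← map_mul, hAB]
      · simp only [← conjAlg_apply e e']
        rw [aeval_algHom_apply, hAP, map_zero]
      · simp only [← conjAlg_apply e e']
        rw [aeval_algHom_apply, hBQ, map_zero]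
      · simp only [← conjAlg_apply e e']
        rw [← hdet, ← det_conjAlg e e' (_ - (a • A + c • B)), map_sub, map_add, map_smul,
          map_smul, AlgHom.commutes]
  obtain ⟨X', hX', rfl⟩ := hA
  obtain ⟨Y', hY', rfl⟩ := hB
  obtain ⟨X'', eX⟩ := htr X'
  obtain ⟨Y'', eY⟩ := htr Y'
  have hN : adM b X' * (adM b X')ᵀ - (adM b X')ᵀ * adM b X' +
      (adM b Y' * (adM b Y')ᵀ - (adM b Y')ᵀ * adM b Y') = 0 := by
    refine eq_zero_of_trace_mul_transpose (le_of_eq ?_)
    have := hcrit (⁅X', X''⁆ + ⁅Y', Y''⁆)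
    rw [map_add, adM_lie, adM_lie, ← eX, ← eY] at this
    simpa only [Matrix.transpose_add, Matrix.transpose_sub, Matrix.transpose_mul,
      Matrix.transpose_transpose] using this
  refine ⟨X', hX', Y', hY', isSymm_of_normal (normal_of_critical hAB hN) s hAP,
    isSymm_of_normal (normal_of_critical hAB.symm (by rwa [add_comm])) s' hBQ,
    adM_injective b (by rw [adM_lie, hAB, sub_self, map_zero]), ?_⟩
  rw [LinearIndependent.pair_iff] at hli ⊢
  intro a c hac
  refine hli a c (adM_injective b ?_)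
  have h1 : (a • adM b X + c • adM b Y).charpoly = (0 : Mat n).charpoly := by
    refine Polynomial.funext fun r => ?_
    have := hdet a c r
    rw [← map_smul, ← map_smul, ← map_add, hac, map_zero] at this
    rw [Matrix.eval_charpoly, Matrix.eval_charpoly]
    exact this.symm
  have h2 : IsNilpotent (a • adM b X + c • adM b Y) := by
    have := Matrix.aeval_self_charpoly (a • adM b X + c • adM b Y)
    rw [h1, Matrix.charpoly_zero, map_pow, aeval_X] at this
    exact ⟨_, this⟩
  have sX : End.IsSemisimple (LieAlgebra.ad ℝ L X) := End.isSemisimple_of_squarefree_aeval_eq_zero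
    (separable_prod_X_sub_C_iff'.2 fun _ _ _ _ h => h).squarefree hs
  have sY : End.IsSemisimple (LieAlgebra.ad ℝ L Y) := End.isSemisimple_of_squarefree_aeval_eq_zero
    (separable_prod_X_sub_C_iff'.2 fun _ _ _ _ h => h).squarefree hs'
  have hc : Commute (LieAlgebra.ad ℝ L X) (LieAlgebra.ad ℝ L Y) := by
    rw [commute_iff_lie_eq, ← LieHom.map_lie, hXY, map_zero]
  have h3 := End.IsSemisimple.add_of_commute ((hc.smul_left a).smul_right c)
    (End.IsSemisimple_smul a sX) (End.IsSemisimple_smul c sY)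
  have h4 : IsNilpotent (a • LieAlgebra.ad ℝ L X + c • LieAlgebra.ad ℝ L Y) := by
    rw [← IsNilpotent.map_iff (LinearMap.toMatrixAlgEquiv b).injective, map_add, map_smul,
      map_smul]
    exact h2
  rw [adM_apply, map_add, map_smul, map_smul, End.eq_zero_of_isNilpotent_isSemisimple h4 h3,
    map_zero, map_zero]

end Pool.Agent.P.MP_d483fb_an.Z
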