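import Pool.Agent.P.MP_d483fb_an.Z.Br.Orth
import Pool.Agent.P.MP_d483fb_an.Z.Br.Rank

/-!
The structure `HigherRank` from an adjoint representation.
-/

open scoped Matrix Matrix.Norms.Operator TensorProduct Topology
open NormedSpace Set Module Filter

attribute [local instance 100] LieRing.ofAssociativeRing

noncomputable section

namespace Pool.Agent.P.MP_d483fb_an.Z

variable {G : Type} [Group G] [TopologicalSpace G] [IsTopologicalGroup G] [ConnectedSpace G]
  {L : Type} [LieRing L] [LieAlgebra ℝ L] {n : ℕ} (b : Basis (Fin n) ℝ L)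

theorem exists_transpose [LieAlgebra.IsKilling ℝ L] (htr : ∀ X, ∃ Y, (adM b X)ᵀ = adM b Y)
    (ρ : G →* Mat n) (hρ : Continuous ρ) (hA : range ρ ⊆ Aut b)
    (hexp : ∀ X, exp (adM b X) ∈ range ρ) (g : G) : ∃ g', ρ g' = (ρ g)ᵀ := by
  let H : Subgroup G :=
    { carrier := {g | ∃ g', ρ g' = (ρ g)ᵀ}
      one_mem' := ⟨1, by rw [map_one, Matrix.transpose_one]⟩
      mul_mem' := by
        rintro x y ⟨x', hx⟩ ⟨y', hy⟩
        exact ⟨y' * x', by rw [map_mul, map_mul, Matrix.transpose_mul, hx, hy]⟩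
      inv_mem' := by
        rintro x ⟨x', hx⟩
        refine ⟨x'⁻¹, ?_⟩
        have h1 : ρ x'⁻¹ * ρ x' = 1 := by rw [← map_mul, inv_mul_cancel, map_one]
        have h2 : ρ x' * (ρ x⁻¹)ᵀ = 1 := by
          rw [hx, ← Matrix.transpose_mul, ← map_mul, inv_mul_cancel, map_one,
            Matrix.transpose_one]
        rw [← mul_one (ρ x'⁻¹), ← h2, ← mul_assoc, h1, one_mul] }
  have h1 : Tendsto ρ (𝓝 1) (𝓝[Aut b] 1) := by
    refine tendsto_nhdsWithin_iff.2 ⟨?_, Eventually.of_forall fun x => hA ⟨x, rfl⟩⟩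
    have := hρ.tendsto 1
    rwa [map_one] at this
  have h2 : exp '' range (adM b) ∈ 𝓝[Aut b] (1 : Mat n) :=
    nhdsWithin_Aut_le b (image_mem_map self_mem_nhdsWithin)
  have h3 : (H : Set G) ∈ 𝓝 1 := by
    filter_upwards [h1 h2] with x hx
    obtain ⟨_, ⟨X, rfl⟩, hX⟩ := hx
    obtain ⟨Y, hY⟩ := htr X
    obtain ⟨y, hy⟩ := hexp Y
    exact ⟨y, by rw [hy, ← hY, Matrix.exp_transpose, hX]⟩
  have ho : IsOpen (H : Set G) := Subgroup.isOpen_of_mem_nhds _ h3
  have hc : IsClopen (H : Set G) := ⟨Subgroup.isClosed_of_isOpen _ ho, ho⟩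
  have h4 : g ∈ (H : Set G) := by
    rw [hc.eq_univ ⟨1, H.one_mem⟩]
    exact mem_univ g
  exact h4

theorem exists_higherRank_of [LieAlgebra.IsSemisimple ℝ L]
    (hr : ∀ I : LieIdeal ℝ L, IsAtom I → 2 ≤ realRank I)
    (htr : ∀ X, ∃ Y, (adM b X)ᵀ = adM b Y) (ρ : G →* Mat n) (hc : IsClosed (range ρ))
    (hcov : IsCoveringMap (rangeFactorization ρ)) (hA : range ρ ⊆ Aut b)
    (hexp : ∀ X, exp (adM b X) ∈ range ρ) :
    ∃ D : HigherRank G n, D.ρ = ρ ∧ D.dim ⊤ = n ∧ ∀ m : ℕ, (m : ℕ∞) < dNum L → D.ltD m := by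
  have := Module.Finite.of_basis b
  have : LieAlgebra.IsKilling ℝ L := inferInstance
  have hρ : Continuous ρ := continuous_subtype_val.comp hcov.continuous
  obtain ⟨e, he⟩ := exists_adEquiv b (lieSet_eq_range b hA hexp)
  have : LieAlgebra.IsKilling ℝ (lieAlg (range ρ)) := LieAlgebra.isKilling_of_equiv e
  let D : HigherRank G n :=
    { ρ := ρ
      closed := hc
      cov := hcov
      tr := exists_transpose b htr ρ hρ hA hexp
      ss := inferInstance
      rank := by
        intro I hI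
        obtain ⟨X, hX, Y, hY, h1, h2, h3, h4⟩ :=
          exists_pair_of_ideal (idealIso e I) (hr _ (((idealIso e).isAtom_iff I).2 hI))
        obtain ⟨X', hX', Y', hY', h5, h6, h7, h8⟩ := exists_symm_pair b htr _ hX hY h2 h1 h3 h4
        refine ⟨e X', hX', e Y', hY', by rwa [he], by rwa [he],
          by rw [← e.map_lie, h7, map_zero], ?_⟩
        have h9 := h8.map' e.toLinearEquiv.toLinearMap e.toLinearEquiv.ker
        have h10 : ![e X', e Y'] = e.toLinearEquiv.toLinearMap ∘ ![X', Y'] := by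
          funext i
          fin_cases i <;> rfl
        rw [h10]
        exact h9 }
  refine ⟨D, rfl, ?_, fun m hm => ltD_of_lt_dNum D e hm⟩
  rw [HigherRank.dim, Subgroup.coe_top, image_univ]
  change finrank ℝ (lieAlg (range ρ)) = n
  rw [← e.toLinearEquiv.finrank_eq, finrank_eq_card_basis b, Fintype.card_fin]

end Pool.Agent.P.MP_d483fb_an.Z
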