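import Mathlib

/-!
Lie brackets on a fixed finite dimensional normed space, their Killing forms, the Casimir tensor and
the homotopy formulas that give `H¹ = H² = 0` for a bracket with nondegenerate Killing form.
-/

set_option linter.unusedSectionVars false
set_option linter.unusedVariables false
set_option linter.deprecated false

noncomputable section

namespace Pool.Agent.P.MP_d483fb_an.Z.Car

variable {V : Type*} [NormedAddCommGroup V] [NormedSpace ℝ V] [FiniteDimensional ℝ V]

/-- Bilinear maps. -/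
abbrev Bil (V : Type*) [NormedAddCommGroup V] [NormedSpace ℝ V] := V →L[ℝ] V →L[ℝ] V

/-- Transport of a bilinear map. -/
def act (g h : V →L[ℝ] V) (ν : Bil V) : Bil V :=
  (ContinuousLinearMap.compL ℝ V V V g).comp (ν.bilinearComp h h)

@[simp] lemma act_apply (g h : V →L[ℝ] V) (ν : Bil V) (x y : V) :
    act g h ν x y = g (ν (h x) (h y)) := rfl

/-- The infinitesimal action. -/
def inf (u : V →L[ℝ] V) (ν : Bil V) : Bil V :=
  (ContinuousLinearMap.compL ℝ V V V u).comp ν - ν.bilinearComp u (ContinuousLinearMap.id ℝ V)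
    - ν.bilinearComp (ContinuousLinearMap.id ℝ V) u

@[simp] lemma inf_apply (u : V →L[ℝ] V) (ν : Bil V) (x y : V) :
    inf u ν x y = u (ν x y) - ν (u x) y - ν x (u y) := rfl

lemma act_act (g h g' h' : V →L[ℝ] V) (ν : Bil V) :
    act g h (act g' h' ν) = act (g * g') (h' * h) ν := by
  ext x y; rfl

lemma act_one (ν : Bil V) : act 1 1 ν = ν := by
  ext x y; rfl

/-- The trace. -/
def tr : (V →L[ℝ] V) →L[ℝ] ℝ :=
  LinearMap.toContinuousLinearMap ((LinearMap.trace ℝ V) ∘ₗ (ContinuousLinearMap.coeLM ℝ))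

lemma tr_apply (u : V →L[ℝ] V) : tr u = LinearMap.trace ℝ V (u : V →ₗ[ℝ] V) := rfl

lemma tr_mul_comm (u v : V →L[ℝ] V) : tr (u * v) = tr (v * u) := by
  rw [tr_apply, tr_apply]
  exact LinearMap.trace_mul_comm ℝ (u : V →ₗ[ℝ] V) (v : V →ₗ[ℝ] V)

/-- The Killing form. -/
def kil (ν : Bil V) : LinearMap.BilinForm ℝ V :=
  LinearMap.mk₂ ℝ (fun x y => tr (ν x * ν y))
    (fun x x' y => by simp [add_mul]) (fun c x y => by simp)
    (fun x y y' => by simp [mul_add]) (fun c x y => by simp)

lemma kil_apply (ν : Bil V) (x y : V) : kil ν x y = tr (ν x * ν y) := rfl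

lemma kil_symm (ν : Bil V) (x y : V) : kil ν x y = kil ν y x := tr_mul_comm _ _

lemma continuous_kil (x y : V) : Continuous fun ν : Bil V => kil ν x y := by
  simp only [kil_apply]
  fun_prop

lemma kil_act {g h : V →L[ℝ] V} (hg : h * g = 1) (ν : Bil V) (x y : V) :
    kil (act g h ν) x y = kil ν (h x) (h y) := by
  have e1 : ∀ z, act g h ν z = g * ν (h z) * h := fun z => by ext w; rfl
  rw [kil_apply, kil_apply, e1, e1]
  calc tr (g * ν (h x) * h * (g * ν (h y) * h))
      = tr (g * (ν (h x) * (h * g) * ν (h y) * h)) := by simp only [mul_assoc]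
    _ = tr ((ν (h x) * (h * g) * ν (h y) * h) * g) := tr_mul_comm _ _
    _ = tr (ν (h x) * (h * g) * ν (h y) * (h * g)) := by simp only [mul_assoc]
    _ = _ := by rw [hg, mul_one, mul_one]

/-- Lie brackets. -/
structure IsLie (ν : Bil V) : Prop where
  alt : ∀ x y, ν x y = -ν y x
  jac : ∀ x y z, ν (ν x y) z + ν (ν y z) x + ν (ν z x) y = 0

lemma isClosed_isLie : IsClosed {ν : Bil V | IsLie ν} := by
  have : {ν : Bil V | IsLie ν} = (⋂ x, ⋂ y, {ν : Bil V | ν x y = -ν y x}) ∩
      ⋂ x, ⋂ y, ⋂ z, {ν : Bil V | ν (ν x y) z + ν (ν y z) x + ν (ν z x) y = 0} := by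
    ext ν
    simp only [Set.mem_setOf_eq, Set.mem_inter_iff, Set.mem_iInter]
    exact ⟨fun h => ⟨h.1, h.2⟩, fun h => ⟨h.1, h.2⟩⟩
  rw [this]
  refine IsClosed.inter ?_ ?_
  · exact isClosed_iInter fun x => isClosed_iInter fun y =>
      isClosed_eq (by fun_prop) (by fun_prop)
  · exact isClosed_iInter fun x => isClosed_iInter fun y => isClosed_iInter fun z =>
      isClosed_eq (by fun_prop) (by fun_prop)

lemma IsLie.act {ν : Bil V} (hν : IsLie ν) {g h : V →L[ℝ] V} (hg : h * g = 1) :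
    IsLie (act g h ν) := by
  have e : ∀ z, h (g z) = z := fun z => by
    rw [← ContinuousLinearMap.mul_apply, hg]; rfl
  refine ⟨fun x y => ?_, fun x y z => ?_⟩
  · rw [act_apply, act_apply, hν.alt, map_neg]
  · simp only [act_apply, e]
    rw [← map_add, ← map_add, hν.jac, map_zero]

lemma IsLie.leib {ν : Bil V} (hν : IsLie ν) (x y z : V) :
    ν x (ν y z) = ν (ν x y) z + ν y (ν x z) := by
  have h := hν.jac x y z
  rw [hν.alt (ν y z) x, hν.alt (ν z x) y, hν.alt z x, map_neg, neg_neg] at h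
  linear_combination (norm := abel1) -h

lemma IsLie.inf_ad {ν : Bil V} (hν : IsLie ν) (x : V) : inf (ν x) ν = 0 := by
  ext y z
  simp only [inf_apply, ContinuousLinearMap.zero_apply]
  rw [hν.leib x y z]; abel

lemma kil_skew {ν : Bil V} {u : V →L[ℝ] V} (hu : inf u ν = 0) (x y : V) :
    kil ν (u x) y = -kil ν x (u y) := by
  have e : ∀ z, ν (u z) = u * ν z - ν z * u := fun z => by
    ext w
    have h : inf u ν z w = 0 := by rw [hu]; rfl
    rw [inf_apply] at h
    simp only [ContinuousLinearMap.sub_apply, ContinuousLinearMap.mul_apply]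
    linear_combination (norm := abel1) -h
  rw [kil_apply, kil_apply, e, e, sub_mul, mul_sub, map_sub, map_sub, mul_assoc, mul_assoc,
    tr_mul_comm u, mul_assoc]
  ring

/-- A pair of dual bases for the Killing form. -/
structure Dual (ν : Bil V) (ι : Type) [Fintype ι] where
  a : ι → V
  e : ι → V
  ex1 : ∀ x, x = ∑ j, kil ν x (e j) • a j
  ex2 : ∀ x, x = ∑ j, kil ν x (a j) • e j
  trc : ∀ u : V →L[ℝ] V, tr u = ∑ j, kil ν (u (e j)) (a j)

lemma exists_dual {ν : Bil V} (hν : (kil ν).Nondegenerate) :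
    Nonempty (Dual ν (Fin (Module.finrank ℝ V))) := by
  classical
  let b := Module.finBasis ℝ V
  let e := (kil ν).dualBasis hν b
  have hs : (kil ν).IsSymm := ⟨fun x y => kil_symm ν x y⟩
  refine ⟨⟨b, e, fun x => ?_, fun x => ?_, fun u => ?_⟩⟩
  · conv_lhs => rw [← b.sum_repr x]
    refine Finset.sum_congr rfl fun j _ => ?_
    congr 1
    conv_rhs => rw [← b.sum_repr x]
    simp only [map_sum, map_smul, LinearMap.sum_apply, LinearMap.smul_apply, e,
      LinearMap.BilinForm.apply_dualBasis_right hν hs, smul_eq_mul, mul_ite, mul_one, mul_zero]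
    simp
  · conv_lhs => rw [← e.sum_repr x]
    refine Finset.sum_congr rfl fun j _ => ?_
    rw [LinearMap.BilinForm.dualBasis_repr_apply]
  · rw [tr_apply, LinearMap.trace_eq_matrix_trace ℝ e, Matrix.trace]
    refine Finset.sum_congr rfl fun j _ => ?_
    rw [Matrix.diag_apply, LinearMap.toMatrix_apply, LinearMap.BilinForm.dualBasis_repr_apply]
    rfl

variable {ν : Bil V} {ι : Type} [Fintype ι] (D : Dual ν ι)

/-- Invariance of the Casimir tensor. -/
lemma Dual.cas_inv {u : V →L[ℝ] V} (hu : inf u ν = 0) (β : Bil V) :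
    ∑ i, β (u (D.a i)) (D.e i) = -∑ i, β (D.a i) (u (D.e i)) := by
  have h1 : ∀ i, β (u (D.a i)) (D.e i) =
      ∑ j, kil ν (u (D.a i)) (D.e j) • β (D.a j) (D.e i) := fun i => by
    conv_lhs => rw [D.ex1 (u (D.a i))]
    simp only [map_sum, map_smul, ContinuousLinearMap.sum_apply, ContinuousLinearMap.smul_apply]
  have h2 : ∀ j, β (D.a j) (u (D.e j)) =
      ∑ i, kil ν (u (D.e j)) (D.a i) • β (D.a j) (D.e i) := fun j => by
    conv_lhs => rw [D.ex2 (u (D.e j))]
    simp only [map_sum, map_smul]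
  simp only [h1, h2]
  rw [Finset.sum_comm, ← Finset.sum_neg_distrib]
  refine Finset.sum_congr rfl fun j _ => ?_
  rw [← Finset.sum_neg_distrib]
  refine Finset.sum_congr rfl fun i _ => ?_
  rw [kil_skew hu, kil_symm ν (D.a i), neg_smul]

lemma Dual.eq_of_kil (D : Dual ν ι) {x y : V} (h : ∀ z, kil ν x z = kil ν y z) : x = y :=
  calc x = ∑ j, kil ν x (D.e j) • D.a j := D.ex1 x
    _ = ∑ j, kil ν y (D.e j) • D.a j := by simp only [h]
    _ = y := (D.ex1 y).symm

/-- The Casimir operator of the adjoint representation is the identity. -/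
lemma Dual.cas (hν : IsLie ν) (x : V) : ∑ i, ν (D.a i) (ν (D.e i) x) = x := by
  refine D.eq_of_kil fun y => ?_
  rw [kil_symm ν x y, kil_apply ν y x, D.trc]
  simp only [map_sum, LinearMap.sum_apply]
  refine Finset.sum_congr rfl fun i _ => ?_
  rw [kil_skew (hν.inf_ad _), ContinuousLinearMap.mul_apply, kil_skew (hν.inf_ad y),
    hν.alt (D.e i) x, hν.alt (D.a i) y]
  simp

/-- Homotopy operator in degree two. -/
def Dual.k (D : Dual ν ι) (w : Bil V) : V →L[ℝ] V := ∑ i, ν (D.a i) * w (D.e i)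

lemma Dual.k_apply (w : Bil V) (x : V) : D.k w x = ∑ i, ν (D.a i) (w (D.e i) x) := by
  simp [Dual.k]

/-- Derivations are inner. -/
lemma Dual.inner (hν : IsLie ν) {u : V →L[ℝ] V} (hu : inf u ν = 0) :
    u = ν (-∑ i, ν (D.a i) (u (D.e i))) := by
  ext x
  have hd : ∀ y z, u (ν y z) = ν (u y) z + ν y (u z) := fun y z => by
    have h : inf u ν y z = 0 := by rw [hu]; rfl
    rw [inf_apply] at h
    linear_combination (norm := abel1) h
  have h1 := D.cas_inv (hν.inf_ad x) (ν.bilinearComp (ContinuousLinearMap.id ℝ V) u)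
  simp only [ContinuousLinearMap.bilinearComp_apply, ContinuousLinearMap.id_apply, hd,
    map_add, Finset.sum_add_distrib] at h1
  have h2 : ∑ i, ν (D.a i) (ν (u x) (D.e i)) = -u x := by
    conv_rhs => rw [← D.cas hν (u x), ← Finset.sum_neg_distrib]
    refine Finset.sum_congr rfl fun i _ => ?_
    rw [hν.alt (u x) (D.e i), map_neg]
  rw [h2] at h1
  rw [hν.alt, map_neg, neg_neg, map_sum]
  simp only [hν.leib x (D.a _), Finset.sum_add_distrib]
  linear_combination (norm := abel1) -h1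

/-- The linearised Jacobi identity. -/
def dd (ν w : Bil V) (x y z : V) : V :=
  ν (w x y) z + ν (w y z) x + ν (w z x) y + (w (ν x y) z + w (ν y z) x + w (ν z x) y)

/-- Homotopy formula in degree two. -/
lemma Dual.homotopy (hν : IsLie ν) {w : Bil V} (hw : ∀ x y, w x y = -w y x) (x y : V) :
    ∑ i, ν (D.a i) (dd ν w (D.e i) x y) = -w x y - inf (D.k w) ν x y := by
  have h1 := D.cas_inv (hν.inf_ad x) (ν.bilinearComp (ContinuousLinearMap.id ℝ V) (w.flip y))
  have h2 := D.cas_inv (hν.inf_ad y) (ν.bilinearComp (ContinuousLinearMap.id ℝ V) (w.flip x))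
  simp only [ContinuousLinearMap.bilinearComp_apply, ContinuousLinearMap.id_apply,
    ContinuousLinearMap.flip_apply] at h1 h2
  have h3 := D.cas hν (w x y)
  have t : ∀ i, ν (D.a i) (dd ν w (D.e i) x y) =
      (ν (ν (D.a i) (w (D.e i) x)) y + ν (ν y (D.a i)) (w (D.e i) x))
      - ν (D.a i) (ν (D.e i) (w x y))
      + (ν x (ν (D.a i) (w (D.e i) y)) - ν (ν x (D.a i)) (w (D.e i) y))
      - ν (D.a i) (w (ν x (D.e i)) y) - ν (D.a i) (w (D.e i) (ν x y))
      + ν (D.a i) (w (ν y (D.e i)) x) := fun i => by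
    simp only [dd, map_add]
    rw [hν.leib (D.a i) (w (D.e i) x) y, hν.alt (w (D.e i) x) (ν (D.a i) y), hν.alt (D.a i) y,
      hν.alt (w x y) (D.e i), hw y (D.e i), hν.leib x (D.a i) (w (D.e i) y),
      hν.alt (D.e i) x, hw (ν x y) (D.e i)]
    simp only [map_neg, ContinuousLinearMap.neg_apply, neg_neg]
    rw [hν.alt (w (D.e i) y) x, map_neg, neg_neg]
    abel
  simp only [t, Finset.sum_add_distrib, Finset.sum_sub_distrib]
  rw [h1, h2, h3, inf_apply, D.k_apply, D.k_apply, D.k_apply, map_sum, map_sum,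
    ContinuousLinearMap.sum_apply]
  abel

lemma IsLie.dd_inf (hν : IsLie ν) (u : V →L[ℝ] V) (x y z : V) : dd ν (inf u ν) x y z = 0 := by
  simp only [dd, inf_apply, map_sub, ContinuousLinearMap.sub_apply]
  have h0 := congrArg u (hν.jac x y z)
  simp only [map_add, map_zero] at h0
  have h1 := hν.jac (u x) y z
  have h2 := hν.jac x (u y) z
  have h3 := hν.jac x y (u z)
  linear_combination (norm := abel1) h0 - h1 - h2 - h3

lemma IsLie.inf_alt (hν : IsLie ν) (u : V →L[ℝ] V) (x y : V) : inf u ν x y = -inf u ν y x := by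
  simp only [inf_apply]
  rw [hν.alt x y, hν.alt (u x) y, hν.alt x (u y), map_neg]
  abel

end Pool.Agent.P.MP_d483fb_an.Z.Car
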