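import Pool.Agent.P.MP_d483fb_an.Z.Br.CartanA

/-!
Rigidity of Lie brackets with nondegenerate Killing form (equivariant with respect to a family of
derivations).
-/

set_option linter.unusedSectionVars false
set_option linter.unusedVariables false
set_option linter.deprecated false

open NormedSpace Filter Topology

noncomputable section

namespace Pool.Agent.P.MP_d483fb_an.Z.Car

variable {V : Type*} [NormedAddCommGroup V] [NormedSpace ℝ V] [FiniteDimensional ℝ V]

instance : CompleteSpace (V →L[ℝ] V) := FiniteDimensional.complete ℝ _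

instance instNormedBil : NormedAddCommGroup (Bil V) := ContinuousLinearMap.toNormedAddCommGroup

instance instNormedSpaceBil : NormedSpace ℝ (Bil V) := ContinuousLinearMap.toNormedSpace

/-- Open mapping along subspaces. -/
lemma open_on_sub {E F : Type*} [NormedAddCommGroup E] [NormedSpace ℝ E] [FiniteDimensional ℝ E]
    [NormedAddCommGroup F] [NormedSpace ℝ F] [FiniteDimensional ℝ F]
    (S₁ : Submodule ℝ E) (S₂ : Submodule ℝ F) {Φ : E → F} (hΦ : ContDiff ℝ 1 Φ)
    (hmem : ∀ p ∈ S₁, Φ p ∈ S₂)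
    (hsurj : ∀ τ ∈ S₂, ∃ v ∈ S₁, HasDerivAt (fun t : ℝ => Φ (t • v)) τ 0) {U : Set E}
    (hU : U ∈ 𝓝 (0 : E)) : ∀ᶠ ν in 𝓝 (Φ 0), ν ∈ S₂ → ∃ p ∈ S₁, p ∈ U ∧ Φ p = ν := by
  have : CompleteSpace S₁ := FiniteDimensional.complete ℝ _
  have : CompleteSpace S₂ := FiniteDimensional.complete ℝ _
  obtain ⟨r, hr⟩ := Submodule.ClosedComplemented.of_finiteDimensional S₂
  have hst : HasStrictFDerivAt Φ (fderiv ℝ Φ 0) 0 :=
    hΦ.contDiffAt.hasStrictFDerivAt one_ne_zero
  have hst0 : HasStrictFDerivAt Φ (fderiv ℝ Φ 0) (S₁.subtypeL 0) := by simpa using hst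
  have hst' := r.hasStrictFDerivAt.comp 0 (hst0.comp 0 S₁.subtypeL.hasStrictFDerivAt)
  have hs : (r.comp ((fderiv ℝ Φ 0).comp S₁.subtypeL)).range = ⊤ := by
    rw [eq_top_iff]
    intro τ _
    obtain ⟨v, hv, hd⟩ := hsurj τ.1 τ.2
    refine ⟨⟨v, hv⟩, ?_⟩
    have h1 : HasDerivAt (fun t : ℝ => Φ (t • v)) (fderiv ℝ Φ 0 v) 0 := by
      have h2 : HasDerivAt (fun t : ℝ => t • v) v 0 := by
        simpa using (hasDerivAt_id (0 : ℝ)).smul_const v
      exact hst.hasFDerivAt.comp_hasDerivAt_of_eq 0 h2 (by simp)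
    change r (fderiv ℝ Φ 0 v) = τ
    rw [h1.unique hd, hr]
  have hmap := hst'.map_nhds_eq_of_surj hs
  have hU0 : S₁.subtypeL ⁻¹' U ∈ 𝓝 (0 : S₁) :=
    S₁.subtypeL.continuous.continuousAt.preimage_mem_nhds (by simpa using hU)
  have hU' : (fun p : S₁ => r (Φ p)) '' (S₁.subtypeL ⁻¹' U) ∈ 𝓝 (r (Φ 0)) := by
    have := Filter.image_mem_map (m := fun p : S₁ => r (Φ (S₁.subtypeL p))) hU0
    rw [hmap] at this
    simpa using this
  filter_upwards [r.continuous.continuousAt.preimage_mem_nhds hU'] with ν hν hνA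
  obtain ⟨p, hp, hpe⟩ := hν
  refine ⟨p, p.2, hp, ?_⟩
  have h1 := hr ⟨Φ p, hmem p p.2⟩
  have h2 := hr ⟨ν, hνA⟩
  have : (⟨Φ p, hmem p p.2⟩ : S₂) = ⟨ν, hνA⟩ := by rw [← h1, ← h2]; exact hpe
  exact congrArg Subtype.val this

lemma exp_add_comm {u v : V →L[ℝ] V} (h : Commute u v) : exp (u + v) = exp u * exp v :=
  exp_add_of_commute_of_mem_ball (𝕂 := ℝ) h
    ((expSeries_radius_eq_top ℝ (V →L[ℝ] V)).symm ▸ edist_lt_top _ _)
    ((expSeries_radius_eq_top ℝ (V →L[ℝ] V)).symm ▸ edist_lt_top _ _)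

lemma exp_neg_mul (u : V →L[ℝ] V) : exp (-u) * exp u = 1 := by
  rw [← exp_add_comm (Commute.refl u).neg_left, neg_add_cancel, exp_zero]

lemma exp_mul_neg (u : V →L[ℝ] V) : exp u * exp (-u) = 1 := by
  rw [← exp_add_comm (Commute.refl u).neg_right, add_neg_cancel, exp_zero]

lemma contDiff_exp' : ContDiff ℝ 1 (exp : (V →L[ℝ] V) → V →L[ℝ] V) :=
  contDiff_iff_contDiffAt.2 fun x => (exp_analytic (𝕂 := ℝ) x).contDiffAt

lemma inf_act {H g h : V →L[ℝ] V} (hg : H * g = g * H) (hh : H * h = h * H) {ν : Bil V}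
    (hν : inf H ν = 0) : inf H (act g h ν) = 0 := by
  ext x y
  have e1 : ∀ z, H (g z) = g (H z) := fun z => congrArg (fun T : V →L[ℝ] V => T z) hg
  have e2 : ∀ z, H (h z) = h (H z) := fun z => congrArg (fun T : V →L[ℝ] V => T z) hh
  have h0 : inf H ν (h x) (h y) = 0 := by rw [hν]; rfl
  rw [inf_apply] at h0
  simp only [inf_apply, act_apply, e1, ← e2, ContinuousLinearMap.zero_apply]
  rw [← map_sub, ← map_sub, h0, map_zero]

lemma inf_inf (u v : V →L[ℝ] V) (ν : Bil V) :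
    inf u (inf v ν) - inf v (inf u ν) = inf (u * v - v * u) ν := by
  ext x y
  simp only [inf_apply, ContinuousLinearMap.sub_apply, ContinuousLinearMap.mul_apply, map_sub]
  abel

lemma inf_zero (u : V →L[ℝ] V) : inf u (0 : Bil V) = 0 := by
  ext x y; simp

lemma inf_add (u : V →L[ℝ] V) (ν w : Bil V) : inf u (ν + w) = inf u ν + inf u w := by
  ext x y; simp only [inf_apply, ContinuousLinearMap.add_apply, map_add]; abel

lemma inf_smul (u : V →L[ℝ] V) (c : ℝ) (ν : Bil V) : inf u (c • ν) = c • inf u ν := by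
  ext x y; simp only [inf_apply, ContinuousLinearMap.smul_apply, map_smul, smul_sub]

lemma zero_inf (ν : Bil V) : inf 0 ν = 0 := by
  ext x y; simp

lemma hasDerivAt_act (u : V →L[ℝ] V) (ν w : Bil V) (x y : V) :
    HasDerivAt (fun t : ℝ => act (exp (t • u)) (exp (-(t • u))) (ν + t • w) x y)
      (inf u ν x y + w x y) 0 := by
  have h1 : HasDerivAt (fun t : ℝ => exp (t • u)) u 0 := by
    simpa using hasDerivAt_exp_smul_const (𝕂 := ℝ) u 0
  have h2 : HasDerivAt (fun t : ℝ => exp (-(t • u))) (-u) 0 := by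
    simpa using hasDerivAt_exp_smul_const (𝕂 := ℝ) (-u) 0
  have h3 : HasDerivAt (fun t : ℝ => ν + t • w) w 0 := by
    simpa using ((hasDerivAt_id (0 : ℝ)).smul_const w).const_add ν
  have h4 := fun z : V => h2.clm_apply (hasDerivAt_const (0 : ℝ) z)
  have h5 := h1.clm_apply ((h3.clm_apply (h4 x)).clm_apply (h4 y))
  simp only [act_apply]
  convert h5 using 1
  have z : (0 : ℝ) • w = 0 := zero_smul ℝ w
  simp only [z, inf_apply, zero_smul, neg_zero, exp_zero, ContinuousLinearMap.one_apply, add_zero,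
    map_zero, ContinuousLinearMap.neg_apply, map_neg, ContinuousLinearMap.add_apply]
  abel

variable {μ : Bil V} {ι : Type} [Fintype ι]

/-- The slice operator. -/
def Dual.Q (D : Dual μ ι) : Bil V →L[ℝ] Bil V :=
  LinearMap.toContinuousLinearMap
    { toFun := fun w => w + inf (D.k w) μ
      map_add' := fun w w' => by
        ext x y
        simp only [ContinuousLinearMap.add_apply, inf_apply, D.k_apply, map_add,
          Finset.sum_add_distrib]
        abel
      map_smul' := fun c w => by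
        ext x y
        simp only [ContinuousLinearMap.add_apply, inf_apply, D.k_apply, map_smul,
          ContinuousLinearMap.smul_apply, RingHom.id_apply, ← Finset.smul_sum, smul_add,
          smul_sub] }

lemma Dual.Q_apply (D : Dual μ ι) (w : Bil V) : D.Q w = w + inf (D.k w) μ := rfl

lemma Dual.k_comm (D : Dual μ ι) {H : V →L[ℝ] V} (hH : inf H μ = 0) {w : Bil V}
    (hw : inf H w = 0) : H * D.k w = D.k w * H := by
  ext x
  have d1 : ∀ y z, H (μ y z) = μ (H y) z + μ y (H z) := fun y z => by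
    have h : inf H μ y z = 0 := by rw [hH]; rfl
    rw [inf_apply] at h
    linear_combination (norm := abel1) h
  have d2 : ∀ y z, H (w y z) = w (H y) z + w y (H z) := fun y z => by
    have h : inf H w y z = 0 := by rw [hw]; rfl
    rw [inf_apply] at h
    linear_combination (norm := abel1) h
  have h1 := D.cas_inv hH (μ.bilinearComp (ContinuousLinearMap.id ℝ V) (w.flip x))
  simp only [ContinuousLinearMap.bilinearComp_apply, ContinuousLinearMap.id_apply,
    ContinuousLinearMap.flip_apply] at h1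
  simp only [ContinuousLinearMap.mul_apply, D.k_apply, map_sum, d1, d2, map_add,
    Finset.sum_add_distrib, h1]
  abel

lemma Dual.Q_inv (D : Dual μ ι) {H : V →L[ℝ] V} (hH : inf H μ = 0) {w : Bil V}
    (hw : inf H w = 0) : inf H (D.Q w) = 0 := by
  have h := inf_inf H (D.k w) μ
  rw [hH, inf_zero, sub_zero, D.k_comm hH hw, sub_self, zero_inf] at h
  rw [D.Q_apply, inf_add, hw, h, add_zero]

/-- A Lie bracket in the slice through `μ` and close to `μ` is `μ`. -/
lemma Dual.slice (D : Dual μ ι) (hμ : IsLie μ) :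
    ∃ ε > 0, ∀ w : Bil V, ‖D.Q w‖ < ε → IsLie (μ + D.Q w) → D.Q w = 0 := by
  set C : ℝ := ∑ i, ‖μ‖ * ‖D.a i‖ * (3 * ‖D.e i‖) with hC
  have hC0 : 0 ≤ C := Finset.sum_nonneg fun i _ => by positivity
  refine ⟨1 / (C + 1), by positivity, fun w hw hL => ?_⟩
  set q := D.Q w with hq
  have qa : ∀ x y, q x y = -q y x := fun x y => by
    have h := hL.alt x y
    simp only [ContinuousLinearMap.add_apply] at h
    rw [hμ.alt x y] at h
    linear_combination (norm := abel1) h
  have wa : ∀ x y, w x y = -w y x := fun x y => by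
    have h := qa x y
    rw [hq, D.Q_apply] at h
    simp only [ContinuousLinearMap.add_apply] at h
    rw [hμ.inf_alt (D.k w) x y] at h
    linear_combination (norm := abel1) h
  have e1 : ∀ x y z, dd μ w x y z = -(q (q x y) z + q (q y z) x + q (q z x) y) := fun x y z => by
    have h1 := hL.jac x y z
    have h2 := hμ.jac x y z
    have h3 := hμ.dd_inf (D.k w) x y z
    have h4 : dd μ q x y z = dd μ w x y z + dd μ (inf (D.k w) μ) x y z := by
      rw [hq, D.Q_apply]
      simp only [dd, ContinuousLinearMap.add_apply, map_add]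
      abel
    rw [h3, add_zero] at h4
    rw [← h4]
    simp only [ContinuousLinearMap.add_apply, map_add] at h1
    simp only [dd]
    linear_combination (norm := abel1) h1 - h2
  have e2 : ∀ x y, q x y = ∑ i, μ (D.a i)
      (q (q (D.e i) x) y + q (q x y) (D.e i) + q (q y (D.e i)) x) := fun x y => by
    have h := D.homotopy hμ wa x y
    simp only [e1, map_neg, Finset.sum_neg_distrib] at h
    have : q x y = w x y + inf (D.k w) μ x y := by rw [hq, D.Q_apply]; rfl
    linear_combination (norm := abel1) this + h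
  have b3 : ∀ x y z, ‖q (q x y) z‖ ≤ ‖q‖ ^ 2 * (‖x‖ * ‖y‖ * ‖z‖) := fun x y z =>
    calc ‖q (q x y) z‖ ≤ ‖q‖ * ‖q x y‖ * ‖z‖ := q.le_opNorm₂ _ _
      _ ≤ ‖q‖ * (‖q‖ * ‖x‖ * ‖y‖) * ‖z‖ := by gcongr; exact q.le_opNorm₂ _ _
      _ = _ := by ring
  have hn : ‖q‖ ≤ C * ‖q‖ ^ 2 := by
    refine ContinuousLinearMap.opNorm_le_bound₂ _ (by positivity) fun x y => ?_
    rw [e2 x y, hC, Finset.sum_mul, Finset.sum_mul, Finset.sum_mul]
    refine norm_sum_le_of_le _ fun i _ => ?_
    refine (μ.le_opNorm₂ _ _).trans ?_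
    have : ‖q (q (D.e i) x) y + q (q x y) (D.e i) + q (q y (D.e i)) x‖ ≤
        3 * ‖D.e i‖ * ‖q‖ ^ 2 * ‖x‖ * ‖y‖ := by
      refine (norm_add₃_le).trans ?_
      have := b3 (D.e i) x y
      have := b3 x y (D.e i)
      have := b3 y (D.e i) x
      nlinarith
    calc ‖μ‖ * ‖D.a i‖ * _ ≤ ‖μ‖ * ‖D.a i‖ * (3 * ‖D.e i‖ * ‖q‖ ^ 2 * ‖x‖ * ‖y‖) := by gcongr
      _ = _ := by ring
  rw [lt_div_iff₀ (by positivity)] at hw
  have h0 := norm_nonneg q
  have : ‖q‖ = 0 := by
    by_contra hne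
    have hp : 0 < ‖q‖ := lt_of_le_of_ne h0 (Ne.symm hne)
    nlinarith
  exact norm_eq_zero.1 this

/-- Rigidity of semisimple brackets, equivariantly for a family of derivations. -/
theorem rigid (hμ : IsLie μ) (hn : (kil μ).Nondegenerate) (𝒜 : Set (V →L[ℝ] V))
    (hA : ∀ H ∈ 𝒜, inf H μ = 0) :
    ∀ᶠ ν in 𝓝 μ, IsLie ν → (∀ H ∈ 𝒜, inf H ν = 0) →
      ∃ u : V →L[ℝ] V, (∀ H ∈ 𝒜, H * u = u * H) ∧ ν = act (exp u) (exp (-u)) μ := by
  obtain ⟨D⟩ := exists_dual hn
  obtain ⟨ε, hε, hs⟩ := D.slice hμ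
  let S₂ : Submodule ℝ (Bil V) :=
    { carrier := {w | ∀ H ∈ 𝒜, inf H w = 0}
      add_mem' := fun hu hv H hH => by rw [inf_add, hu H hH, hv H hH, add_zero]
      zero_mem' := fun H hH => inf_zero H
      smul_mem' := fun c u hu H hH => by rw [inf_smul, hu H hH]; exact smul_zero c }
  let S₀ : Submodule ℝ (V →L[ℝ] V) :=
    { carrier := {u | ∀ H ∈ 𝒜, H * u = u * H}
      add_mem' := fun hu hv H hH => by rw [mul_add, add_mul, hu H hH, hv H hH]
      zero_mem' := fun H hH => by rw [mul_zero, zero_mul]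
      smul_mem' := fun c u hu H hH => by rw [mul_smul_comm, smul_mul_assoc, hu H hH] }
  let Φ : (V →L[ℝ] V) × Bil V → Bil V := fun p => act (exp p.1) (exp (-p.1)) (μ + D.Q p.2)
  have hΦ : ContDiff ℝ 1 Φ := by
    refine contDiff_clm_apply_iff.2 fun x => contDiff_clm_apply_iff.2 fun y => ?_
    have c2 : ContDiff ℝ 1 fun p : (V →L[ℝ] V) × Bil V => μ + D.Q p.2 :=
      contDiff_const.add (D.Q.contDiff.comp contDiff_snd)
    have c3 := contDiff_exp'.comp (contDiff_fst (𝕜 := ℝ) (E := V →L[ℝ] V) (F := Bil V))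
    have c4 := contDiff_exp'.comp (contDiff_fst (𝕜 := ℝ) (E := V →L[ℝ] V) (F := Bil V)).neg
    exact c3.clm_apply ((c2.clm_apply (c4.clm_apply contDiff_const)).clm_apply
      (c4.clm_apply contDiff_const))
  have hmem : ∀ p ∈ S₀.prod S₂, Φ p ∈ S₂ := fun p hp H hH => by
    refine inf_act ?_ ?_ ?_
    · exact (Commute.exp_right (hp.1 H hH))
    · exact (Commute.exp_right (Commute.neg_right (hp.1 H hH)))
    · rw [inf_add, hA H hH, D.Q_inv (hA H hH) (hp.2 H hH), add_zero]
  have hsurj : ∀ τ ∈ S₂, ∃ v ∈ S₀.prod S₂, HasDerivAt (fun t : ℝ => Φ (t • v)) τ 0 := by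
    intro τ hτ
    refine ⟨(-D.k τ, τ), ⟨fun H hH => ?_, hτ⟩, ?_⟩
    · change H * -D.k τ = -D.k τ * H
      rw [mul_neg, neg_mul, D.k_comm (hA H hH) (hτ H hH)]
    have h1 : HasDerivAt (fun t : ℝ => Φ (t • (-D.k τ, τ)))
        (deriv (fun t : ℝ => Φ (t • (-D.k τ, τ))) 0) 0 := by
      refine DifferentiableAt.hasDerivAt ?_
      exact (hΦ.differentiable one_ne_zero _).comp (0 : ℝ)
        (differentiableAt_id.smul_const (-D.k τ, τ))
    convert h1 using 1
    ext x y
    have h4 := (h1.clm_apply (hasDerivAt_const (0 : ℝ) x)).clm_apply (hasDerivAt_const (0 : ℝ) y)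
    simp only [map_zero, add_zero] at h4
    have h5 := hasDerivAt_act (-D.k τ) μ (D.Q τ) x y
    have h6 : (fun t : ℝ => Φ (t • (-D.k τ, τ)) x y) = fun t : ℝ => act (exp (t • -D.k τ))
        (exp (-(t • -D.k τ))) (μ + t • D.Q τ) x y := by
      ext t
      simp only [Φ, Prod.smul_fst, Prod.smul_snd, map_smul]
    rw [h6] at h4
    rw [h4.unique h5, D.Q_apply]
    simp only [inf_apply, ContinuousLinearMap.add_apply, ContinuousLinearMap.neg_apply, map_neg]
    abel
  have hΦ0 : Φ 0 = μ := by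
    simp only [Φ, Prod.fst_zero, Prod.snd_zero, neg_zero, exp_zero, map_zero, add_zero, act_one]
  have hU : {p : (V →L[ℝ] V) × Bil V | ‖D.Q p.2‖ < ε} ∈ 𝓝 (0 : (V →L[ℝ] V) × Bil V) := by
    refine (isOpen_lt (D.Q.continuous.comp continuous_snd).norm continuous_const).mem_nhds ?_
    simpa using hε
  have key := open_on_sub (S₀.prod S₂) S₂ hΦ hmem hsurj hU
  rw [hΦ0] at key
  filter_upwards [key] with ν hν hL hνA
  obtain ⟨p, hpS, hp, e⟩ := hν hνA
  have hL' : IsLie (μ + D.Q p.2) := by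
    have := hL.act (g := exp (-p.1)) (h := exp p.1) (exp_mul_neg _)
    rw [← e, act_act, exp_neg_mul, act_one] at this
    exact this
  refine ⟨p.1, hpS.1, ?_⟩
  rw [← e]
  simp only [Φ, hs _ hp hL', add_zero]

end Pool.Agent.P.MP_d483fb_an.Z.Car
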