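import Pool.Agent.P.MP_d483fb_an.Z.Br.CartanB

/-!
A bracket of minimal norm in the orbit of a semisimple bracket has a transposition-stable adjoint
representation.
-/

set_option linter.unusedSectionVars false
set_option linter.unusedVariables false
set_option linter.deprecated false

open NormedSpace Filter Topology
open scoped RealInnerProductSpace

noncomputable section

namespace Pool.Agent.P.MP_d483fb_an.Z.Car

section Det

variable {V : Type*} [NormedAddCommGroup V] [NormedSpace ℝ V] [FiniteDimensional ℝ V]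

lemma hasDerivAt_det_matrix {ι : Type} [Fintype ι] [DecidableEq ι] {M : ℝ → ι → ι → ℝ}
    {A : ι → ι → ℝ} (hM : HasDerivAt M A 0) (h0 : Matrix.of (M 0) = 1) :
    HasDerivAt (fun t => (Matrix.of (M t)).det) (Matrix.of A).trace 0 := by
  have hd : Differentiable ℝ fun N : ι → ι → ℝ => (Matrix.of N).det := by
    simp only [Matrix.det_apply', Matrix.of_apply]
    fun_prop
  have h1 := (hd (M 0)).hasFDerivAt.comp_hasDerivAt 0 hM
  have hl : HasDerivAt (fun t : ℝ => M 0 + t • A) A 0 := by
    simpa using ((hasDerivAt_id (0 : ℝ)).smul_const A).const_add (M 0)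
  have h2 := (hd (M 0)).hasFDerivAt.comp_hasDerivAt_of_eq 0 hl (by simp)
  have h3 : HasDerivAt ((fun N : ι → ι → ℝ => (Matrix.of N).det) ∘ fun t : ℝ => M 0 + t • A)
      (Matrix.of A).trace 0 := by
    have e : ((fun N : ι → ι → ℝ => (Matrix.of N).det) ∘ fun t : ℝ => M 0 + t • A) =
        fun t : ℝ => 1 + (Matrix.of A).trace * t + (Matrix.det (1 + (Polynomial.X : Polynomial ℝ) •
          (Matrix.of A).map Polynomial.C)).divX.divX.eval t * t ^ 2 := by
      ext t
      rw [← Matrix.det_one_add_smul, ← h0]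
      rfl
    rw [e]
    have h4 := (Polynomial.differentiable (Matrix.det (1 + (Polynomial.X : Polynomial ℝ) •
          (Matrix.of A).map Polynomial.C)).divX.divX 0).hasDerivAt.mul (hasDerivAt_pow 2 (0 : ℝ))
    have h5 := (((hasDerivAt_id (0 : ℝ)).const_mul (Matrix.of A).trace).const_add 1).add h4
    exact h5.congr_deriv (by simp)
  rw [h2.unique h3] at h1
  exact h1

lemma det_exp_eq_one {S : V →L[ℝ] V} (hS : tr S = 0) :
    LinearMap.det ((exp S : V →L[ℝ] V) : V →ₗ[ℝ] V) = 1 := by
  classical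
  let b := Module.finBasis ℝ V
  let φ : ℝ → ℝ := fun t => LinearMap.det ((exp (t • S) : V →L[ℝ] V) : V →ₗ[ℝ] V)
  have hadd : ∀ s t, φ (s + t) = φ s * φ t := fun s t => by
    simp only [φ]
    rw [add_smul, exp_add_comm (((Commute.refl S).smul_left s).smul_right t), ← map_mul]
    rfl
  let T : (V →L[ℝ] V) →L[ℝ] (Fin (Module.finrank ℝ V) → Fin (Module.finrank ℝ V) → ℝ) :=
    LinearMap.toContinuousLinearMap ((Matrix.ofLinearEquiv ℝ).symm.toLinearMap ∘ₗ
      (LinearMap.toMatrix b b).toLinearMap ∘ₗ ContinuousLinearMap.coeLM ℝ)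
  have hT : ∀ u, Matrix.of (T u) = LinearMap.toMatrix b b (u : V →ₗ[ℝ] V) := fun u => rfl
  have h0 : HasDerivAt φ 0 0 := by
    have h1 : HasDerivAt (fun t : ℝ => exp (t • S)) S 0 := by
      simpa using hasDerivAt_exp_smul_const (𝕂 := ℝ) S 0
    have h2 := hasDerivAt_det_matrix (T.hasFDerivAt.comp_hasDerivAt 0 h1) (by
      simp only [Function.comp, zero_smul, exp_zero, hT]
      exact LinearMap.toMatrix_id b)
    simp only [Function.comp, hT, LinearMap.det_toMatrix] at h2
    rw [← LinearMap.trace_eq_matrix_trace, ← tr_apply, hS] at h2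
    exact h2
  have hd : ∀ t, HasDerivAt φ 0 t := fun t => by
    have h1 : HasDerivAt (fun s => φ (s - t)) 0 t := by
      have := HasDerivAt.comp_sub_const t t (f := φ) (f' := 0) (by simpa using h0)
      exact this
    have h2 := h1.const_mul (φ t)
    simp only [← hadd, add_sub_cancel, mul_zero] at h2
    exact h2
  have := is_const_of_deriv_eq_zero (fun t => (hd t).differentiableAt) (fun t => (hd t).deriv) 1 0
  simp only [φ, one_smul, zero_smul, exp_zero] at this
  rw [this]
  exact LinearMap.det_id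

end Det

variable {V : Type*} [NormedAddCommGroup V] [InnerProductSpace ℝ V] [FiniteDimensional ℝ V]
  [CompleteSpace V] {ι : Type} [Fintype ι] (b : OrthonormalBasis ι ℝ V)

open ContinuousLinearMap in
/-- The inner product on bilinear maps. -/
def ip (ν w : Bil V) : ℝ := ∑ i, ∑ j, ⟪ν (b i) (b j), w (b i) (b j)⟫

lemma sum_adjoint (u : V →L[ℝ] V) (f g : V →L[ℝ] V) :
    ∑ i, ⟪f (u (b i)), g (b i)⟫ = ∑ i, ⟪f (b i), g (u.adjoint (b i))⟫ := by
  have h1 : ∀ i, ⟪f (u (b i)), g (b i)⟫ = ∑ k, ⟪b k, u (b i)⟫ * ⟪f (b k), g (b i)⟫ := fun i => by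
    conv_lhs => rw [← b.sum_repr' (u (b i))]
    simp only [map_sum, map_smul, sum_inner, real_inner_smul_left]
  have h2 : ∀ k, ⟪f (b k), g (u.adjoint (b k))⟫ =
      ∑ i, ⟪b k, u (b i)⟫ * ⟪f (b k), g (b i)⟫ := fun k => by
    conv_lhs => rw [← b.sum_repr' (u.adjoint (b k))]
    simp only [map_sum, map_smul, inner_sum, real_inner_smul_right,
      ContinuousLinearMap.adjoint_inner_right, real_inner_comm (b k)]
  simp only [h1, h2]
  exact Finset.sum_comm

lemma ip_inf (u : V →L[ℝ] V) (ν w : Bil V) : ip b (inf u ν) w = ip b ν (inf u.adjoint w) := by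
  simp only [ip, inf_apply, inner_sub_left, inner_sub_right, Finset.sum_sub_distrib,
    ContinuousLinearMap.adjoint_inner_right]
  congr 1
  · congr 1
    rw [Finset.sum_comm, Finset.sum_comm (f := fun i j => ⟪ν (b i) (b j), w (u.adjoint (b i)) (b j)⟫)]
    exact Finset.sum_congr rfl fun j _ => sum_adjoint b u (ν.flip (b j)) (w.flip (b j))
  · exact Finset.sum_congr rfl fun i _ => sum_adjoint b u (ν (b i)) (w (b i))

lemma ip_comm (ν w : Bil V) : ip b ν w = ip b w ν := by
  simp only [ip, real_inner_comm]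

lemma eq_zero_of_basis {ν : Bil V} (h : ∀ i j, ν (b i) (b j) = 0) : ν = 0 := by
  ext x y
  rw [← b.sum_repr' x, ← b.sum_repr' y]
  simp only [map_sum, map_smul, ContinuousLinearMap.sum_apply, ContinuousLinearMap.smul_apply, h,
    smul_zero, Finset.sum_const_zero, ContinuousLinearMap.zero_apply]

lemma norm_sq_le_ip (ν : Bil V) (i j : ι) : ‖ν (b i) (b j)‖ ^ 2 ≤ ip b ν ν := by
  simp only [ip, real_inner_self_eq_norm_sq]
  calc ‖ν (b i) (b j)‖ ^ 2 ≤ ∑ j, ‖ν (b i) (b j)‖ ^ 2 :=
        Finset.single_le_sum (f := fun j => ‖ν (b i) (b j)‖ ^ 2) (fun _ _ => by positivity)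
          (Finset.mem_univ j)
    _ ≤ _ := Finset.single_le_sum (f := fun i => ∑ j, ‖ν (b i) (b j)‖ ^ 2)
          (fun _ _ => by positivity) (Finset.mem_univ i)

lemma eq_zero_of_ip {ν : Bil V} (h : ip b ν ν = 0) : ν = 0 :=
  eq_zero_of_basis b fun i j => by
    have := norm_sq_le_ip b ν i j
    rw [h] at this
    exact norm_eq_zero.1 (by nlinarith [norm_nonneg (ν (b i) (b j))])

lemma continuous_ip : Continuous fun ν : Bil V => ip b ν ν := by
  simp only [ip]
  fun_prop

lemma isCompact_ip (c : ℝ) : IsCompact {ν : Bil V | ip b ν ν ≤ c} := by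
  let T : Bil V →ₗ[ℝ] (ι × ι → V) :=
    { toFun := fun ν p => ν (b p.1) (b p.2)
      map_add' := fun _ _ => rfl
      map_smul' := fun _ _ => rfl }
  have hT : LinearMap.ker T = ⊥ := LinearMap.ker_eq_bot'.2 fun ν hν =>
    eq_zero_of_basis b fun i j => congrFun hν (i, j)
  have hc := (LinearMap.isClosedEmbedding_of_injective hT).isCompact_preimage
    (isCompact_closedBall (0 : ι × ι → V) (|c| + 1))
  refine hc.of_isClosed_subset (isClosed_le (continuous_ip b) continuous_const) fun ν hν => ?_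
  simp only [Set.mem_preimage, mem_closedBall_zero_iff]
  refine (pi_norm_le_iff_of_nonneg (by positivity)).2 fun p => ?_
  have h1 := (norm_sq_le_ip b ν p.1 p.2).trans hν
  have h2 := le_abs_self c
  change ‖ν (b p.1) (b p.2)‖ ≤ _
  nlinarith [norm_nonneg (ν (b p.1) (b p.2)), abs_nonneg c]

lemma continuous_act (g h : V →L[ℝ] V) : Continuous fun ν : Bil V => act g h ν := by
  refine continuous_clm_apply.2 fun x => continuous_clm_apply.2 fun y => ?_
  simp only [act_apply]
  fun_prop

/-- In the orbit of a semisimple bracket there is one with transposition-stable `ad`. -/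
theorem exists_min {μ : Bil V} (hμ : IsLie μ) (hn : (kil μ).Nondegenerate)
    (𝒜 : Set (V →L[ℝ] V)) (hA : ∀ H ∈ 𝒜, inf H μ = 0)
    (hd : ∀ H ∈ 𝒜, ∀ i, ∃ c : ℝ, H (b i) = c • b i) :
    ∃ g h : V →L[ℝ] V, g * h = 1 ∧ h * g = 1 ∧ (∀ H ∈ 𝒜, H * g = g * H) ∧
      (∀ H ∈ 𝒜, H.adjoint = H) ∧ ∀ x, ∃ x', (act g h μ x).adjoint = act g h μ x' := by
  classical
  have hsa : ∀ H ∈ 𝒜, H.adjoint = H := fun H hH => by
    choose c hc using hd H hH
    symm
    rw [ContinuousLinearMap.eq_adjoint_iff]
    intro x y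
    rw [← b.sum_repr' x, ← b.sum_repr' y]
    simp only [map_sum, map_smul, hc, sum_inner, inner_sum, real_inner_smul_left,
      real_inner_smul_right, b.inner_eq_ite]
    refine Finset.sum_congr rfl fun i _ => Finset.sum_congr rfl fun j _ => ?_
    split_ifs with h
    · subst h; ring
    · ring
  let O : Set (Bil V) := {ν | ∃ g h : V →L[ℝ] V, g * h = 1 ∧ h * g = 1 ∧
    (∀ H ∈ 𝒜, H * g = g * H) ∧ (∀ H ∈ 𝒜, H * h = h * H) ∧
    LinearMap.det (h : V →ₗ[ℝ] V) = 1 ∧ ν = act g h μ}
  have hμO : μ ∈ O := ⟨1, 1, mul_one _, mul_one _, fun H _ => by simp, fun H _ => by simp,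
    LinearMap.det_id, (act_one μ).symm⟩
  let dk : Bil V → ℝ := fun ν => (LinearMap.BilinForm.toMatrix b.toBasis (kil ν)).det
  have cdk : Continuous dk := by
    refine Continuous.matrix_det (continuous_matrix fun i j => ?_)
    simp only [LinearMap.BilinForm.toMatrix_apply]
    exact continuous_kil _ _
  let P : Set (Bil V) := {ν | IsLie ν} ∩ ({ν | dk ν = dk μ} ∩ ⋂ H ∈ 𝒜, {ν | inf H ν = 0})
  have hPc : IsClosed P := by
    refine isClosed_isLie.inter ((isClosed_eq cdk continuous_const).inter ?_)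
    refine isClosed_biInter fun H _ => isClosed_eq ?_ continuous_const
    refine continuous_clm_apply.2 fun x => continuous_clm_apply.2 fun y => ?_
    simp only [inf_apply]
    fun_prop
  have hOP : O ⊆ P := by
    rintro _ ⟨g, h, h1, h2, h3, h4, h5, rfl⟩
    refine ⟨hμ.act h2, ?_, Set.mem_iInter₂.2 fun H hH => inf_act (h3 H hH) (h4 H hH) (hA H hH)⟩
    have e : kil (act g h μ) = (kil μ).comp (h : V →ₗ[ℝ] V) (h : V →ₗ[ℝ] V) := by
      ext x y
      exact kil_act h2 μ x y
    change dk (act g h μ) = dk μ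
    simp only [dk]
    rw [e, LinearMap.BilinForm.toMatrix_comp b.toBasis b.toBasis, Matrix.det_mul, Matrix.det_mul,
      Matrix.det_transpose, LinearMap.det_toMatrix, h5, one_mul, mul_one]
  obtain ⟨ν, ⟨hν1, hν2⟩, hmin⟩ := ((isCompact_ip b (ip b μ μ)).inter_right
    (isClosed_closure (s := O))).exists_isMinOn ⟨μ, le_refl (ip b μ μ), subset_closure hμO⟩
    (continuous_ip b).continuousOn
  have hmin' : ∀ w ∈ closure O, ip b ν ν ≤ ip b w w := fun w hw => by
    rcases le_total (ip b w w) (ip b μ μ) with h | h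
    · exact hmin ⟨h, hw⟩
    · exact le_trans hν1 h
  obtain ⟨hνL, hνd, hνA⟩ := closure_minimal hOP hPc hν2
  have hνA' : ∀ H ∈ 𝒜, inf H ν = 0 := fun H hH => Set.mem_iInter₂.1 hνA H hH
  have hνn : (kil ν).Nondegenerate := by
    rw [LinearMap.BilinForm.nondegenerate_iff_det_ne_zero b.toBasis] at hn ⊢
    exact fun h => hn (hνd.symm.trans h)
  have crit : ∀ S : V →L[ℝ] V, (∀ H ∈ 𝒜, H * S = S * H) → tr S = 0 → ip b (inf S ν) ν = 0 := by
    intro S hS htr
    have hmem : ∀ t : ℝ, act (exp (t • S)) (exp (-(t • S))) ν ∈ closure O := fun t => by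
      refine map_mem_closure (continuous_act _ _) hν2 ?_
      rintro _ ⟨g, h, h1, h2, h3, h4, h5, rfl⟩
      have c1 : ∀ H ∈ 𝒜, Commute H (t • S) := fun H hH => Commute.smul_right (hS H hH) t
      refine ⟨_, _, ?_, ?_, fun H hH => ?_, fun H hH => ?_, ?_, act_act _ _ _ _ _⟩
      · rw [mul_assoc, ← mul_assoc g, h1, one_mul, exp_mul_neg]
      · rw [mul_assoc, ← mul_assoc (exp _), exp_neg_mul, one_mul, h2]
      · exact Commute.mul_right (c1 H hH).exp_right (h3 H hH)
      · exact Commute.mul_right (h4 H hH) (c1 H hH).neg_right.exp_right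
      · have : ((h * exp (-(t • S)) : V →L[ℝ] V) : V →ₗ[ℝ] V) =
            (h : V →ₗ[ℝ] V) * ((exp (-(t • S)) : V →L[ℝ] V) : V →ₗ[ℝ] V) := rfl
        rw [this, map_mul, h5, det_exp_eq_one (by simp [htr]), one_mul]
    have hloc : IsLocalMin (fun t : ℝ => ip b (act (exp (t • S)) (exp (-(t • S))) ν)
        (act (exp (t • S)) (exp (-(t • S))) ν)) 0 := by
      refine Filter.Eventually.of_forall fun t => ?_
      simp only [zero_smul, neg_zero, exp_zero, act_one]
      exact hmin' _ (hmem t)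
    have hder : HasDerivAt (fun t : ℝ => ip b (act (exp (t • S)) (exp (-(t • S))) ν)
        (act (exp (t • S)) (exp (-(t • S))) ν)) (ip b ν (inf S ν) + ip b (inf S ν) ν) 0 := by
      simp only [ip, ← Finset.sum_add_distrib]
      refine HasDerivAt.fun_sum fun i _ => HasDerivAt.fun_sum fun j _ => ?_
      have h1 := hasDerivAt_act S ν 0 (b i) (b j)
      have z : ∀ t : ℝ, ν + t • (0 : Bil V) = ν := fun t => by ext x y; simp
      simp only [z, ContinuousLinearMap.zero_apply, add_zero] at h1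
      have h2 := h1.inner ℝ h1
      simpa only [zero_smul, neg_zero, exp_zero, act_one] using h2
    have := hloc.hasDerivAt_eq_zero hder
    rw [ip_comm b ν] at this
    linarith
  have hder : ∀ i, inf (ν (b i)).adjoint ν = 0 := fun i => by
    set u := ν (b i) with hu
    have h0 : inf u ν = 0 := hνL.inf_ad _
    have h1 := crit (u * u.adjoint - u.adjoint * u) (fun H hH => ?_)
      (by rw [map_sub, tr_mul_comm, sub_self])
    · rw [← inf_inf, h0, inf_zero, sub_zero, ip_inf] at h1
      exact eq_zero_of_ip b h1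
    obtain ⟨c, hc⟩ := hd H hH i
    have e1 : H * u = u * H + c • u := by
      ext y
      have h : inf H ν (b i) y = 0 := by rw [hνA' H hH]; rfl
      rw [inf_apply, hc, map_smul] at h
      simp only [ContinuousLinearMap.add_apply, ContinuousLinearMap.mul_apply,
        ContinuousLinearMap.smul_apply] at h ⊢
      linear_combination (norm := abel1) h
    have e2 : u.adjoint * H = H * u.adjoint + c • u.adjoint := by
      have := congrArg star e1
      simpa only [star_mul, star_add, star_smul, ContinuousLinearMap.star_eq_adjoint, hsa H hH,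
        star_trivial] using this
    have e3 : H * u.adjoint = u.adjoint * H - c • u.adjoint := by rw [e2]; abel
    generalize u.adjoint = v at e2 e3 ⊢
    have f1 : H * (u * v) = u * v * H := by
      rw [← mul_assoc, e1, add_mul, mul_assoc u H v, mul_assoc u v H, e2, mul_add,
        smul_mul_assoc, mul_smul_comm]
    have f2 : H * (v * u) = v * u * H := by
      rw [← mul_assoc, e3, sub_mul, mul_assoc v H u, e1, mul_add, smul_mul_assoc, mul_smul_comm,
        mul_assoc v u H]
      abel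
    rw [mul_sub, sub_mul, f1, f2]
  obtain ⟨D⟩ := exists_dual hνn
  have hadj : ∀ x, ∃ x', (ν x).adjoint = ν x' := fun x => by
    choose y hy using fun i => (⟨_, D.inner hνL (hder i)⟩ : ∃ y, (ν (b i)).adjoint = ν y)
    refine ⟨∑ i, ⟪b i, x⟫ • y i, ?_⟩
    conv_lhs => rw [← b.sum_repr' x]
    simp only [map_sum, map_smul, ← hy]
  obtain ⟨w, hw1, g, h, h1, h2, h3, h4, h5, rfl⟩ :=
    mem_closure_iff_nhds.1 hν2 _ (rigid hνL hνn 𝒜 hνA')
  obtain ⟨hL, -, hI⟩ := hOP ⟨g, h, h1, h2, h3, h4, h5, rfl⟩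
  obtain ⟨u, hu, e⟩ := hw1 hL fun H hH => Set.mem_iInter₂.1 hI H hH
  have e' : act (exp (-u) * g) (h * exp u) μ = ν := by
    rw [← act_act, e, act_act, exp_neg_mul, act_one]
  refine ⟨exp (-u) * g, h * exp u, ?_, ?_, fun H hH => ?_, hsa, ?_⟩
  · rw [mul_assoc, ← mul_assoc g, h1, one_mul, exp_neg_mul]
  · rw [mul_assoc, ← mul_assoc (exp _), exp_mul_neg, one_mul, h2]
  · exact Commute.mul_right (Commute.neg_right (hu H hH)).exp_right (h3 H hH)
  · rw [e']
    exact hadj

end Pool.Agent.P.MP_d483fb_an.Z.Car
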