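import Mathlib

/-!
One parameter subgroups of a Lie group: global integral curves of invariant vector fields.
-/

set_option backward.isDefEq.respectTransparency false

open scoped Manifold ContDiff Topology
open Set Filter

noncomputable section

namespace Pool.Agent.P.MP_d483fb_an.Z

variable {E : Type*} [NormedAddCommGroup E] [NormedSpace ℝ E] {H : Type*} [TopologicalSpace H]
  {I : ModelWithCorners ℝ E H} {G : Type*} [TopologicalSpace G] [ChartedSpace H G] [Group G]
  [LieGroup I (minSmoothness ℝ 3) G]

theorem lie_isManifold_one : IsManifold I 1 G :=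
  IsManifold.of_le (n := minSmoothness ℝ 3) (le_trans (by norm_num) le_minSmoothness)

theorem mdifferentiableAt_mul_left' (g h : G) : MDifferentiableAt I I (fun x => g * x) h :=
  (contMDiff_mul_left (I := I) (n := minSmoothness ℝ 3) (a := g)).contMDiffAt.mdifferentiableAt
    (lt_of_lt_of_le (by simp) le_minSmoothness).ne'

theorem mfderiv_mulInvariantVectorField (X : GroupLieAlgebra I G) (g h : G) :
    mfderiv I I (fun x => g * x) h (mulInvariantVectorField X h) =
      mulInvariantVectorField X (g * h) := by
  have D : (fun x => g * h * x) = (fun x => g * x) ∘ fun x => h * x := by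
    ext x
    simp only [Function.comp_apply, mul_assoc]
  have h1 : HasMFDerivAt I I (fun x => g * x) ((fun x => h * x) 1)
      (mfderiv I I (fun x => g * x) h) := by
    have e : (fun x => h * x) 1 = h := mul_one h
    rw [e]
    exact (mdifferentiableAt_mul_left' g h).hasMFDerivAt
  have h2 := (h1.comp 1 (mdifferentiableAt_mul_left' (I := I) h 1).hasMFDerivAt).mfderiv
  rw [← D] at h2
  exact (DFunLike.congr_fun h2 X).symm

theorem contMDiff_one_mulInvariantVectorField (X : GroupLieAlgebra I G) :
    haveI := lie_isManifold_one (I := I) (G := G)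
    ContMDiff I I.tangent 1 fun x => (⟨x, mulInvariantVectorField X x⟩ : TangentBundle I G) :=
  (contMDiff_mulInvariantVectorField X).of_le (le_trans (by norm_num) le_minSmoothness)

theorem isMIntegralCurveOn_mul_left {X : GroupLieAlgebra I G} {γ : ℝ → G} {s : Set ℝ}
    (hγ : IsMIntegralCurveOn γ (mulInvariantVectorField X) s) (g : G) :
    IsMIntegralCurveOn (fun t => g * γ t) (mulInvariantVectorField X) s := by
  intro t ht
  have h := (mdifferentiableAt_mul_left' (I := I) g (γ t)).hasMFDerivAt.comp_hasMFDerivWithinAt t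
    (hγ t ht)
  refine HasMFDerivWithinAt.congr_mfderiv h ?_
  ext
  simp only [ContinuousLinearMap.comp_apply, ContinuousLinearMap.smulRight_apply,
    one_apply_eq_self, one_smul]
  exact mfderiv_mulInvariantVectorField X g (γ t)

theorem isMIntegralCurve_mul_left {X : GroupLieAlgebra I G} {γ : ℝ → G}
    (hγ : IsMIntegralCurve γ (mulInvariantVectorField X)) (g : G) :
    IsMIntegralCurve (fun t => g * γ t) (mulInvariantVectorField X) :=
  isMIntegralCurve_iff_isMIntegralCurveOn.2
    (isMIntegralCurveOn_mul_left (hγ.isMIntegralCurveOn univ) g)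

variable [BoundarylessManifold I G] [T2Space G]

theorem exists_curve [CompleteSpace E] (X : GroupLieAlgebra I G) :
    ∃ γ : ℝ → G, γ 0 = 1 ∧ IsMIntegralCurve γ (mulInvariantVectorField X) := by
  haveI := lie_isManifold_one (I := I) (G := G)
  have hv := contMDiff_one_mulInvariantVectorField X
  obtain ⟨γ, h0, hγ⟩ := exists_isMIntegralCurveAt_of_contMDiffAt_boundaryless (0 : ℝ)
    (hv.contMDiffAt (x := 1))
  obtain ⟨ε, hε, hγ⟩ := isMIntegralCurveAt_iff'.1 hγ
  rw [Real.ball_eq_Ioo, zero_sub, zero_add] at hγ
  exact exists_isMIntegralCurve_of_isMIntegralCurveOn hv hε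
    (fun g => ⟨fun t => g * γ t, by simp only [h0, mul_one], isMIntegralCurveOn_mul_left hγ g⟩) 1

theorem curve_unique {X : GroupLieAlgebra I G} {γ γ' : ℝ → G}
    (hγ : IsMIntegralCurve γ (mulInvariantVectorField X))
    (hγ' : IsMIntegralCurve γ' (mulInvariantVectorField X)) (h : γ 0 = γ' 0) : γ = γ' :=
  haveI := lie_isManifold_one (I := I) (G := G)
  isMIntegralCurve_Ioo_eq_of_contMDiff_boundaryless (contMDiff_one_mulInvariantVectorField X)
    hγ hγ' h

theorem curve_add (X : GroupLieAlgebra I G) (γ : ℝ → G) (h0 : γ 0 = 1)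
    (hγ : IsMIntegralCurve γ (mulInvariantVectorField X)) (s t : ℝ) :
    γ (s + t) = γ s * γ t := by
  have h := curve_unique (hγ.comp_add s) (isMIntegralCurve_mul_left hγ (γ s))
    (by simp only [Function.comp_apply, zero_add, h0, mul_one])
  have := congrFun h t
  simpa only [Function.comp_apply, add_comm t s] using this

end Pool.Agent.P.MP_d483fb_an.Z
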