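import Mathlib

/-!
The objects in the statement: real rank, dimension of a closed subgroup, the numbers `v(G)` and
`d(G)`, lattices.
-/

open scoped Manifold TensorProduct
open MeasureTheory

attribute [local instance 100] LieRing.ofAssociativeRing

namespace Pool.Agent.P.MP_d483fb_an.Z

/-- The real rank: the largest dimension of an abelian subalgebra all of whose elements have an
adjoint action that is diagonalisable over the reals. -/
noncomputable def realRank (L : Type) [LieRing L] [LieAlgebra ℝ L] : ℕ :=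
  sSup {k | ∃ a : LieSubalgebra ℝ L, IsLieAbelian a ∧
    (∀ X ∈ a, ⨆ c : ℝ, (LieAlgebra.ad ℝ L X).eigenspace c = ⊤) ∧ Module.finrank ℝ a = k}

/-- The dimension of the Lie subalgebra generated by a set. -/
noncomputable def dimSpan {L : Type} [LieRing L] [LieAlgebra ℝ L] (S : Set L) : ℕ :=
  Module.finrank ℝ (LieSubalgebra.lieSpan ℝ L S)

/-- The dimension of a closed subgroup `H` of a Lie group: the dimension of its Lie algebra, which
consists of the generators of the one parameter subgroups contained in `H`. -/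
noncomputable def dimSub (E : Type) [NormedAddCommGroup E] [NormedSpace ℝ E] [CompleteSpace E]
    {G : Type} [Group G] [TopologicalSpace G] [ChartedSpace E G]
    [LieGroup 𝓘(ℝ, E) (minSmoothness ℝ 3) G] (H : Subgroup G) : ℕ :=
  dimSpan {X : GroupLieAlgebra 𝓘(ℝ, E) G |
    ∃ γ : ℝ → G, γ 0 = 1 ∧ IsMIntegralCurve γ (mulInvariantVectorField X) ∧ ∀ t, γ t ∈ H}

/-- `v(G)`: the least codimension of a proper closed subgroup. -/
noncomputable def vNum (E : Type) [NormedAddCommGroup E] [NormedSpace ℝ E] [CompleteSpace E]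
    (G : Type) [Group G] [TopologicalSpace G] [ChartedSpace E G]
    [LieGroup 𝓘(ℝ, E) (minSmoothness ℝ 3) G] : ℕ∞ :=
  ⨅ (H : Subgroup G) (_ : IsClosed (H : Set G)) (_ : H ≠ ⊤),
    ((Module.finrank ℝ E - dimSub E H : ℕ) : ℕ∞)

/-- The Lie algebra of a closed group of orthogonal matrices. -/
noncomputable def lieO {N : ℕ} (K : Subgroup (Matrix.orthogonalGroup (Fin N) ℝ)) :
    LieSubalgebra ℝ (Matrix (Fin N) (Fin N) ℝ) :=
  LieSubalgebra.lieSpan ℝ (Matrix (Fin N) (Fin N) ℝ)
    {X | ∀ t : ℝ, ∃ k ∈ K, k.1 = NormedSpace.exp (t • X)}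

/-- The dimension of a closed group of orthogonal matrices. -/
noncomputable def dimO {N : ℕ} (K : Subgroup (Matrix.orthogonalGroup (Fin N) ℝ)) : ℕ :=
  Module.finrank ℝ (lieO K)

/-- `A` is a real form of a simple factor of the complexification of `L`. -/
def IsFormOf (A L : Type) [LieRing A] [LieAlgebra ℝ A] [LieRing L] [LieAlgebra ℝ L] : Prop :=
  ∃ I : LieIdeal ℂ (ℂ ⊗[ℝ] L), IsAtom I ∧ Nonempty ((ℂ ⊗[ℝ] A) ≃ₗ⁅ℂ⁆ I)

/-- `K` is a compact real form of a simple factor of the complexification of `L`: a compact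
connected group of orthogonal matrices whose complexified Lie algebra is isomorphic to a simple
ideal of the complexification of `L`. -/
def IsCompactForm (L : Type) [LieRing L] [LieAlgebra ℝ L] {N : ℕ}
    (K : Subgroup (Matrix.orthogonalGroup (Fin N) ℝ)) : Prop :=
  IsCompact (K : Set (Matrix.orthogonalGroup (Fin N) ℝ)) ∧
    IsConnected (K : Set (Matrix.orthogonalGroup (Fin N) ℝ)) ∧ IsFormOf (lieO K) L

/-- `d(G)`: the least dimension of a quotient `K / C` of a compact real form `K` of a simple factor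
of the complexification of `L` by a proper closed subgroup `C`. -/
noncomputable def dNum (L : Type) [LieRing L] [LieAlgebra ℝ L] : ℕ∞ :=
  ⨅ (N : ℕ) (K : Subgroup (Matrix.orthogonalGroup (Fin N) ℝ)) (_ : IsCompactForm L K)
    (C : Subgroup (Matrix.orthogonalGroup (Fin N) ℝ))
    (_ : IsClosed (C : Set (Matrix.orthogonalGroup (Fin N) ℝ))) (_ : C < K),
    ((dimO K - dimO C : ℕ) : ℕ∞)

/-- A lattice: a discrete subgroup whose quotient carries an invariant Borel probability measure. -/
def IsLattice {G : Type} [Group G] [TopologicalSpace G] (Γ : Subgroup G) : Prop :=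
  DiscreteTopology Γ ∧
    letI : MeasurableSpace (G ⧸ Γ) := borel (G ⧸ Γ)
    ∃ μ : Measure (G ⧸ Γ), IsProbabilityMeasure μ ∧ SMulInvariantMeasure G (G ⧸ Γ) μ

end Pool.Agent.P.MP_d483fb_an.Z
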