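import Pool.Agent.P.MP_d483fb_an.Z.Br.Trans

/-!
Compact monoids of orthogonal matrices are groups; the condition `m < d(G)`; second countability
of connected Lie groups.
-/

open scoped Matrix TensorProduct Topology Pointwise
open Set Module

attribute [local instance 100] LieRing.ofAssociativeRing

noncomputable section

namespace Pool.Agent.P.MP_d483fb_an.Z

theorem transpose_mem_of_isCompact {N : ℕ} {K : Submonoid (Mat N)}
    (hK : IsCompact (K : Set (Mat N))) (ho : ∀ k ∈ K, k * kᵀ = 1) {x : Mat N} (hx : x ∈ K) :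
    xᵀ ∈ K := by
  obtain ⟨m, ⟨c, hc, rfl⟩, hm⟩ := exists_idempotent_in_compact_subsemigroup
    (M := Mat N) (fun r => continuous_id.mul continuous_const) ((fun c => x * c) '' (K : Set (Mat N)))
    ⟨x * 1, 1, K.one_mem, rfl⟩ (hK.image (continuous_const.mul continuous_id)) (by
      rintro _ ⟨c, hc, rfl⟩ _ ⟨c', hc', rfl⟩
      exact ⟨c * (x * c'), K.mul_mem hc (K.mul_mem hx hc'), (mul_assoc _ _ _).symm⟩)
  have h1 : x * c * (x * c)ᵀ = 1 := ho _ (K.mul_mem hx hc)
  have h2 : x * c = 1 := by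
    have h3 : x * c * (x * c) * (x * c)ᵀ = x * c * (x * c)ᵀ := congrArg (· * (x * c)ᵀ) hm
    rwa [mul_assoc (x * c), h1, mul_one] at h3
  have h4 : xᵀ * x = 1 := mul_eq_one_comm.1 (ho x hx)
  have h5 : xᵀ = c := by rw [← mul_one xᵀ, ← h2, ← mul_assoc, h4, one_mul]
  rwa [h5]

/-- A compact monoid of orthogonal matrices, as a subgroup of the orthogonal group. -/
def toO {N : ℕ} (K : Submonoid (Mat N)) (hK : IsCompact (K : Set (Mat N)))
    (ho : ∀ k ∈ K, k * kᵀ = 1) : Subgroup (Matrix.orthogonalGroup (Fin N) ℝ) where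
  carrier := {x | x.1 ∈ K}
  one_mem' := K.one_mem
  mul_mem' hx hy := K.mul_mem hx hy
  inv_mem' {x} hx := by
    have h : (x⁻¹).1 = x.1ᵀ := by
      rw [← Matrix.conjTranspose_eq_transpose_of_trivial]
      rfl
    change (x⁻¹).1 ∈ K
    rw [h]
    exact transpose_mem_of_isCompact hK ho hx

theorem image_toO {N : ℕ} (K : Submonoid (Mat N)) (hK : IsCompact (K : Set (Mat N)))
    (ho : ∀ k ∈ K, k * kᵀ = 1) :
    Subtype.val '' (toO K hK ho : Set (Matrix.orthogonalGroup (Fin N) ℝ)) = K := by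
  ext x
  constructor
  · rintro ⟨y, hy, rfl⟩
    exact hy
  · intro hx
    exact ⟨⟨x, (Matrix.mem_orthogonalGroup_iff _ _).2 (ho x hx)⟩, hx, rfl⟩

theorem lieO_toO {N : ℕ} (K : Submonoid (Mat N)) (hK : IsCompact (K : Set (Mat N)))
    (ho : ∀ k ∈ K, k * kᵀ = 1) : lieO (toO K hK ho) = lieAlg (K : Set (Mat N)) := by
  rw [← image_toO K hK ho]
  rfl

theorem ltD_of_lt_dNum {G : Type} [Group G] [TopologicalSpace G] {n : ℕ} (D : HigherRank G n)
    {L : Type} [LieRing L] [LieAlgebra ℝ L] (e : L ≃ₗ⁅ℝ⁆ lieAlg (range D.ρ)) {m : ℕ}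
    (hm : (m : ℕ∞) < dNum L) : D.ltD m := by
  rintro N K C hK hc ho hC hlt ⟨I, hI, ⟨f⟩⟩
  have hC' : IsCompact (C : Set (Mat N)) := hK.of_isClosed_subset hC hlt.le
  have ho' : ∀ k ∈ C, k * kᵀ = 1 := fun k hk => ho k (hlt.le hk)
  have hv : Topology.IsInducing
      (Subtype.val : Matrix.orthogonalGroup (Fin N) ℝ → Mat N) := Topology.IsInducing.subtypeVal
  have h1 : IsCompactForm L (toO K hK ho) := by
    refine ⟨hv.isCompact_iff.2 (by rwa [image_toO]), ⟨⟨1, Subgroup.one_mem _⟩,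
      hv.isPreconnected_image.1 (by rw [image_toO]; exact hc.2)⟩,
      idealIso (cxEquiv e) I, ((idealIso (cxEquiv e)).isAtom_iff I).2 hI, ?_⟩
    rw [lieO_toO]
    exact ⟨f.trans (idealEquiv (cxEquiv e) I).symm⟩
  have h2 : IsClosed (toO C hC' ho' : Set (Matrix.orthogonalGroup (Fin N) ℝ)) :=
    hC.preimage continuous_subtype_val
  have h3 : toO C hC' ho' < toO K hK ho := by
    refine lt_of_le_of_ne (fun x hx => hlt.le hx) fun h => hlt.ne ?_
    apply SetLike.coe_injective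
    rw [← image_toO C hC' ho', h, image_toO]
  have h4 : dNum L ≤ ((dimO (toO K hK ho) - dimO (toO C hC' ho') : ℕ) : ℕ∞) :=
    iInf_le_of_le N (iInf_le_of_le _ (iInf_le_of_le h1 (iInf_le_of_le _ (iInf_le_of_le h2
      (iInf_le_of_le h3 le_rfl)))))
  have h5 := ENat.natCast_lt_natCast.1 (hm.trans_le h4)
  rwa [dimO, dimO, lieO_toO, lieO_toO] at h5

theorem sigmaCompact_of_connected (G : Type*) [Group G] [TopologicalSpace G]
    [IsTopologicalGroup G] [ConnectedSpace G] [LocallyCompactSpace G] : SigmaCompactSpace G := by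
  obtain ⟨K, hK, h1⟩ := exists_compact_mem_nhds (1 : G)
  have hS : IsCompact (K ∪ K⁻¹) := hK.union hK.inv
  have hp : ∀ j : ℕ, IsCompact ((K ∪ K⁻¹) ^ j) := by
    intro j
    induction j with
    | zero =>
      rw [pow_zero]
      exact isCompact_singleton
    | succ j ih =>
      rw [pow_succ]
      exact ih.mul hS
  have htop : Subgroup.closure K = ⊤ := by
    have ho : IsOpen (Subgroup.closure K : Set G) :=
      Subgroup.isOpen_of_mem_nhds _ (Filter.mem_of_superset h1 Subgroup.subset_closure)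
    have hc : IsClopen (Subgroup.closure K : Set G) := ⟨Subgroup.isClosed_of_isOpen _ ho, ho⟩
    exact SetLike.coe_injective (hc.eq_univ ⟨1, Subgroup.one_mem _⟩)
  refine ⟨isSigmaCompact_univ_iff.2 (SigmaCompactSpace.of_countable
    (range fun j : ℕ => (K ∪ K⁻¹) ^ j) (countable_range _) ?_ ?_)⟩
  · rintro _ ⟨j, rfl⟩
    exact hp j
  · rw [eq_univ_iff_forall]
    intro g
    have hg : g ∈ (Subgroup.closure K).toSubmonoid := by
      rw [htop]
      exact Subgroup.mem_top g
    rw [Subgroup.closure_toSubmonoid] at hg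
    induction hg using Submonoid.closure_induction with
    | mem x hx => exact ⟨_, ⟨1, rfl⟩, by simpa only [pow_one] using hx⟩
    | one => exact ⟨_, ⟨0, rfl⟩, by simpa only [pow_zero] using Set.mem_one.2 rfl⟩
    | mul x y _ _ hx hy =>
      obtain ⟨_, ⟨i, rfl⟩, hi⟩ := hx
      obtain ⟨_, ⟨j, rfl⟩, hj⟩ := hy
      exact ⟨_, ⟨i + j, rfl⟩, by simpa only [pow_add] using Set.mul_mem_mul hi hj⟩

end Pool.Agent.P.MP_d483fb_an.Z
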