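import Pool.Agent.P.MP_d483fb_an.Z.Stmt
import Pool.Agent.P.MP_d483fb_an.Z.Br.Final
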