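import Pool.Agent.P.MP_d483fb_an.Z.Br.Stmt
import Pool.Agent.P.MP_d483fb_an.Z.Br.Aut

/-!
Transfer of ideals, complexifications and split subalgebras along isomorphisms of Lie algebras.
-/

open scoped Matrix TensorProduct Topology
open Set Module

attribute [local instance 100] LieRing.ofAssociativeRing

noncomputable section

namespace Pool.Agent.P.MP_d483fb_an.Z

section Ideals

variable {K A B : Type*} [CommRing K] [LieRing A] [LieAlgebra K A] [LieRing B] [LieAlgebra K B]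

/-- An isomorphism of Lie algebras identifies the lattices of ideals. -/
def idealIso (e : A ≃ₗ⁅K⁆ B) : LieIdeal K B ≃o LieIdeal K A where
  toFun I := LieIdeal.comap (e : A →ₗ⁅K⁆ B) I
  invFun J := LieIdeal.comap (e.symm : B →ₗ⁅K⁆ A) J
  left_inv I := by
    ext x
    simp
  right_inv J := by
    ext x
    simp
  map_rel_iff' {I J} := by
    refine ⟨fun h x hx => ?_, fun h => LieIdeal.comap_mono h⟩
    have h1 : e.symm x ∈ LieIdeal.comap (e : A →ₗ⁅K⁆ B) I := by simpa using hx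
    simpa using h h1

theorem mem_idealIso (e : A ≃ₗ⁅K⁆ B) (I : LieIdeal K B) (x : A) :
    x ∈ idealIso e I ↔ e x ∈ I := Iff.rfl

/-- The restriction of an isomorphism to an ideal. -/
def idealEquiv (e : A ≃ₗ⁅K⁆ B) (I : LieIdeal K B) : idealIso e I ≃ₗ⁅K⁆ I where
  toFun x := ⟨e x.1, x.2⟩
  invFun y := ⟨e.symm y.1, by
    rw [mem_idealIso, LieEquiv.apply_symm_apply]
    exact y.2⟩
  map_add' x y := Subtype.ext (map_add e x.1 y.1)
  map_smul' c x := Subtype.ext (map_smul e c x.1)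
  map_lie' {x y} := Subtype.ext (e.map_lie x.1 y.1)
  left_inv x := Subtype.ext (e.symm_apply_apply x.1)
  right_inv y := Subtype.ext (e.apply_symm_apply y.1)

end Ideals

section Complex

variable {A B : Type*} [LieRing A] [LieAlgebra ℝ A] [LieRing B] [LieAlgebra ℝ B]

/-- The complexification of an isomorphism of real Lie algebras. -/
def cxEquiv (e : A ≃ₗ⁅ℝ⁆ B) : (ℂ ⊗[ℝ] A) ≃ₗ⁅ℂ⁆ (ℂ ⊗[ℝ] B) :=
  { LinearEquiv.baseChange ℝ ℂ A B e.toLinearEquiv with
    map_lie' := fun {x y} => by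
      have h : ∀ z, LinearEquiv.baseChange ℝ ℂ A B e.toLinearEquiv z =
          LieAlgebra.ExtendScalars.map (AlgHom.id ℝ ℂ) (e : A →ₗ⁅ℝ⁆ B) z := by
        intro z
        induction z using TensorProduct.induction_on with
        | zero => rw [map_zero, map_zero]
        | add z₁ z₂ h₁ h₂ => rw [map_add, map_add, h₁, h₂]
        | tmul a z => rfl
      change LinearEquiv.baseChange ℝ ℂ A B e.toLinearEquiv ⁅x, y⁆ =
        ⁅LinearEquiv.baseChange ℝ ℂ A B e.toLinearEquiv x,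
          LinearEquiv.baseChange ℝ ℂ A B e.toLinearEquiv y⁆
      rw [h, h, h]
      exact LieHom.map_lie _ x y }

end Complex

section Split

variable {L : Type} [LieRing L] [LieAlgebra ℝ L]

theorem diag_of_ideal [LieAlgebra.IsSemisimple ℝ L] (I : LieIdeal ℝ L) (X : I)
    (h : ⨆ c : ℝ, (LieAlgebra.ad ℝ I X).eigenspace c = ⊤) :
    ⨆ c : ℝ, (LieAlgebra.ad ℝ L X.1).eigenspace c = ⊤ := by
  rw [eq_top_iff]
  intro Y _
  have hc : IsCompl I Iᶜ := isCompl_compl
  have hY : Y ∈ I ⊔ Iᶜ := by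
    rw [hc.sup_eq_top]
    exact LieSubmodule.mem_top Y
  obtain ⟨y, hy, z, hz, rfl⟩ := (LieSubmodule.mem_sup _ _ _).1 hY
  refine Submodule.add_mem _ ?_ ?_
  · have h1 : (⟨y, hy⟩ : I) ∈ ⨆ c : ℝ, (LieAlgebra.ad ℝ I X).eigenspace c := by
      rw [h]
      exact Submodule.mem_top
    have h2 : (⨆ c : ℝ, (LieAlgebra.ad ℝ I X).eigenspace c) ≤
        (⨆ c : ℝ, (LieAlgebra.ad ℝ L X.1).eigenspace c).comap I.incl.toLinearMap := by
      refine iSup_le fun c w hw => ?_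
      refine Submodule.mem_iSup_of_mem c ?_
      rw [End.mem_eigenspace_iff] at hw ⊢
      exact congrArg Subtype.val hw
    exact h2 h1
  · refine Submodule.mem_iSup_of_mem 0 ?_
    rw [End.mem_eigenspace_iff, zero_smul, LieAlgebra.ad_apply]
    have h1 : ⁅X.1, z⁆ ∈ I ⊓ Iᶜ :=
      (LieSubmodule.mem_inf _ _ _).2 ⟨lie_mem_left ℝ L I _ _ X.2, LieSubmodule.lie_mem _ hz⟩
    rw [hc.inf_eq_bot] at h1
    exact (LieSubmodule.mem_bot _).1 h1

theorem exists_pair_of_realRank [Module.Finite ℝ L] (h : 2 ≤ realRank L) :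
    ∃ X Y : L, LinearIndependent ℝ ![X, Y] ∧ ⁅X, Y⁆ = 0 ∧
      ⨆ c : ℝ, (LieAlgebra.ad ℝ L X).eigenspace c = ⊤ ∧
      ⨆ c : ℝ, (LieAlgebra.ad ℝ L Y).eigenspace c = ⊤ := by
  let S : Set ℕ := {k | ∃ a : LieSubalgebra ℝ L, IsLieAbelian a ∧
    (∀ X ∈ a, ⨆ c : ℝ, (LieAlgebra.ad ℝ L X).eigenspace c = ⊤) ∧ Module.finrank ℝ a = k}
  have hb : BddAbove S := by
    refine ⟨finrank ℝ L, ?_⟩
    rintro k ⟨a, -, -, rfl⟩
    exact a.toSubmodule.finrank_le
  have hne : S.Nonempty := by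
    by_contra hS
    rw [not_nonempty_iff_eq_empty] at hS
    have h0 : realRank L = 0 := by
      change sSup S = 0
      rw [hS]
      exact csSup_empty
    omega
  obtain ⟨a, ha, hd, hk⟩ := Nat.sSup_mem hne hb
  have h2 : 2 ≤ finrank ℝ a := hk ▸ h
  obtain ⟨f, hf⟩ := exists_linearIndependent_of_le_finrank h2
  refine ⟨(f 0).1, (f 1).1, ?_, congrArg Subtype.val (ha.trivial (f 0) (f 1)), hd _ (f 0).2,
    hd _ (f 1).2⟩
  have h3 := hf.map' a.toSubmodule.subtype (Submodule.ker_subtype _)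
  have h4 : ![(f 0).1, (f 1).1] = a.toSubmodule.subtype ∘ f := by
    funext i
    fin_cases i <;> rfl
  rw [h4]
  exact h3

theorem exists_pair_of_ideal [Module.Finite ℝ L] [LieAlgebra.IsSemisimple ℝ L]
    (I : LieIdeal ℝ L) (h : 2 ≤ realRank I) :
    ∃ X ∈ I, ∃ Y ∈ I, LinearIndependent ℝ ![X, Y] ∧ ⁅X, Y⁆ = 0 ∧
      ⨆ c : ℝ, (LieAlgebra.ad ℝ L X).eigenspace c = ⊤ ∧
      ⨆ c : ℝ, (LieAlgebra.ad ℝ L Y).eigenspace c = ⊤ := by
  obtain ⟨X, Y, h1, h2, h3, h4⟩ := exists_pair_of_realRank h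
  refine ⟨X.1, X.2, Y.1, Y.2, ?_, congrArg Subtype.val h2, diag_of_ideal I X h3,
    diag_of_ideal I Y h4⟩
  have h5 := h1.map' I.toSubmodule.subtype (Submodule.ker_subtype _)
  have h6 : ![X.1, Y.1] = I.toSubmodule.subtype ∘ ![X, Y] := by
    funext i
    fin_cases i <;> rfl
  rw [h6]
  exact h5

end Split

section Ad

variable {L : Type*} [LieRing L] [LieAlgebra ℝ L] {n : ℕ} (b : Basis (Fin n) ℝ L)

/-- The adjoint representation by matrices. -/
def adHom : L →ₗ⁅ℝ⁆ Mat n :=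
  { adM b with map_lie' := fun {X Y} => adM_lie b X Y }

theorem adHom_apply (X : L) : adHom b X = adM b X := rfl

theorem lieAlg_eq_map {S : Set (Mat n)} {T : Set L} (h : lieSet S = adM b '' T) :
    lieAlg S = (LieSubalgebra.lieSpan ℝ L T).map (adHom b) := by
  rw [LieSubalgebra.map_lieSpan, lieAlg, h]
  rfl

theorem finrank_lieAlg [LieAlgebra.IsKilling ℝ L] {S : Set (Mat n)} {T : Set L}
    (h : lieSet S = adM b '' T) :
    finrank ℝ (lieAlg S) = finrank ℝ (LieSubalgebra.lieSpan ℝ L T) := by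
  rw [lieAlg_eq_map b h]
  exact (LieSubalgebra.equivMapOfInjective (adHom b) _
    (adM_injective b)).toLinearEquiv.finrank_eq.symm

theorem exists_adEquiv [LieAlgebra.IsKilling ℝ L] {S : Set (Mat n)}
    (h : lieSet S = range (adM b)) : ∃ e : L ≃ₗ⁅ℝ⁆ lieAlg S, ∀ X, (e X).1 = adM b X := by
  have h1 : ((adHom b).range : Set (Mat n)) = lieAlg S := by
    rw [lieAlg, h]
    have h2 : range (adM b) = ((adHom b).range : Set (Mat n)) := rfl
    rw [h2, LieSubalgebra.lieSpan_eq]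
  exact ⟨(LieEquiv.ofInjective (adHom b) (adM_injective b)).trans (LieEquiv.ofEq _ _ h1),
    fun X => rfl⟩

end Ad

end Pool.Agent.P.MP_d483fb_an.Z
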